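import Pool.Agent.H80.S6C.Ext0
import Pool.Agent.H75.S6C.Rot

/-!
# Closed planes of directions

`RcF`: the fans at exact points are straight, with slopes `e` and offsets `n`; the normal form
`(s, c)` is a function of the line and of its window `w`, the direction `e` lies in the plane of
the normal form to precision `2 ^ (-r)`, and the velocity in the direction of the normal is
`fn c s n` to the same precision. The number of the class is `rc w`.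
-/

set_option autoImplicit false

namespace Pool.S6C

open Finset Real
open Pool.Agent.H49.Ent Pool.Agent.H32.Dense Pool.STK Pool.KA Pool.KSAT Pool.K2S Pool.PB Pool.KS6

/-- **Closed plane of directions.** -/
structure RcF {J : ℕ} (F : Fam 3 J) (A : F.Ω → Prop) (i₀ iu iN : Fin 3) (He w r : ℕ)
    (Bs Bc C : ℝ) (e n : (Fin 3 → ℤ) × (ℕ × F.ζ) → Fin 3 → ℝ)
    (sy : (Fin 3 → ℤ) × (ℕ × F.ζ) → ℝ) (s c : F.Ω → ℝ) : Prop where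
  e0 : ∀ v, e v i₀ = 1
  n0 : ∀ v, n v i₀ = 0
  be : ∀ ω, A ω → ∀ j, |e (Fam.pt F ω) j| ≤ 3 / 2
  on : ∀ ω, A ω → ∀ j,
    |F.d ω j - e (Fam.pt F ω) j * F.d ω i₀ - n (Fam.pt F ω) j| ≤ C / 2 ^ He
  bs : ∀ ω, A ω → |s ω| ≤ Bs
  bc : ∀ ω, A ω → |c ω| ≤ Bc
  near : ∀ ω, A ω → |s ω - sy (Fam.pt F ω)| ≤ 10 * C / 2 ^ (r - He)
  dir : ∀ ω, A ω → |fn i₀ iu iN (c ω) (s ω) (e (Fam.pt F ω))| ≤ C / 2 ^ r
  vel : ∀ ω, A ω → |fn i₀ iu iN (c ω) (s ω) (F.d ω) -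
    fn i₀ iu iN (c ω) (s ω) (n (Fam.pt F ω))| ≤ C / 2 ^ r
  slm : ∃ ψ : ((Fin 3 → ℝ) × (Fin 3 → ℝ)) × F.ζ × ℕ → ℝ × ℝ, ∀ ω, (s ω, c ω) = ψ (slam F w ω)

theorem RcF.sub {J : ℕ} {F : Fam 3 J} {A A' : F.Ω → Prop} {i₀ iu iN : Fin 3} {He w r : ℕ}
    {Bs Bc C : ℝ} {e n : (Fin 3 → ℤ) × (ℕ × F.ζ) → Fin 3 → ℝ}
    {sy : (Fin 3 → ℤ) × (ℕ × F.ζ) → ℝ} {s c : F.Ω → ℝ}
    (h : RcF F A i₀ iu iN He w r Bs Bc C e n sy s c) (hA : Sub A' A) :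
    RcF F A' i₀ iu iN He w r Bs Bc C e n sy s c :=
  ⟨h.e0, h.n0, fun ω hω => h.be ω (hA ω hω), fun ω hω => h.on ω (hA ω hω),
    fun ω hω => h.bs ω (hA ω hω), fun ω hω => h.bc ω (hA ω hω), fun ω hω => h.near ω (hA ω hω),
    fun ω hω => h.dir ω (hA ω hω), fun ω hω => h.vel ω (hA ω hω), h.slm⟩

/-- The normal form is determined by the window. -/
theorem RcF.det {J : ℕ} {F : Fam 3 J} {A : F.Ω → Prop} {i₀ iu iN : Fin 3} {He w r : ℕ}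
    {Bs Bc C : ℝ} {e n : (Fin 3 → ℤ) × (ℕ × F.ζ) → Fin 3 → ℝ}
    {sy : (Fin 3 → ℤ) × (ℕ × F.ζ) → ℝ} {s c : F.Ω → ℝ}
    (h : RcF F A i₀ iu iN He w r Bs Bc C e n sy s c) (q : F.Ω → ℝ) :
    Det q (slam F w) (fun ω => (s ω, c ω)) := by
  obtain ⟨ψ, hψ⟩ := h.slm
  intro ω ω' _ _ e1
  beta_reduce
  rw [hψ ω, hψ ω', e1]

/-- Smaller precisions. -/
theorem RcF.anti {J : ℕ} {F : Fam 3 J} {A : F.Ω → Prop} {i₀ iu iN : Fin 3} {He He' w r r' : ℕ}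
    {Bs Bc C : ℝ} {e n : (Fin 3 → ℤ) × (ℕ × F.ζ) → Fin 3 → ℝ}
    {sy : (Fin 3 → ℤ) × (ℕ × F.ζ) → ℝ} {s c : F.Ω → ℝ} (hC : 0 ≤ C)
    (h : RcF F A i₀ iu iN He w r Bs Bc C e n sy s c) (hr : r' ≤ r) (hH : He' ≤ He)
    (hd : r' - He' ≤ r - He) :
    RcF F A i₀ iu iN He' w r' Bs Bc C e n sy s c := by
  have h1 : C / 2 ^ r ≤ C / 2 ^ r' :=
    div_le_div_of_nonneg_left hC (by positivity) (pow_le_pow_right₀ (by norm_num) hr)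
  have h2 : C / 2 ^ He ≤ C / 2 ^ He' :=
    div_le_div_of_nonneg_left hC (by positivity) (pow_le_pow_right₀ (by norm_num) hH)
  have h3 : 10 * C / 2 ^ (r - He) ≤ 10 * C / 2 ^ (r' - He') :=
    div_le_div_of_nonneg_left (by positivity) (by positivity)
      (pow_le_pow_right₀ (by norm_num) hd)
  exact ⟨h.e0, h.n0, h.be, fun ω hω j => (h.on ω hω j).trans h2, h.bs, h.bc,
    fun ω hω => (h.near ω hω).trans h3, fun ω hω => (h.dir ω hω).trans h1,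
    fun ω hω => (h.vel ω hω).trans h1, h.slm⟩

/-- Smaller windows. -/
theorem RcF.win {J : ℕ} {F : Fam 3 J} {A : F.Ω → Prop} {i₀ iu iN : Fin 3} {He w w' r : ℕ}
    {Bs Bc C : ℝ} {e n : (Fin 3 → ℤ) × (ℕ × F.ζ) → Fin 3 → ℝ}
    {sy : (Fin 3 → ℤ) × (ℕ × F.ζ) → ℝ} {s c : F.Ω → ℝ}
    (h : RcF F A i₀ iu iN He w r Bs Bc C e n sy s c) (hw : w ≤ w') (hJ : w' ≤ J) :
    RcF F A i₀ iu iN He w' r Bs Bc C e n sy s c := by
  obtain ⟨ψ, hψ⟩ := h.slm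
  refine ⟨h.e0, h.n0, h.be, h.on, h.bs, h.bc, h.near, h.dir, h.vel,
    fun v => ψ (v.1, v.2.1, v.2.2 / 2 ^ (w' - w)), fun ω => ?_⟩
  rw [hψ ω, slam_coarse F hw hJ ω]

/-- **The property**: closed planes of directions for the windows `w`, to precision `x`. -/
def qRc (i₀ : Fin 3) (pe w x : ℝ) : Stat 3 := fun J F A =>
  ∃ iu iN : Fin 3, (∀ j : Fin 3, j = i₀ ∨ j = iu ∨ j = iN) ∧
    ∃ (e n : (Fin 3 → ℤ) × (ℕ × F.ζ) → Fin 3 → ℝ) (sy : (Fin 3 → ℤ) × (ℕ × F.ζ) → ℝ)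
      (s c : F.Ω → ℝ), RcF F A i₀ iu iN ⌊pe * J⌋₊ ⌊w * J⌋₊ ⌊x * J⌋₊ 1 4 1 e n sy s c

theorem qRc.hered (i₀ : Fin 3) (pe w x : ℝ) (J : ℕ) (F : Fam 3 J) :
    Hered (qRc i₀ pe w x J F) := by
  rintro A B hB ⟨iu, iN, hi, e, n, sy, s, c, h⟩
  exact ⟨iu, iN, hi, e, n, sy, s, c, h.sub hB⟩

theorem qRc.anti (i₀ : Fin 3) (pe w : ℝ) (x x' : ℝ) (J : ℕ) (F : Fam 3 J) (A : F.Ω → Prop)
    (hx : x' ≤ x) (h : qRc i₀ pe w x J F A) : qRc i₀ pe w x' J F A := by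
  obtain ⟨iu, iN, hi, e, n, sy, s, c, h⟩ := h
  have h1 : ⌊x' * J⌋₊ ≤ ⌊x * J⌋₊ :=
    Nat.floor_le_floor (mul_le_mul_of_nonneg_right hx (Nat.cast_nonneg J))
  exact ⟨iu, iN, hi, e, n, sy, s, c, h.anti zero_le_one h1 le_rfl (by omega)⟩

/-- Larger windows. -/
theorem qRc.win {i₀ : Fin 3} {pe w w' : ℝ} (hw : w ≤ w') (hw1 : w' ≤ 1) {x : ℝ} {J : ℕ}
    {F : Fam 3 J} {A : F.Ω → Prop} (h : qRc i₀ pe w x J F A) : qRc i₀ pe w' x J F A := by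
  obtain ⟨iu, iN, hi, e, n, sy, s, c, h⟩ := h
  refine ⟨iu, iN, hi, e, n, sy, s, c, h.win (floor_row hw J) ?_⟩
  have : ⌊w' * J⌋₊ ≤ ⌊(1 : ℝ) * J⌋₊ := floor_row hw1 J
  simpa using this

/-- **The numbers `rc w` of a class.** -/
structure RcN (S : PCl 3) (i₀ : Fin 3) (pe : ℝ) (rc : ℚ → ℝ) : Prop where
  num : ∀ w : ℚ, PNum S (capS 1 (qRc i₀ pe w)) (rc w)

theorem RcN.le {S S' : PCl 3} {i₀ : Fin 3} {pe : ℝ} {rc : ℚ → ℝ} (h : S'.Le S)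
    (hR : RcN S i₀ pe rc) : RcN S' i₀ pe rc := ⟨fun w => (hR.num w).le h⟩

theorem RcN.mono {S : PCl 3} {i₀ : Fin 3} {pe : ℝ} {rc : ℚ → ℝ} (hS : S.Ne)
    (hR : RcN S i₀ pe rc) {w w' : ℚ} (hw : w ≤ w') (hw1 : w' ≤ 1) : rc w ≤ rc w' := by
  refine num_le hS (hR.num w) (hR.num w') fun t J F A h => ?_
  rcases h with h | h
  · exact Or.inl h
  · exact Or.inr ⟨h.1, qRc.win (by exact_mod_cast hw) (by exact_mod_cast hw1) h.2⟩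

theorem RcN.nonneg {S : PCl 3} {i₀ : Fin 3} {pe : ℝ} {rc : ℚ → ℝ} (hS : S.Ne)
    (hR : RcN S i₀ pe rc) (w : ℚ) : 0 ≤ rc w := num_nonneg hS (hR.num w)

theorem RcN.le_one {S : PCl 3} {i₀ : Fin 3} {pe : ℝ} {rc : ℚ → ℝ} (hS : S.Ne)
    (hR : RcN S i₀ pe rc) (w : ℚ) : rc w ≤ 1 := num_le_cap hS zero_le_one (hR.num w)

/-- **Existence of the numbers** in a subclass. -/
theorem rc_ext {S : PCl 3} (hS : S.Ne) (i₀ : Fin 3) (pe : ℝ) :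
    ∃ (S' : PCl 3) (rc : ℚ → ℝ), SubC S' S ∧ RcN S' i₀ pe rc := by
  obtain ⟨f, hf⟩ := exists_surjective_nat ℚ
  obtain ⟨S', h1, h2, h3⟩ := ext_num hS (fun n => capS 1 (qRc i₀ pe (f n)))
    (fun n s J F => capS.hered (qRc.hered _ _ _) _ _ _)
    (fun n s s' J F A hs => capS.anti (qRc.anti _ _ _) _ _ _ _ _ hs)
    (fun n => ⟨0, Clp.of one_pos 0 fun J _ F A _ => Or.inl le_rfl⟩)
    (fun n => ⟨2, Clp.of one_pos 0 fun J _ F A _ => by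
      rintro (h | h)
      · linarith
      · linarith [h.1]⟩)
  choose s hs using h3
  choose g hg using hf
  refine ⟨S', fun w => s (g w), ⟨h1, h2⟩, ⟨fun w => ?_⟩⟩
  have := hs (g w)
  rwa [hg w] at this

end Pool.S6C
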