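import Pool.Agent.H41.S6H.Rc1
import Pool.Agent.H62.S6.Adm

/-!
# Closed planes of directions from planks; the number `rc w` is at least `th w - w`
-/

set_option autoImplicit false

namespace Pool.S6C

open Finset Real
open Pool.Agent.H49.Ent Pool.Agent.H32.Dense Pool.STK Pool.KA Pool.KSAT Pool.K2S Pool.PB Pool.KS6

/-- The slopes, with the value `1` at `i₀`. -/
noncomputable def nrE {U : Type} (i₀ : Fin 3) (e : U → Fin 3 → ℝ) : U → Fin 3 → ℝ :=
  fun v j => if j = i₀ then 1 else e v j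

/-- The offsets, with the value `0` at `i₀` and the value `nN` at `iN`. -/
noncomputable def nrN {U : Type} (i₀ iN : Fin 3) (n : U → Fin 3 → ℝ) (nN : U → ℝ) :
    U → Fin 3 → ℝ :=
  fun v j => if j = i₀ then 0 else if j = iN then nN v else n v j

/-- **Closed planes of directions** from a closed normal form `(s, c)` which contains the
directions, and the straightness in a visible direction `sz` near `s`. -/
theorem rcf_of {J : ℕ} {F : Fam 3 J} {A : F.Ω → Prop} {i₀ iu iN : Fin 3} {Pu He w r : ℕ}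
    {Bs Bc C : ℝ} {e n : (Fin 3 → ℤ) × (ℕ × F.ζ) → Fin 3 → ℝ} {s c : F.Ω → ℝ}
    (hi : ∀ j : Fin 3, j = i₀ ∨ j = iu ∨ j = iN)
    (hL : OnL i₀ (1 / 2 ^ Pu) (Fam.pt F) F.d A e n)
    (heb : ∀ ω, A ω → ∀ j, |e (Fam.pt F ω) j| ≤ 3 / 2) (hPu : He ≤ Pu) (hC : 0 ≤ C)
    (hB0 : 0 ≤ Bs)
    (hbs : ∀ ω, A ω → |s ω| ≤ Bs) (hbc : ∀ ω, A ω → |c ω| ≤ Bc)
    (hslm : ∃ ψ : ((Fin 3 → ℝ) × (Fin 3 → ℝ)) × F.ζ × ℕ → ℝ × ℝ,
      ∀ ω, (s ω, c ω) = ψ (slam F w ω))
    (hcl : ∀ ω, A ω → |c ω + s ω * e (Fam.pt F ω) iu + e (Fam.pt F ω) iN| ≤ C / 2 ^ r)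
    (hsn : r ≤ He ∨ ∃ (sz b : (Fin 3 → ℤ) × (ℕ × F.ζ) → ℝ), ∀ ω, A ω →
      |(F.d ω iN - e (Fam.pt F ω) iN * F.d ω i₀) +
        sz (Fam.pt F ω) * (F.d ω iu - e (Fam.pt F ω) iu * F.d ω i₀) - b (Fam.pt F ω)| ≤
          C / 2 ^ r ∧ |s ω - sz (Fam.pt F ω)| ≤ C / 2 ^ (r - He)) :
    ∃ (nN sy : (Fin 3 → ℤ) × (ℕ × F.ζ) → ℝ),
      RcF F A i₀ iu iN He w r Bs Bc (3 * C + 2 * Bs + 2) (nrE i₀ e) (nrN i₀ iN n nN) sy s c := by
  obtain ⟨h1, h2, h3⟩ := three hi
  have e1 : ∀ v, nrE i₀ e v i₀ = 1 := fun v => by unfold nrE; rw [if_pos rfl]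
  have e2 : ∀ v, nrE i₀ e v iu = e v iu := fun v => by unfold nrE; rw [if_neg h1]
  have e3 : ∀ v, nrE i₀ e v iN = e v iN := fun v => by unfold nrE; rw [if_neg h2]
  have n1 : ∀ (nN : (Fin 3 → ℤ) × (ℕ × F.ζ) → ℝ) v, nrN i₀ iN n nN v i₀ = 0 := fun nN v => by
    unfold nrN; rw [if_pos rfl]
  have n2 : ∀ (nN : (Fin 3 → ℤ) × (ℕ × F.ζ) → ℝ) v, nrN i₀ iN n nN v iu = n v iu :=
    fun nN v => by unfold nrN; rw [if_neg h1, if_neg (fun h => h3 h.symm)]
  have n3 : ∀ (nN : (Fin 3 → ℤ) × (ℕ × F.ζ) → ℝ) v, nrN i₀ iN n nN v iN = nN v :=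
    fun nN v => by unfold nrN; rw [if_neg h2, if_pos rfl]
  have hbe : ∀ ω, A ω → ∀ j, |nrE i₀ e (Fam.pt F ω) j| ≤ 3 / 2 := by
    intro ω hω j
    unfold nrE
    split_ifs
    · norm_num
    · exact heb ω hω j
  have hK0 : 0 ≤ 3 * C + 2 * Bs + 2 := by linarith only [hC, hB0]
  have hP : (1 : ℝ) / 2 ^ Pu ≤ 1 / 2 ^ He := inv_mono hPu
  have hd0 : ∀ ω, |F.d ω i₀| ≤ 1 := fun ω => F.dir ω i₀
  have hdir : ∀ ω, A ω → |fn i₀ iu iN (c ω) (s ω) (nrE i₀ e (Fam.pt F ω))| ≤ C / 2 ^ r := by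
    intro ω hω
    unfold fn
    rw [e1, e2, e3, mul_one]
    exact hcl ω hω
  have hsl : ∀ ω, A ω → |(c ω + s ω * e (Fam.pt F ω) iu + e (Fam.pt F ω) iN) * F.d ω i₀| ≤
      C / 2 ^ r := by
    intro ω hω
    rw [abs_mul]
    calc _ ≤ C / 2 ^ r * 1 := mul_le_mul (hcl ω hω) (hd0 ω) (abs_nonneg _) (by positivity)
      _ = C / 2 ^ r := mul_one _
  have hdir' : ∀ ω, A ω → |fn i₀ iu iN (c ω) (s ω) (nrE i₀ e (Fam.pt F ω))| ≤
      (3 * C + 2 * Bs + 2) / 2 ^ r := fun ω hω => (hdir ω hω).trans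
    (div_le_div_of_nonneg_right (by linarith only [hC, hB0]) (by positivity))
  -- the velocities in the coordinates `i₀`, `iu`
  have hon0 : ∀ (nN : (Fin 3 → ℤ) × (ℕ × F.ζ) → ℝ), ∀ ω, A ω → ∀ j, j ≠ iN →
      |F.d ω j - nrE i₀ e (Fam.pt F ω) j * F.d ω i₀ - nrN i₀ iN n nN (Fam.pt F ω) j| ≤
        (3 * C + 2 * Bs + 2) / 2 ^ He := by
    intro nN ω hω j hj
    rcases hi j with g | g | g
    · rw [g, e1, n1, one_mul, sub_self, sub_zero, abs_zero]
      positivity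
    · rw [g, e2, n2]
      refine (hL ω hω iu).trans (hP.trans ?_)
      exact div_le_div_of_nonneg_right (by linarith) (by positivity)
    · exact absurd g hj
  rcases le_or_gt r He with hrH | hrH
  · refine ⟨fun v => n v iN, fun _ => 0, e1, n1 _, hbe, fun ω hω j => ?_, hbs, hbc,
      fun ω hω => ?_, hdir', fun ω hω => ?_, hslm⟩
    · by_cases hj : j = iN
      · rw [hj, e3, n3]
        refine (hL ω hω iN).trans (hP.trans ?_)
        exact div_le_div_of_nonneg_right (by linarith only [hC, hB0]) (by positivity)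
      · exact hon0 _ ω hω j hj
    · have g : r - He = 0 := by omega
      rw [g, sub_zero, pow_zero, div_one]
      have := hbs ω hω
      linarith only [hC, hB0, this]
    · have g1 := hL ω hω iu
      have g2 := hL ω hω iN
      have g3 := hsl ω hω
      have g4 := hbs ω hω
      have g5 : (1 : ℝ) / 2 ^ Pu ≤ 1 / 2 ^ r := inv_mono (hrH.trans hPu)
      have e4 : fn i₀ iu iN (c ω) (s ω) (F.d ω) -
          fn i₀ iu iN (c ω) (s ω) (nrN i₀ iN n (fun v => n v iN) (Fam.pt F ω)) =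
          (c ω + s ω * e (Fam.pt F ω) iu + e (Fam.pt F ω) iN) * F.d ω i₀ +
          (s ω * (F.d ω iu - e (Fam.pt F ω) iu * F.d ω i₀ - n (Fam.pt F ω) iu) +
          (F.d ω iN - e (Fam.pt F ω) iN * F.d ω i₀ - n (Fam.pt F ω) iN)) := by
        unfold fn
        rw [n1, n2, n3]
        ring
      rw [e4]
      refine (abs_add_le _ _).trans ?_
      have t1 := abs_add_le (s ω * (F.d ω iu - e (Fam.pt F ω) iu * F.d ω i₀ - n (Fam.pt F ω) iu))
        (F.d ω iN - e (Fam.pt F ω) iN * F.d ω i₀ - n (Fam.pt F ω) iN)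
      have t2 : |s ω * (F.d ω iu - e (Fam.pt F ω) iu * F.d ω i₀ - n (Fam.pt F ω) iu)| ≤
          Bs * (1 / 2 ^ r) := by
        rw [abs_mul]
        exact mul_le_mul g4 (g1.trans g5) (abs_nonneg _) hB0
      have e5 : (3 * C + 2 * Bs + 2) / 2 ^ r = C / 2 ^ r + (Bs * (1 / 2 ^ r) + 1 / 2 ^ r) +
          (2 * C + Bs + 1) / 2 ^ r := by ring
      have e6 : 0 ≤ (2 * C + Bs + 1) / 2 ^ r := div_nonneg (by linarith only [hC, hB0]) (by positivity)
      rw [e5]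
      linarith only [g2, g3, g5, t1, t2, e6]
  · rcases hsn with hsn | ⟨sz, b, hsn⟩
    · omega
    have g5 : C / 2 ^ r ≤ C / 2 ^ He :=
      div_le_div_of_nonneg_left hC (by positivity) (pow_le_pow_right₀ (by norm_num) hrH.le)
    refine ⟨fun v => b v - sz v * n v iu, sz, e1, n1 _, hbe, fun ω hω j => ?_, hbs, hbc,
      fun ω hω => ?_, hdir', fun ω hω => ?_, hslm⟩
    · by_cases hj : j = iN
      · rw [hj, e3, n3]
        obtain ⟨k1, k2⟩ := hsn ω hω
        have g1 := hL ω hω iu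
        have g4 := hbs ω hω
        have e4 : F.d ω iN - e (Fam.pt F ω) iN * F.d ω i₀ -
            (b (Fam.pt F ω) - sz (Fam.pt F ω) * n (Fam.pt F ω) iu) =
            ((F.d ω iN - e (Fam.pt F ω) iN * F.d ω i₀) +
              sz (Fam.pt F ω) * (F.d ω iu - e (Fam.pt F ω) iu * F.d ω i₀) - b (Fam.pt F ω)) -
            sz (Fam.pt F ω) *
              (F.d ω iu - e (Fam.pt F ω) iu * F.d ω i₀ - n (Fam.pt F ω) iu) := by ring
        have g6 : |sz (Fam.pt F ω)| ≤ Bs + C := by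
          have := abs_sub_abs_le_abs_sub (sz (Fam.pt F ω)) (s ω)
          rw [abs_sub_comm] at this
          have g7 : C / 2 ^ (r - He) ≤ C := div_le_self hC (one_le_pow₀ (by norm_num))
          linarith only [k2, g4, this, g7]
        rw [e4]
        refine (abs_sub _ _).trans ?_
        have t2 : |sz (Fam.pt F ω) *
            (F.d ω iu - e (Fam.pt F ω) iu * F.d ω i₀ - n (Fam.pt F ω) iu)| ≤
            (Bs + C) * (1 / 2 ^ He) := by
          rw [abs_mul]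
          exact mul_le_mul g6 (g1.trans hP) (abs_nonneg _) (by linarith only [hC, hB0])
        have e5 : (3 * C + 2 * Bs + 2) / 2 ^ He = C / 2 ^ He + (Bs + C) * (1 / 2 ^ He) +
            (C + Bs + 2) / 2 ^ He := by ring
        have e6 : 0 ≤ (C + Bs + 2) / 2 ^ He := div_nonneg (by linarith only [hC, hB0]) (by positivity)
        rw [e5]
        linarith only [g5, k1, t2, e6]
      · exact hon0 _ ω hω j hj
    · obtain ⟨k1, k2⟩ := hsn ω hω
      refine k2.trans (div_le_div_of_nonneg_right (by linarith only [hC, hB0]) (by positivity))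
    · obtain ⟨k1, k2⟩ := hsn ω hω
      have g1 := hL ω hω iu
      have g3 := hsl ω hω
      have e4 : fn i₀ iu iN (c ω) (s ω) (F.d ω) - fn i₀ iu iN (c ω) (s ω)
          (nrN i₀ iN n (fun v => b v - sz v * n v iu) (Fam.pt F ω)) =
          (c ω + s ω * e (Fam.pt F ω) iu + e (Fam.pt F ω) iN) * F.d ω i₀ +
          (((F.d ω iN - e (Fam.pt F ω) iN * F.d ω i₀) +
              sz (Fam.pt F ω) * (F.d ω iu - e (Fam.pt F ω) iu * F.d ω i₀) - b (Fam.pt F ω)) +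
          (s ω - sz (Fam.pt F ω)) *
            (F.d ω iu - e (Fam.pt F ω) iu * F.d ω i₀ - n (Fam.pt F ω) iu)) := by
        unfold fn
        rw [n1, n2, n3]
        ring
      rw [e4]
      refine (abs_add_le _ _).trans ?_
      have t1 := abs_add_le ((F.d ω iN - e (Fam.pt F ω) iN * F.d ω i₀) +
              sz (Fam.pt F ω) * (F.d ω iu - e (Fam.pt F ω) iu * F.d ω i₀) - b (Fam.pt F ω))
        ((s ω - sz (Fam.pt F ω)) *
            (F.d ω iu - e (Fam.pt F ω) iu * F.d ω i₀ - n (Fam.pt F ω) iu))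
      have t2 : |(s ω - sz (Fam.pt F ω)) *
            (F.d ω iu - e (Fam.pt F ω) iu * F.d ω i₀ - n (Fam.pt F ω) iu)| ≤ C / 2 ^ r := by
        rw [abs_mul]
        calc _ ≤ C / 2 ^ (r - He) * (1 / 2 ^ He) :=
              mul_le_mul k2 (g1.trans hP) (abs_nonneg _) (by positivity)
          _ = C / 2 ^ r := by
              rw [div_mul_div_comm, mul_one, ← pow_add]
              congr 2
              omega
      have e5 : (3 * C + 2 * Bs + 2) / 2 ^ r = C / 2 ^ r + (C / 2 ^ r + C / 2 ^ r) +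
          (2 * Bs + 2) / 2 ^ r := by ring
      have e6 : 0 ≤ (2 * Bs + 2) / 2 ^ r := div_nonneg (by linarith only [hB0]) (by positivity)
      rw [e5]
      linarith only [k1, g3, t1, t2, e6]

/-- **The number `rc w` is at least `th w - w`.** -/
theorem rc_ge {S : PCl 3} {a R h₁ : ℝ} {i₀ : Fin 3} {c s₂ : ℝ} {r : ℝ → ℝ} {D : Set ℝ}
    {σ : ℝ → Row} (hC : Cs S a R h₁ i₀ c s₂ r D σ) {pe : ℝ} {rc : ℚ → ℝ} (hN : RcN S i₀ pe rc)
    (hpe0 : 0 ≤ pe) (hpe : pe < (σ 1).pi) (w : ℚ) (hw0 : 0 ≤ w) (hw1 : w ≤ 1) :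
    (σ 1).th w - w ≤ rc w := by
  have hR1 := hC.row 1 one_pos le_rfl hC.D1
  refine le_of_forall_pos_le_add fun ε hε => ?_
  by_cases hneg : (σ 1).th w - w ≤ ε
  · have := hN.nonneg hC.ne w
    linarith only [hneg, this]
  push Not at hneg
  have hth1 : (σ 1).th w ≤ 1 := num_le_cap hC.ne zero_le_one (hR1.th w hw0 hw1)
  have hrot0 : 0 ≤ (σ 1).rot w := num_nonneg hC.ne (hR1.rot w hw0 hw1)
  have hw0r : (0 : ℝ) ≤ w := by exact_mod_cast hw0
  obtain ⟨ε', hε'⟩ : ∃ ε', ε' = min (ε / 8) (((σ 1).pi - pe) / 4) := ⟨_, rfl⟩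
  have hε0 : 0 < ε' := by
    rw [hε']
    exact lt_min (by linarith only [hε]) (by linarith only [hpe])
  have q1 : ε' ≤ ε / 8 := by rw [hε']; exact min_le_left _ _
  have q2 : ε' ≤ ((σ 1).pi - pe) / 4 := by rw [hε']; exact min_le_right _ _
  obtain ⟨T, hT⟩ : ∃ T, T = (σ 1).th w - ε' := ⟨_, rfl⟩
  obtain ⟨G, hG⟩ : ∃ G, G = T - w - ε' := ⟨_, rfl⟩
  obtain ⟨x, hx⟩ : ∃ x, x = T - w - 2 * ε' := ⟨_, rfl⟩
  obtain ⟨J₂, hJ₂⟩ := exists_nat_gt (8 / ε')
  have hnl := Pool.S6F.nl_clp hC 0 (fun _ => w) (fun _ => -1) (fun _ => T) (fun _ => 0)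
    (fun _ => G) (g := pe + 2 * ε') (fun j hj => absurd hj (Nat.not_lt_zero j))
    (fun j _ => hw0) (fun j _ => hw1) (by linarith only [hε0, q2]) (fun j _ => by linarith only [hneg, hth1, hrot0, hw0r, hε0, q1])
    (fun j _ => by linarith only [hε0, hT]) (fun j _ => by linarith only [hneg, hth1, hw0r, hε0, q1, hT]) (fun j _ => by linarith only [hneg, hε0, q1, hT])
    (fun j hj => absurd hj (Nat.not_lt_zero j)) (fun j hj => absurd hj (Nat.not_lt_zero j))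
    (fun j hj => absurd hj (Nat.not_lt_zero j)) (fun j _ => by linarith only [hneg, hε0, q1, hT, hG]) (fun j _ => by linarith only [hε0, hG])
  have key : x - (pe + ε' - pe) ≤ rc w := by
    refine rc_att (Bs := 4) (Bc := 4) (C := 13) hC.ne hN hpe0 (pe' := pe + ε') (by linarith only [hε0])
      (by linarith only [hth1, hw0r, hε0, hT, hx]) (by norm_num) fun δ hδ => ?_
    refine Clp.mono (J₂ := J₂) hnl ?_
    rintro J hJ F A ⟨iu, iN, e, n, z, h, hS⟩
    have hJr : 8 / ε' < J := hJ₂.trans_le (by exact_mod_cast hJ)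
    have hJε : 8 < J * ε' := by rwa [div_lt_iff₀ hε0] at hJr
    have hJ0 : (0 : ℝ) ≤ J := Nat.cast_nonneg J
    refine ⟨A, fun _ h => h, ?_, iu, iN, h.hi, ?_⟩
    · have : Real.exp (-(δ * J)) ≤ 1 := by
        rw [Real.exp_le_one_iff]
        have : 0 ≤ δ * J := by positivity
        linarith only [this]
      calc _ ≤ 1 * Pe F.p A := mul_le_mul_of_nonneg_right this (Pe_nonneg F.isLaw A)
        _ = _ := one_mul _
    obtain ⟨b, hb⟩ := hS 0 le_rfl
    obtain ⟨φ, hφ⟩ := h.zp 0 le_rfl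
    obtain ⟨ψ, hψ⟩ := h.zs 0 le_rfl
    have hin := h.inc 0 le_rfl
    have hzc := h.zc 0 le_rfl
    beta_reduce at hin hzc hψ hb
    -- the precisions
    obtain ⟨P, hP⟩ : ∃ P, P = ⌊T * J⌋₊ := ⟨_, rfl⟩
    obtain ⟨w₀, hw₀⟩ : ∃ w₀, w₀ = ⌊(w : ℝ) * J⌋₊ := ⟨_, rfl⟩
    obtain ⟨γ, hγ⟩ : ∃ γ, γ = ⌊G * J⌋₊ := ⟨_, rfl⟩
    obtain ⟨ρ, hρ⟩ : ∃ ρ, ρ = ⌊x * J⌋₊ := ⟨_, rfl⟩
    obtain ⟨He, hHe⟩ : ∃ He, He = ⌊(pe + ε') * J⌋₊ := ⟨_, rfl⟩
    have f1 : T * J < P + 1 := by rw [hP]; exact Nat.lt_floor_add_one _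
    have f2 : (w₀ : ℝ) ≤ w * J := by rw [hw₀]; exact Nat.floor_le (by positivity)
    have f3 : (ρ : ℝ) ≤ x * J := by
      rw [hρ]
      exact Nat.floor_le (mul_nonneg (by linarith only [hneg, hε0, q1, hT, hx]) hJ0)
    have f4 : G * J < γ + 1 := by rw [hγ]; exact Nat.lt_floor_add_one _
    have m1 : x * J + 2 * ε' * J = (T - w) * J := by rw [hx]; ring
    have m2 : x * J + ε' * J = G * J := by rw [hG, hx]; ring
    have n1 : ρ + w₀ ≤ P := by
      have : ((ρ + w₀ : ℕ) : ℝ) < ((P + 1 : ℕ) : ℝ) := by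
        push_cast
        nlinarith only [hneg, hth1, hw0r, hε0, q1, hJε, f1, f2, f3, m1]
      have : ρ + w₀ < P + 1 := by exact_mod_cast this
      omega
    have n2 : ρ ≤ γ := by
      have : (ρ : ℝ) < ((γ + 1 : ℕ) : ℝ) := by
        push_cast
        nlinarith only [hneg, hth1, hw0r, hε0, q1, hJε, f3, f4, m2]
      have : ρ < γ + 1 := by exact_mod_cast this
      omega
    have n3 : He ≤ ⌊(pe + 2 * ε') * J⌋₊ := by
      rw [hHe]
      exact Nat.floor_le_floor (mul_le_mul_of_nonneg_right (by linarith only [hε0]) hJ0)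
    have hslope : (2 : ℝ) ^ w₀ / 2 ^ P ≤ 1 / 2 ^ ρ := by
      rw [div_le_div_iff₀ (by positivity) (by positivity), one_mul, ← pow_add]
      exact pow_le_pow_right₀ (by norm_num) (by omega)
    rw [← hw₀, ← hP] at hzc
    rw [← hγ] at hb
    obtain ⟨nN, sy, hR⟩ := rcf_of (C := 1) (Bs := 4) (Bc := 4) (He := He) (w := w₀) (r := ρ)
      (s := fun ω => (z 0 ω).s) (c := fun ω => (z 0 ω).c) h.hi h.ln
      (fun ω hω j => (h.eb ω hω j).trans (by norm_num)) n3 zero_le_one (by norm_num)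
      (fun ω hω => (hin ω hω).s_le) (fun ω hω => (hin ω hω).c_le)
      ⟨fun v => ((ψ v).s, (ψ v).c), fun ω => by
        beta_reduce
        rw [hψ ω, hw₀]⟩
      (fun ω hω => (hzc ω hω).trans hslope)
      (Or.inr ⟨fun v => (φ v).s, b, fun ω hω => by
        have g1 := hb ω hω
        have g2 : (φ (Fam.pt F ω)).s = (z 0 ω).s := by
          have := hφ ω hω
          rw [this]
          rfl
        beta_reduce
        rw [g2, sub_self, abs_zero]
        exact ⟨g1.trans (inv_mono n2), by positivity⟩⟩)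
    have e13 : (3 : ℝ) * 1 + 2 * 4 + 2 = 13 := by norm_num
    rw [e13, hHe, hw₀, hρ] at hR
    exact ⟨_, _, _, _, _, hR⟩
  have : x - (pe + ε' - pe) = (σ 1).th w - w - 4 * ε' := by
    rw [hx, hT]
    ring
  linarith only [hε0, q1, hT, hx, key]

end Pool.S6C
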