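import Pool.Agent.H51.S6.Sel2
import Mathlib.MeasureTheory.Group.Prod
import Mathlib.MeasureTheory.Integral.IntervalIntegral.DerivIntegrable
import Mathlib.MeasureTheory.Integral.IntervalIntegral.AbsolutelyContinuousFun
import Mathlib.Topology.MetricSpace.Kuratowski

/-!
# Selection of pairs of rows

Pure facts: the points of a monotone function with a large upper right slope are few; a set of rows
of positive outer measure (not necessarily measurable) contains a pair `g < P` at a small distance,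
such that `P - g` is in a given set of positive density and `(W g, P - g)` avoids a set whose
sections at `q` have measure at most `M q`.
-/

set_option autoImplicit false

namespace Pool.Sel51

open MeasureTheory Set Filter Topology
open scoped ENNReal NNReal

/-- The set of points at which a monotone function has no upper right slope `M` is small. -/
theorem bad_slope {F : ℝ → ℝ} (hF : Monotone F) {a b M : ℝ} (hab : a ≤ b) (hM : 0 < M) :
    volume {x | x ∈ Ioo a b ∧ ¬ ∃ δ : ℝ, 0 < δ ∧ ∀ y : ℝ, x < y → y < x + δ →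
      F y - F x ≤ M * (y - x)} ≤ ENNReal.ofReal ((F b - F a) / M) := by
  have hmon : MonotoneOn F (uIcc a b) := fun x _ y _ h => hF h
  have hsub : {x | x ∈ Ioo a b ∧ ¬ ∃ δ : ℝ, 0 < δ ∧ ∀ y : ℝ, x < y → y < x + δ →
      F y - F x ≤ M * (y - x)} ⊆ {x | ¬ DifferentiableAt ℝ F x} ∪
        ({x | M ≤ deriv F x} ∩ Ioc a b) := by
    rintro x ⟨hx, hx'⟩
    by_cases hd : DifferentiableAt ℝ F x
    · right
      refine ⟨?_, hx.1, hx.2.le⟩
      by_contra hcon
      rw [mem_ofPred_eq, not_le] at hcon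
      refine hx' ?_
      have h1 := (hasDerivAt_iff_isLittleO.1 hd.hasDerivAt).def
        (show 0 < M - deriv F x by linarith)
      obtain ⟨δ, hδ, h2⟩ := Metric.eventually_nhds_iff.1 h1
      refine ⟨δ, hδ, fun y hy1 hy2 => ?_⟩
      have h3 := h2 (y := y) (by rw [Real.dist_eq, abs_of_pos (by linarith)]; linarith)
      rw [Real.norm_eq_abs, Real.norm_eq_abs, smul_eq_mul, abs_of_pos (a := y - x)
        (by linarith)] at h3
      have h4 := (abs_le.1 h3).2
      have h5 : (y - x) * deriv F x + (M - deriv F x) * (y - x) = M * (y - x) := by ring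
      linarith
    · exact Or.inl hd
  have h0 : volume {x | ¬ DifferentiableAt ℝ F x} = 0 := hF.ae_differentiableAt
  refine (measure_mono hsub).trans ((measure_union_le _ _).trans ?_)
  rw [h0, zero_add]
  have hint : IntegrableOn (deriv F) (Ioc a b) volume :=
    (intervalIntegrable_iff_integrableOn_Ioc_of_le hab).1 hmon.intervalIntegrable_deriv
  have h1 := mul_meas_ge_le_integral_of_nonneg (μ := volume.restrict (Ioc a b))
    (f := deriv F) (Eventually.of_forall fun x => hF.deriv_nonneg) hint M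
  have h2 := hmon.intervalIntegral_deriv_mem_uIcc
  rw [intervalIntegral.integral_of_le hab, uIcc_of_le (by linarith [hF hab])] at h2
  have hms : MeasurableSet {x | M ≤ deriv F x} :=
    measurableSet_le measurable_const (measurable_deriv F)
  have h3 : volume.real ({x | M ≤ deriv F x} ∩ Ioc a b) ≤ (F b - F a) / M := by
    rw [le_div_iff₀ hM, mul_comm]
    refine le_trans ?_ (h1.trans h2.2)
    rw [measureReal_def, measureReal_def, Measure.restrict_apply hms]
  have hfin : volume ({x | M ≤ deriv F x} ∩ Ioc a b) ≠ ⊤ :=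
    ne_top_of_le_ne_top (by rw [Real.volume_Ioc]; exact ENNReal.ofReal_ne_top)
      (measure_mono inter_subset_right)
  rw [← ENNReal.ofReal_toReal hfin]
  exact ENNReal.ofReal_le_ofReal h3

/-- The lower Lipschitz bound. -/
theorem pre_le {s : Set ℝ} {W : ℝ → ℝ} {C : ℝ} (hC : 0 < C)
    (h : ∀ g ∈ s, ∀ P ∈ s, g < P → (P - g) / C ≤ W P - W g) :
    volume s ≤ ENNReal.ofReal C * volume (W '' s) := by
  have hinj : InjOn W s := by
    intro g hg P hP he
    rcases lt_trichotomy g P with h1 | h1 | h1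
    · have h2 := h g hg P hP h1
      have h3 : 0 < (P - g) / C := div_pos (by linarith) hC
      rw [he] at h2
      linarith
    · exact h1
    · have h2 := h P hP g hg h1
      have h3 : 0 < (g - P) / C := div_pos (by linarith) hC
      rw [he] at h2
      linarith
  obtain ⟨V, hV⟩ : ∃ V : ℝ → ℝ, ∀ P ∈ s, V (W P) = P :=
    ⟨Function.invFunOn W s, fun P hP => hinj.leftInvOn_invFunOn hP⟩
  have himg : s = V '' (W '' s) := by
    ext P
    constructor
    · intro hP
      exact ⟨W P, ⟨P, hP, rfl⟩, hV P hP⟩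
    · rintro ⟨_, ⟨g, hg, rfl⟩, rfl⟩
      rw [hV g hg]
      exact hg
  have hle : volume (V '' (W '' s)) ≤ ENNReal.ofReal C * volume (W '' s) := by
    refine vol_image_le hC.le ?_
    rintro _ ⟨g, hg, rfl⟩ _ ⟨P, hP, rfl⟩ hgP
    rw [hV g hg, hV P hP]
    rcases lt_trichotomy g P with h1 | h1 | h1
    · have h2 := h g hg P hP h1
      rw [abs_of_pos (by linarith)]
      rw [div_le_iff₀ hC] at h2
      linarith
    · rw [h1]
      simp
    · have h2 := h P hP g hg h1
      have h3 : 0 < (g - P) / C := div_pos (by linarith) hC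
      linarith
  calc volume s = volume (V '' (W '' s)) := by rw [← himg]
    _ ≤ _ := hle

/-- A product of a set with itself meets all measurable sets of positive measure in the square of
its hull. -/
theorem pair_hull {s : Set ℝ} {E : Set (ℝ × ℝ)} (hE : MeasurableSet E)
    (h0 : (volume.prod volume) E ≠ 0)
    (hs : ∀ z ∈ E, z.1 ∈ toMeasurable volume s ∧ z.2 ∈ toMeasurable volume s) :
    ∃ g ∈ s, ∃ P ∈ s, (g, P) ∈ E := by
  have hm : Measurable fun x => volume (Prod.mk x ⁻¹' E) := measurable_measure_prodMk_left hE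
  obtain ⟨S, hS⟩ : ∃ S : Set ℝ, S = {x | volume (Prod.mk x ⁻¹' E) ≠ 0} := ⟨_, rfl⟩
  have hSm : MeasurableSet S := by
    rw [hS]
    exact (measurableSet_eq_fun hm measurable_const).compl
  have hS0 : volume S ≠ 0 := by
    intro h
    refine h0 ?_
    rw [Measure.prod_apply hE, lintegral_eq_zero_iff hm]
    rw [hS] at h
    exact h
  have hST : toMeasurable volume s ∩ S = S := by
    refine inter_eq_right.2 fun x hx => ?_
    rw [hS] at hx
    obtain ⟨y, hy⟩ := nonempty_of_measure_ne_zero hx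
    exact (hs _ hy).1
  have h1 := Measure.measure_toMeasurable_inter_of_sFinite (μ := (volume : Measure ℝ)) hSm s
  rw [hST] at h1
  rw [h1] at hS0
  obtain ⟨g, hg, hgS⟩ := nonempty_of_measure_ne_zero hS0
  rw [hS] at hgS
  have hEg : MeasurableSet (Prod.mk g ⁻¹' E) := measurable_prodMk_left hE
  have hET : toMeasurable volume s ∩ (Prod.mk g ⁻¹' E) = Prod.mk g ⁻¹' E :=
    inter_eq_right.2 fun y hy => (hs _ hy).2
  have h2 := Measure.measure_toMeasurable_inter_of_sFinite (μ := (volume : Measure ℝ)) hEg s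
  rw [hET] at h2
  have h3 : volume (s ∩ Prod.mk g ⁻¹' E) ≠ 0 := by
    rw [← h2]
    exact hgS
  obtain ⟨P, hP, hPE⟩ := nonempty_of_measure_ne_zero h3
  exact ⟨g, hg, P, hP, hPE⟩

/-- **Selection of a pair.** In a set `K` of rows of positive outer measure, with windows which are
Lipschitz in both directions at small distances, there is a pair `g < P` such that `P - g` is in
`A` and `(P - g, W g)` is not in the bad set `N`. -/
theorem pair_sel {K : Set ℝ} (hK : volume K ≠ 0) {W : ℝ → ℝ} {C : ℝ} (hC : 0 < C)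
    (hlip : ∀ g ∈ K, ∀ P ∈ K, g ≤ P → W g ≤ W P ∧ W P - W g ≤ P - g)
    (hl : ∀ P ∈ K, ∀ g ∈ K, P - 1 / C < g → g < P → (P - g) / C ≤ W P - W g)
    {A : Set ℝ} (hA : MeasurableSet A) (hd : ∀ y : ℝ, 0 < y → volume (A ∩ Ioo 0 y) ≠ 0)
    {N : Set (ℝ × ℝ)} (hN : MeasurableSet N) {M δ₀ : ℝ} (hM : 0 ≤ M) (hδ₀ : 0 < δ₀)
    (hNs : ∀ᵐ q : ℝ, 0 < q → q < δ₀ → volume {w | (q, w) ∈ N} ≤ ENNReal.ofReal (M * q))
    {ε : ℝ} (hε : 0 < ε) :
    ∃ P ∈ K, ∃ g ∈ K, g < P ∧ P - g < ε ∧ P - g ∈ A ∧ (P - g, W g) ∉ N := by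
  -- the extension of the window
  obtain ⟨V, hV, hVW⟩ : ∃ V : ℝ → ℝ, LipschitzWith 1 V ∧ EqOn W V K := by
    have h : LipschitzOnWith 1 W K := by
      refine LipschitzOnWith.of_dist_le_mul fun x hx y hy => ?_
      rw [NNReal.coe_one, one_mul, Real.dist_eq, Real.dist_eq]
      rcases le_total x y with hxy | hxy
      · have := hlip x hx y hy hxy
        rw [abs_sub_comm, abs_sub_comm x y, abs_of_nonneg (by linarith),
          abs_of_nonneg (by linarith)]
        exact this.2
      · have := hlip y hy x hx hxy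
        rw [abs_of_nonneg (by linarith), abs_of_nonneg (by linarith)]
        exact this.2
    exact h.extend_real
  have hVm : Measurable V := hV.continuous.measurable
  -- the zone
  obtain ⟨x₀, -, hx₀⟩ := dens_point hK
  obtain ⟨δ, hδ, hzone⟩ := DP.ev (s := K) (x := x₀) hx₀ (η := 1 / 8) (by norm_num) (by norm_num)
  obtain ⟨r, hr0, hr1, hr2⟩ : ∃ r : ℝ, 0 < r ∧ r < δ ∧ 2 * r < 1 / C := by
    refine ⟨min (δ / 2) (1 / C / 4), lt_min (by linarith) (by positivity), ?_, ?_⟩
    · have := min_le_left (δ / 2) (1 / C / 4)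
      linarith
    · have h1 := min_le_right (δ / 2) (1 / C / 4)
      have h2 : (0 : ℝ) < 1 / C := by positivity
      linarith
  have hz := hzone r hr0 hr1
  obtain ⟨T, hT⟩ : ∃ T, T = toMeasurable volume K := ⟨_, rfl⟩
  have hTm : MeasurableSet T := by rw [hT]; exact measurableSet_toMeasurable _ _
  have hKT : K ⊆ T := by rw [hT]; exact subset_toMeasurable _ _
  obtain ⟨B, hB⟩ : ∃ B, B = Metric.closedBall x₀ r := ⟨_, rfl⟩
  have hBm : MeasurableSet B := by rw [hB]; exact Metric.isClosed_closedBall.measurableSet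
  have hBmem : ∀ g ∈ B, |g - x₀| ≤ r := by
    intro g hg
    rw [hB, Metric.mem_closedBall, Real.dist_eq] at hg
    exact hg
  have hTB : ENNReal.ofReal (7 / 4 * r) ≤ volume (T ∩ B) := by
    refine le_trans (le_trans (ENNReal.ofReal_le_ofReal ?_) hz)
      (measure_mono (inter_subset_inter hKT (by rw [hB])))
    linarith
  obtain ⟨δ₁, hδ₁0, hδ₁1, hδ₁2, hδ₁3⟩ : ∃ δ₁ : ℝ, 0 < δ₁ ∧ δ₁ ≤ ε ∧ δ₁ ≤ δ₀ ∧
      δ₁ * (1 + C * M) ≤ r := by
    have hCM : 0 < 1 + C * M := by positivity
    refine ⟨min (min ε δ₀) (r / (1 + C * M)), lt_min (lt_min hε hδ₀) (by positivity),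
      (min_le_left _ _).trans (min_le_left _ _), (min_le_left _ _).trans (min_le_right _ _), ?_⟩
    calc _ ≤ r / (1 + C * M) * (1 + C * M) :=
          mul_le_mul_of_nonneg_right (min_le_right _ _) hCM.le
      _ = r := div_mul_cancel₀ _ hCM.ne'
  -- the set of pairs
  obtain ⟨U, hU⟩ : ∃ U : Set (ℝ × ℝ), U = {z | (z.1 ∈ A ∧ 0 < z.1 ∧ z.1 < δ₁) ∧
      (z.2 ∈ T ∧ z.2 ∈ B) ∧ (z.1 + z.2 ∈ T ∧ z.1 + z.2 ∈ B) ∧ (z.1, V z.2) ∉ N} := ⟨_, rfl⟩
  have hUm : MeasurableSet U := by
    rw [hU]
    refine MeasurableSet.inter ?_ (MeasurableSet.inter ?_ (MeasurableSet.inter ?_ ?_))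
    · exact (measurable_fst hA).inter ((measurable_fst measurableSet_Ioi).inter
        (measurable_fst measurableSet_Iio))
    · exact (measurable_snd hTm).inter (measurable_snd hBm)
    · exact ((measurable_fst.add measurable_snd) hTm).inter
        ((measurable_fst.add measurable_snd) hBm)
    · exact ((measurable_fst.prodMk (hVm.comp measurable_snd)) hN).compl
  have hU0 : (volume.prod volume) U ≠ 0 := by
    intro h0
    rw [Measure.measure_prod_null hUm] at h0
    refine hd δ₁ hδ₁0 ?_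
    refine measure_mono_null (t := {q | ¬ (volume (Prod.mk q ⁻¹' U) = 0) ∨
      ¬ (0 < q → q < δ₀ → volume {w | (q, w) ∈ N} ≤ ENNReal.ofReal (M * q))}) ?_ ?_
    swap
    · exact measure_union_null h0 hNs
    rintro q ⟨hqA, hq0, hq1⟩
    by_contra hcon
    rw [mem_ofPred_eq] at hcon
    push Not at hcon
    obtain ⟨hS, hNq⟩ := hcon
    have hNq' := hNq hq0 (hq1.trans_le hδ₁2)
    -- the bad part
    obtain ⟨Y, hY⟩ : ∃ Y : Set ℝ, Y = {g | (q, V g) ∈ N} := ⟨_, rfl⟩
    have hYm : MeasurableSet Y := by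
      rw [hY]
      exact (measurable_const.prodMk hVm) hN
    have hbad : volume (T ∩ (B ∩ Y)) ≤ ENNReal.ofReal (C * (M * q)) := by
      rw [hT, Measure.measure_toMeasurable_inter_of_sFinite (hBm.inter hYm)]
      refine (pre_le (W := W) hC ?_).trans ?_
      · rintro g ⟨hg1, hg2, -⟩ P ⟨hP1, hP2, -⟩ hgP
        refine hl P hP1 g hg1 ?_ hgP
        have e1 := abs_le.1 (hBmem g hg2)
        have e2 := abs_le.1 (hBmem P hP2)
        linarith
      · rw [ENNReal.ofReal_mul hC.le]
        refine mul_le_mul_of_nonneg_left ?_ zero_le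
        refine le_trans (measure_mono ?_) hNq'
        rintro _ ⟨g, ⟨hg1, -, hg3⟩, rfl⟩
        rw [hY] at hg3
        rw [mem_ofPred_eq, hVW hg1]
        exact hg3
    -- the translate
    obtain ⟨Tq, hTq⟩ : ∃ Tq : Set ℝ, Tq = (fun g => q + g) ⁻¹' (T ∩ B) := ⟨_, rfl⟩
    have hTqm : MeasurableSet Tq := by
      rw [hTq]
      exact (measurable_const.add measurable_id) (hTm.inter hBm)
    have hTqv : volume Tq = volume (T ∩ B) := by
      rw [hTq]
      exact measure_preimage_add volume q (T ∩ B)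
    have hcov : (T ∩ B) ∩ Tq ⊆ (Prod.mk q ⁻¹' U) ∪ (T ∩ (B ∩ Y)) := by
      rintro g ⟨⟨hg1, hg2⟩, hg3⟩
      rw [hTq] at hg3
      by_cases hgY : g ∈ Y
      · exact Or.inr ⟨hg1, hg2, hgY⟩
      · left
        rw [hY] at hgY
        rw [mem_preimage, hU]
        exact ⟨⟨hqA, hq0, hq1⟩, ⟨hg1, hg2⟩, ⟨hg3.1, hg3.2⟩, hgY⟩
    have hinter : volume ((T ∩ B) ∩ Tq) ≤ ENNReal.ofReal (C * (M * q)) := by
      refine (measure_mono hcov).trans ((measure_union_le _ _).trans ?_)
      rw [hS, zero_add]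
      exact hbad
    have hunion : volume ((T ∩ B) ∪ Tq) ≤ ENNReal.ofReal (2 * r + q) := by
      have hs : (T ∩ B) ∪ Tq ⊆ Icc (x₀ - r - q) (x₀ + r) := by
        rintro g (⟨-, hg⟩ | hg)
        · have := abs_le.1 (hBmem g hg)
          constructor <;> linarith
        · rw [hTq] at hg
          have := abs_le.1 (hBmem (q + g) hg.2)
          constructor <;> linarith
      refine (measure_mono hs).trans ?_
      rw [Real.volume_Icc]
      refine ENNReal.ofReal_le_ofReal (by linarith)
    have hsum := measure_union_add_inter (μ := (volume : Measure ℝ)) (T ∩ B) hTqm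
    rw [hTqv] at hsum
    have h1 : ENNReal.ofReal (7 / 4 * r) + ENNReal.ofReal (7 / 4 * r) ≤
        ENNReal.ofReal (2 * r + q) + ENNReal.ofReal (C * (M * q)) := by
      refine (add_le_add hTB hTB).trans ?_
      rw [← hsum]
      exact add_le_add hunion hinter
    have hCMq : 0 ≤ C * (M * q) := by positivity
    rw [← ENNReal.ofReal_add (by positivity) (by positivity),
      ← ENNReal.ofReal_add (by positivity) hCMq,
      ENNReal.ofReal_le_ofReal_iff (by positivity)] at h1
    have h2 : q * (1 + C * M) ≤ δ₁ * (1 + C * M) :=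
      mul_le_mul_of_nonneg_right hq1.le (by positivity)
    have h3 : q * (1 + C * M) = q + C * (M * q) := by ring
    linarith
  -- the pairs in the other coordinates
  obtain ⟨E, hE⟩ : ∃ E : Set (ℝ × ℝ), E = {z | (z.1 - z.2, z.2) ∈ U} := ⟨_, rfl⟩
  have hEm : MeasurableSet E := by
    rw [hE]
    exact ((measurable_fst.sub measurable_snd).prodMk measurable_snd) hUm
  have hE0 : (volume.prod volume) E ≠ 0 := by
    have hmp : MeasurePreserving (fun z : ℝ × ℝ => (z.1 + z.2, z.2))
        ((volume : Measure ℝ).prod volume) (volume.prod volume) :=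
      measurePreserving_add_prod volume volume
    rw [← hmp.measure_preimage hEm.nullMeasurableSet]
    have : (fun z : ℝ × ℝ => (z.1 + z.2, z.2)) ⁻¹' E = U := by
      ext z
      rw [mem_preimage, hE, mem_ofPred_eq]
      simp only [add_sub_cancel_right]
    rw [this]
    exact hU0
  obtain ⟨P, hP, g, hg, hPg⟩ := pair_hull (s := K) hEm hE0 (fun z hz => by
    rw [hE, mem_ofPred_eq, hU] at hz
    obtain ⟨-, h2, h3, -⟩ := hz
    simp only [sub_add_cancel] at h3
    rw [← hT]
    exact ⟨h3.1, h2.1⟩)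
  rw [hE, mem_ofPred_eq, hU] at hPg
  obtain ⟨⟨h1, h2, h3⟩, -, -, h4⟩ := hPg
  refine ⟨P, hP, g, hg, ?_, ?_, h1, ?_⟩
  · simp only at h2
    linarith
  · simp only at h3
    linarith
  · rw [hVW hg]
    exact h4

end Pool.Sel51
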