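import Pool.Agent.H41.S6H.Rc
import Pool.Agent.H62.S6.Ord

/-!
# Closed planes of directions: normal forms, constants, and the negative export
-/

set_option autoImplicit false

namespace Pool.S6C

open Finset Real
open Pool.Agent.H49.Ent Pool.Agent.H32.Dense Pool.STK Pool.KA Pool.KSAT Pool.K2S Pool.PB Pool.KS6

section frames

variable {J : ℕ} {F : Fam 3 J} {A : F.Ω → Prop} {i₀ iu iN : Fin 3} {He w r : ℕ}
  {Bs Bc C : ℝ} {e n : (Fin 3 → ℤ) × (ℕ × F.ζ) → Fin 3 → ℝ}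
  {sy : (Fin 3 → ℤ) × (ℕ × F.ζ) → ℝ} {s c : F.Ω → ℝ}

theorem fn_swp {i₀ iu iN : Fin 3} {c s : ℝ} (hs : s ≠ 0) (x : Fin 3 → ℝ) :
    fn i₀ iN iu (c / s) (1 / s) x = 1 / s * fn i₀ iu iN c s x := by
  unfold fn
  field_simp
  ring

/-- A bound for the coefficient `c`. -/
theorem RcF.cle (h : RcF F A i₀ iu iN He w r Bs Bc C e n sy s c) {ω : F.Ω} (hω : A ω) :
    |c ω| ≤ C / 2 ^ r + 3 / 2 * |s ω| + 3 / 2 := by
  have h1 := h.dir ω hω
  have h2 := h.be ω hω iu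
  have h3 := h.be ω hω iN
  have e1 : c ω = fn i₀ iu iN (c ω) (s ω) (e (Fam.pt F ω)) - s ω * e (Fam.pt F ω) iu -
      e (Fam.pt F ω) iN := by
    unfold fn
    rw [h.e0]
    ring
  have t1 := abs_sub (fn i₀ iu iN (c ω) (s ω) (e (Fam.pt F ω)) - s ω * e (Fam.pt F ω) iu)
    (e (Fam.pt F ω) iN)
  have t2 := abs_sub (fn i₀ iu iN (c ω) (s ω) (e (Fam.pt F ω))) (s ω * e (Fam.pt F ω) iu)
  rw [← e1] at t1
  have t3 : |s ω * e (Fam.pt F ω) iu| ≤ 3 / 2 * |s ω| := by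
    rw [abs_mul, mul_comm]
    exact mul_le_mul_of_nonneg_right h2 (abs_nonneg _)
  linarith only [h1, h3, t1, t2, t3]

/-- The other order of the coordinates. -/
theorem RcF.flip (h : RcF F A i₀ iu iN He w r Bs Bc C e n sy s c) (hC : 0 ≤ C) {m : ℝ}
    (hm0 : 0 < m) (hm1 : m ≤ 1) (hm : ∀ ω, A ω → m ≤ |s ω|) :
    RcF F A i₀ iN iu He w r (1 / m) (Bc / m) (C * (2 / m ^ 2)) e n
      (fun v => if m / 2 ≤ |sy v| then 1 / sy v else 0) (fun ω => 1 / s ω)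
      (fun ω => c ω / s ω) := by
  have hm2 : 1 ≤ 1 / m := by
    rw [le_div_iff₀ hm0]
    linarith only [hm1]
  have hm3 : 1 / m ≤ 2 / m ^ 2 := by
    rw [div_le_div_iff₀ hm0 (by positivity)]
    nlinarith only [hm0, hm1]
  have hCC : C ≤ C * (2 / m ^ 2) := le_mul_of_one_le_right hC (hm2.trans hm3)
  have key : ∀ ω, A ω → s ω ≠ 0 ∧ |1 / s ω| ≤ 1 / m := by
    intro ω hω
    have h1 := hm ω hω
    have h2 : 0 < |s ω| := lt_of_lt_of_le hm0 h1
    refine ⟨abs_pos.1 h2, ?_⟩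
    rw [abs_div, abs_one]
    exact one_div_le_one_div_of_le hm0 h1
  refine ⟨h.e0, h.n0, h.be, fun ω hω j => (h.on ω hω j).trans
    (div_le_div_of_nonneg_right hCC (by positivity)), fun ω hω => (key ω hω).2, fun ω hω => ?_,
    fun ω hω => ?_, fun ω hω => ?_, fun ω hω => ?_, ?_⟩
  · have h1 := h.bc ω hω
    have h2 := hm ω hω
    have h3 : 0 ≤ Bc := (abs_nonneg _).trans h1
    beta_reduce
    rw [abs_div]
    exact div_le_div₀ h3 h1 hm0 h2
  · obtain ⟨k1, k2⟩ := key ω hω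
    have h1 := h.near ω hω
    have h2 := hm ω hω
    have e1 : 10 * (C * (2 / m ^ 2)) / 2 ^ (r - He) = 2 / m ^ 2 * (10 * C / 2 ^ (r - He)) := by
      ring
    beta_reduce
    rw [e1]
    split_ifs with hy
    · have hy0 : 0 < |sy (Fam.pt F ω)| := lt_of_lt_of_le (by linarith only [hm0]) hy
      have hy1 : sy (Fam.pt F ω) ≠ 0 := abs_pos.1 hy0
      have e2 : 1 / s ω - 1 / sy (Fam.pt F ω) =
          -(1 / (s ω * sy (Fam.pt F ω)) * (s ω - sy (Fam.pt F ω))) := by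
        field_simp
        ring
      have e3 : |1 / (s ω * sy (Fam.pt F ω))| ≤ 2 / m ^ 2 := by
        rw [abs_div, abs_one, abs_mul, div_le_div_iff₀ (by positivity) (by positivity)]
        have : m * (m / 2) ≤ |s ω| * |sy (Fam.pt F ω)| :=
          mul_le_mul h2 hy (by linarith only [hm0]) (abs_nonneg _)
        nlinarith only [this]
      rw [e2, abs_neg, abs_mul]
      exact mul_le_mul e3 h1 (abs_nonneg _) (by positivity)
    · push Not at hy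
      rw [sub_zero]
      have h3 := abs_sub_abs_le_abs_sub (s ω) (sy (Fam.pt F ω))
      have h4 : m / 2 ≤ 10 * C / 2 ^ (r - He) := by linarith only [h1, h2, hy, h3]
      refine k2.trans ?_
      calc 1 / m = 2 / m ^ 2 * (m / 2) := by field_simp
        _ ≤ 2 / m ^ 2 * (10 * C / 2 ^ (r - He)) :=
          mul_le_mul_of_nonneg_left h4 (by positivity)
  · obtain ⟨k1, k2⟩ := key ω hω
    have h1 := h.dir ω hω
    beta_reduce
    rw [fn_swp k1, abs_mul]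
    calc |1 / s ω| * |fn i₀ iu iN (c ω) (s ω) (e (Fam.pt F ω))| ≤ 1 / m * (C / 2 ^ r) :=
          mul_le_mul k2 h1 (abs_nonneg _) (by positivity)
      _ ≤ 2 / m ^ 2 * (C / 2 ^ r) := mul_le_mul_of_nonneg_right hm3 (by positivity)
      _ = C * (2 / m ^ 2) / 2 ^ r := by ring
  · obtain ⟨k1, k2⟩ := key ω hω
    have h1 := h.vel ω hω
    beta_reduce
    rw [fn_swp k1, fn_swp k1, ← mul_sub, abs_mul]
    calc |1 / s ω| * |fn i₀ iu iN (c ω) (s ω) (F.d ω) -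
            fn i₀ iu iN (c ω) (s ω) (n (Fam.pt F ω))| ≤ 1 / m * (C / 2 ^ r) :=
          mul_le_mul k2 h1 (abs_nonneg _) (by positivity)
      _ ≤ 2 / m ^ 2 * (C / 2 ^ r) := mul_le_mul_of_nonneg_right hm3 (by positivity)
      _ = C * (2 / m ^ 2) / 2 ^ r := by ring
  · obtain ⟨ψ, hψ⟩ := h.slm
    refine ⟨fun v => (1 / (ψ v).1, (ψ v).2 / (ψ v).1), fun ω => ?_⟩
    beta_reduce
    rw [← hψ ω]

/-- Larger constants. -/
theorem RcF.big (h : RcF F A i₀ iu iN He w r Bs Bc C e n sy s c) {Bs' Bc' C' : ℝ} (h1 : Bs ≤ Bs')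
    (h2 : ∀ ω, A ω → |c ω| ≤ Bc') (h3 : C ≤ C') :
    RcF F A i₀ iu iN He w r Bs' Bc' C' e n sy s c :=
  ⟨h.e0, h.n0, h.be, fun ω hω j => (h.on ω hω j).trans
    (div_le_div_of_nonneg_right h3 (by positivity)), fun ω hω => (h.bs ω hω).trans h1, h2,
    fun ω hω => (h.near ω hω).trans
      (div_le_div_of_nonneg_right (by linarith) (by positivity)),
    fun ω hω => (h.dir ω hω).trans (div_le_div_of_nonneg_right h3 (by positivity)),
    fun ω hω => (h.vel ω hω).trans (div_le_div_of_nonneg_right h3 (by positivity)), h.slm⟩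

/-- **Normalisation**, on a part of the event. -/
theorem RcF.norm (h : RcF F A i₀ iu iN He w r Bs Bc C e n sy s c) (hC : 0 ≤ C)
    (hr : 4 * C ≤ 2 ^ r) :
    ∃ B : F.Ω → Prop, Sub B A ∧ Pe F.p A ≤ 2 * Pe F.p B ∧
      (RcF F B i₀ iu iN He w r 1 4 (2 * C) e n sy s c ∨
        ∃ (sy' : (Fin 3 → ℤ) × (ℕ × F.ζ) → ℝ) (s' c' : F.Ω → ℝ),
          RcF F B i₀ iN iu He w r 1 4 (2 * C) e n sy' s' c') := by
  have h2r : (0 : ℝ) < 2 ^ r := by positivity
  have hC4 : C / 2 ^ r ≤ 1 / 4 := by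
    rw [div_le_div_iff₀ h2r (by norm_num)]
    linarith only [hr]
  have hcase := Pool.S6F.Pe_cases F.p A (fun ω => |s ω| ≤ 1)
  rcases le_total (Pe F.p (fun ω => A ω ∧ ¬ |s ω| ≤ 1)) (Pe F.p (fun ω => A ω ∧ |s ω| ≤ 1))
    with hle | hle
  · refine ⟨fun ω => A ω ∧ |s ω| ≤ 1, fun ω hω => hω.1, by linarith only [hcase, hle], Or.inl ?_⟩
    have h1 := h.sub (A' := fun ω => A ω ∧ |s ω| ≤ 1) (fun ω hω => hω.1)
    have h2 : RcF F (fun ω => A ω ∧ |s ω| ≤ 1) i₀ iu iN He w r 1 Bc C e n sy s c :=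
      ⟨h1.e0, h1.n0, h1.be, h1.on, fun ω hω => hω.2, h1.bc, h1.near, h1.dir, h1.vel, h1.slm⟩
    refine h2.big le_rfl (fun ω hω => ?_) (by linarith only [hC])
    have := h1.cle hω
    have h3 := hω.2
    linarith only [hC4, hω, this]
  · refine ⟨fun ω => A ω ∧ ¬ |s ω| ≤ 1, fun ω hω => hω.1, by linarith only [hcase, hle], Or.inr ?_⟩
    have h1 := h.sub (A' := fun ω => A ω ∧ ¬ |s ω| ≤ 1) (fun ω hω => hω.1)
    have h2 := h1.flip hC one_pos le_rfl (fun ω hω => (not_le.1 hω.2).le)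
    refine ⟨_, _, _, h2.big (by norm_num) (fun ω hω => ?_) (by norm_num; linarith only)⟩
    have h3 := h2.cle hω
    have h4 := h2.bs ω hω
    beta_reduce at h3 h4 ⊢
    have h5 : C * (2 / 1 ^ 2) / 2 ^ r = 2 * (C / 2 ^ r) := by ring
    rw [h5] at h3
    norm_num at h4
    have h6 : |1 / s ω| ≤ 1 := by
      rw [one_div, abs_inv]
      exact h4
    linarith only [hC4, h3, h6]

/-- **Constants**: normalised frames have constant `1`, for slightly smaller precisions. -/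
theorem RcF.cst (h : RcF F A i₀ iu iN He w r 1 4 C e n sy s c) {k He' r' : ℕ} (_hC : 0 ≤ C)
    (hCk : C ≤ 2 ^ k) (h1 : He' + k ≤ He) (h2 : r' + k ≤ r)
    (h3 : r' - He' + k ≤ r - He ∨ r' ≤ He') :
    ∃ sy' : (Fin 3 → ℤ) × (ℕ × F.ζ) → ℝ, RcF F A i₀ iu iN He' w r' 1 4 1 e n sy' s c := by
  have key : ∀ a b : ℕ, a + k ≤ b → C / 2 ^ b ≤ 1 / 2 ^ a := by
    intro a b hab
    have p1 : (0 : ℝ) < 2 ^ a := by positivity
    have p2 : (0 : ℝ) < 2 ^ b := by positivity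
    rw [div_le_div_iff₀ p2 p1, one_mul]
    calc C * 2 ^ a ≤ 2 ^ k * 2 ^ a := mul_le_mul_of_nonneg_right hCk p1.le
      _ = 2 ^ (a + k) := by rw [pow_add, mul_comm]
      _ ≤ 2 ^ b := pow_le_pow_right₀ (by norm_num) hab
  refine ⟨fun v => max (-1) (min 1 (sy v)), h.e0, h.n0, h.be,
    fun ω hω j => (h.on ω hω j).trans (key _ _ h1), h.bs, h.bc, fun ω hω => ?_,
    fun ω hω => (h.dir ω hω).trans (key _ _ h2), fun ω hω => (h.vel ω hω).trans (key _ _ h2),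
    h.slm⟩
  have hs := abs_le.1 (h.bs ω hω)
  beta_reduce
  have c1 : |s ω - max (-1) (min 1 (sy (Fam.pt F ω)))| ≤ |s ω - sy (Fam.pt F ω)| := by
    rcases le_total (sy (Fam.pt F ω)) (-1) with g | g
    · rw [min_eq_right (by linarith only [g]), max_eq_left g, abs_of_nonneg (by linarith only [hs, hs.1]),
        abs_of_nonneg (by linarith only [hs, g, hs.1])]
      linarith only [g]
    · rcases le_total (sy (Fam.pt F ω)) 1 with g' | g'
      · rw [min_eq_right g', max_eq_right g]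
      · rw [min_eq_left g', max_eq_right (by norm_num), abs_of_nonpos (by linarith only [hs, hs.2]),
          abs_of_nonpos (by linarith only [hs, g', hs.2])]
        linarith only [g']
  have c2 : |s ω - max (-1) (min 1 (sy (Fam.pt F ω)))| ≤ 2 := by
    have g1 : -1 ≤ max (-1) (min 1 (sy (Fam.pt F ω))) := le_max_left _ _
    have g2 : max (-1) (min 1 (sy (Fam.pt F ω))) ≤ 1 := max_le (by norm_num) (min_le_left _ _)
    rw [abs_le]
    constructor <;> linarith [hs.1, hs.2]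
  rcases h3 with h3 | h3
  · refine c1.trans ((h.near ω hω).trans ?_)
    have g := key _ _ h3
    have e1 : 10 * C / 2 ^ (r - He) = 10 * (C / 2 ^ (r - He)) := by ring
    have e2 : (10 : ℝ) * 1 / 2 ^ (r' - He') = 10 * (1 / 2 ^ (r' - He')) := by ring
    rw [e1, e2]
    linarith only [g]
  · have e1 : r' - He' = 0 := by omega
    rw [e1]
    refine c2.trans (by norm_num)

end frames

/-! ### The negative export -/

/-- **(N)** Above the number `rc w` there are no closed planes of directions, on large parts of the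
events of the class. -/
theorem rc_neg {S : PCl 3} {i₀ : Fin 3} {pe : ℝ} {rc : ℚ → ℝ} (hN : RcN S i₀ pe rc)
    (hpe0 : 0 ≤ pe) {w : ℚ} {pe' x C Bs Bc : ℝ} (h1 : pe < pe') (h2 : rc w + (pe' - pe) < x)
    (h0 : 0 ≤ rc w) (h3 : rc w < 1) (hC : 0 ≤ C) :
    ∃ τ > 0, ∃ J₁ : ℕ, ∀ J ≥ J₁, ∀ (F : Fam 3 J) (A G : F.Ω → Prop), S.St τ J F A → Sub G A →
      Real.exp (-(τ * J)) * Pe F.p A ≤ Pe F.p G →
      ∀ iu iN : Fin 3, (∀ j : Fin 3, j = i₀ ∨ j = iu ∨ j = iN) →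
      ∀ (e n : (Fin 3 → ℤ) × (ℕ × F.ζ) → Fin 3 → ℝ) (sy : (Fin 3 → ℤ) × (ℕ × F.ζ) → ℝ)
        (s c : F.Ω → ℝ),
        ¬ RcF F G i₀ iu iN ⌊pe' * J⌋₊ ⌊(w : ℝ) * J⌋₊ ⌊x * J⌋₊ Bs Bc C e n sy s c := by
  obtain ⟨η, hη⟩ : ∃ η, η = min (min ((x - (rc w + (pe' - pe))) / 4) ((1 - rc w) / 2))
    ((pe' - pe) / 2) := ⟨_, rfl⟩
  have hη0 : 0 < η := by
    rw [hη]
    exact lt_min (lt_min (by linarith only [h2]) (by linarith only [h3])) (by linarith only [h1])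
  have q1 : η ≤ (x - (rc w + (pe' - pe))) / 4 := by
    rw [hη]; exact (min_le_left _ _).trans (min_le_left _ _)
  have q2 : η ≤ (1 - rc w) / 2 := by rw [hη]; exact (min_le_left _ _).trans (min_le_right _ _)
  have q3 : η ≤ (pe' - pe) / 2 := by rw [hη]; exact min_le_right _ _
  have c1 := (hN.num w).2 η hη0
  obtain ⟨c₀, hc₀, J₀, hn⟩ := Clp.neg_base (fun J F => capS.hered (qRc.hered _ _ _) _ _ _) c1
  obtain ⟨J₁, hJ₁⟩ := Pool.S6K.exp_small (κ := c₀ / 4) (C := 2) (by linarith only [hc₀]) (by norm_num)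
  obtain ⟨k, hk⟩ : ∃ k : ℕ, 8 * C + 8 ≤ 2 ^ k := by
    obtain ⟨k, hk⟩ := pow_unbounded_of_one_lt (8 * C + 8) (by norm_num : (1 : ℝ) < 2)
    exact ⟨k, hk.le⟩
  obtain ⟨J₂, hJ₂⟩ := exists_nat_gt ((2 * k + 4) / η)
  refine ⟨c₀ / 4, by linarith only [hc₀], max (max J₀ J₁) J₂, ?_⟩
  intro J hJ F A G hA hG hPG iu iN hi e n sy s c h
  have hJ0' : J₀ ≤ J := ((le_max_left _ _).trans (le_max_left _ _)).trans hJ
  have hJ1' : J₁ ≤ J := ((le_max_right _ _).trans (le_max_left _ _)).trans hJ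
  have hJ2' : (2 * k + 4) / η < J :=
    hJ₂.trans_le (by exact_mod_cast (le_max_right _ _).trans hJ)
  have hJη : 2 * k + 4 < J * η := by rwa [div_lt_iff₀ hη0] at hJ2'
  have hJ0 : (0 : ℝ) ≤ J := Nat.cast_nonneg J
  have hk0 : (0 : ℝ) ≤ k := Nat.cast_nonneg k
  -- the precisions
  obtain ⟨r, hr⟩ : ∃ r, r = ⌊x * J⌋₊ := ⟨_, rfl⟩
  obtain ⟨He, hHe⟩ : ∃ He, He = ⌊pe' * J⌋₊ := ⟨_, rfl⟩
  obtain ⟨r', hr'⟩ : ∃ r', r' = ⌊(rc w + η) * J⌋₊ := ⟨_, rfl⟩
  obtain ⟨He', hHe'⟩ : ∃ He', He' = ⌊pe * J⌋₊ := ⟨_, rfl⟩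
  rw [← hr, ← hHe] at h
  have f1 : x * J < r + 1 := by rw [hr]; exact Nat.lt_floor_add_one _
  have f2 : (He : ℝ) ≤ pe' * J := by
    rw [hHe]
    exact Nat.floor_le (mul_nonneg (by linarith only [hpe0, hη0, q3]) hJ0)
  have f2' : pe' * J < He + 1 := by rw [hHe]; exact Nat.lt_floor_add_one _
  have f3 : (r' : ℝ) ≤ (rc w + η) * J := by
    rw [hr']
    exact Nat.floor_le (mul_nonneg (by linarith only [h0, hη0]) hJ0)
  have f4 : (He' : ℝ) ≤ pe * J := by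
    rw [hHe']
    exact Nat.floor_le (mul_nonneg hpe0 hJ0)
  have f4' : pe * J < He' + 1 := by rw [hHe']; exact Nat.lt_floor_add_one _
  have m1 : 4 * η * J ≤ (x - (rc w + (pe' - pe))) * J :=
    mul_le_mul_of_nonneg_right (by linarith only [q1]) hJ0
  have m3 : 2 * η * J ≤ (pe' - pe) * J := mul_le_mul_of_nonneg_right (by linarith only [q3]) hJ0
  have n1 : He' + (k + 1) ≤ He := by
    have : ((He' + (k + 1) : ℕ) : ℝ) < ((He + 1 : ℕ) : ℝ) := by
      push_cast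
      nlinarith only [h0, hη0, q2, hJη, f2', f4, m3]
    have : He' + (k + 1) < He + 1 := by exact_mod_cast this
    omega
  have n2 : r' + (k + 1) + He ≤ r + He' := by
    have : ((r' + (k + 1) + He : ℕ) : ℝ) < ((r + He' + 1 : ℕ) : ℝ) := by
      push_cast
      nlinarith only [h0, hη0, q2, hJη, f1, f2, f3, f4', m1]
    have : r' + (k + 1) + He < r + He' + 1 := by exact_mod_cast this
    omega
  have n3 : r' + (k + 1) ≤ r := by omega
  have h4C : 4 * C ≤ 2 ^ r := by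
    have g1 : (2 : ℝ) ^ k ≤ 2 ^ r := pow_le_pow_right₀ (by norm_num) (by omega)
    linarith only [h0, hC, hη0, q2, hk, g1]
  -- the normal form
  obtain ⟨B, hB, hPB, hcase⟩ := h.norm hC h4C
  have hSG := S.res (τ' := c₀ / 4) (by linarith only [hc₀]) hA hG hPG
  have hSB : S.St c₀ J F B := by
    have h4 : Real.exp (-(c₀ / 4 * J)) * Pe F.p G ≤ Pe F.p B := by
      have h5 := hJ₁ J hJ1'
      have h6 := mul_le_mul_of_nonneg_right h5 (Pe_nonneg F.isLaw G)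
      linarith only [hPB, h6]
    exact S.mono (by linarith only [hc₀]) (S.res (τ' := c₀ / 4) (by linarith only [hc₀]) hSG hB h4)
  refine hn J hJ0' F B hSB (Or.inr ⟨by linarith only [hη0, q2], ?_⟩)
  have h2k : 2 * C ≤ 2 ^ (k + 1) := by
    rw [pow_succ]
    have : (0 : ℝ) < 2 ^ k := by positivity
    linarith only [h0, hC, hη0, q2, hk]
  have n4 : r' - He' + (k + 1) ≤ r - He ∨ r' ≤ He' := by omega
  rcases hcase with hc | ⟨sy', s', c', hc⟩
  · obtain ⟨sy₁, hc1⟩ := hc.cst (by linarith only [hC]) h2k n1 n3 n4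
    rw [hHe', hr'] at hc1
    exact ⟨iu, iN, hi, e, n, sy₁, s, c, hc1⟩
  · obtain ⟨sy₁, hc1⟩ := hc.cst (by linarith only [hC]) h2k n1 n3 n4
    rw [hHe', hr'] at hc1
    refine ⟨iN, iu, fun j => ?_, e, n, sy₁, s', c', hc1⟩
    rcases hi j with h | h | h
    · exact Or.inl h
    · exact Or.inr (Or.inr h)
    · exact Or.inr (Or.inl h)

/-- **Lower bound for the number**: closed planes of directions on events of small cost. -/
theorem rc_att {S : PCl 3} (hS : S.Ne) {i₀ : Fin 3} {pe : ℝ} {rc : ℚ → ℝ} (hN : RcN S i₀ pe rc)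
    (hpe0 : 0 ≤ pe) {w : ℚ} {pe' x C Bs Bc : ℝ} (h1 : pe < pe') (hx : x - (pe' - pe) ≤ 1)
    (hC : 0 ≤ C)
    (h : ∀ δ > 0, Clp S (fun J F A => ∃ G : F.Ω → Prop, Sub G A ∧
      Real.exp (-(δ * J)) * Pe F.p A ≤ Pe F.p G ∧
      ∃ iu iN : Fin 3, (∀ j : Fin 3, j = i₀ ∨ j = iu ∨ j = iN) ∧
      ∃ (e n : (Fin 3 → ℤ) × (ℕ × F.ζ) → Fin 3 → ℝ) (sy : (Fin 3 → ℤ) × (ℕ × F.ζ) → ℝ)
        (s c : F.Ω → ℝ),
        RcF F G i₀ iu iN ⌊pe' * J⌋₊ ⌊(w : ℝ) * J⌋₊ ⌊x * J⌋₊ Bs Bc C e n sy s c)) :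
    x - (pe' - pe) ≤ rc w := by
  by_contra hcon
  push Not at hcon
  obtain ⟨τ, hτ, J₁, hn⟩ := rc_neg (Bs := Bs) (Bc := Bc) hN hpe0 h1
    (by linarith : rc w + (pe' - pe) < x) (hN.nonneg hS w) (by linarith only [hx, hcon]) hC
  obtain ⟨J, hJ, F, A, hA, G, hG, hP, iu, iN, hi, e, n, sy, s, c, hr⟩ :=
    (h τ hτ).real hS hτ J₁
  exact hn J hJ F A G hA hG hP iu iN hi e n sy s c hr

end Pool.S6C
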