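import Pool.Agent.H41.S6H.Rc2

/-!
# Closed planes of directions and planks: comparison of the normals
-/

set_option autoImplicit false

namespace Pool.S6C

open Finset Real
open Pool.Agent.H49.Ent Pool.Agent.H32.Dense Pool.STK Pool.KA Pool.KSAT Pool.K2S Pool.PB Pool.KS6
  Pool.S6F

/-- The deviation of a velocity from the line of its fan, in the direction of the normal of another
line through the same point. -/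
theorem RcF.dev {J : ℕ} {F : Fam 3 J} {A : F.Ω → Prop} {i₀ iu iN : Fin 3} {He w r : ℕ}
    {Bs Bc C : ℝ} {e n : (Fin 3 → ℤ) × (ℕ × F.ζ) → Fin 3 → ℝ}
    {sy : (Fin 3 → ℤ) × (ℕ × F.ζ) → ℝ} {s c : F.Ω → ℝ}
    (h : RcF F A i₀ iu iN He w r Bs Bc C e n sy s c) (hC : 1 ≤ C) {ω ω' : F.Ω} (hω : A ω)
    (hω' : A ω') (hpt : Fam.pt F ω' = Fam.pt F ω) :
    |(F.d ω' iN - e (Fam.pt F ω) iN * F.d ω' i₀ - n (Fam.pt F ω) iN) +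
      s ω * (F.d ω' iu - e (Fam.pt F ω) iu * F.d ω' i₀ - n (Fam.pt F ω) iu)| ≤
        22 * C ^ 2 / 2 ^ r := by
  have h1 := h.dir ω' hω'
  have h2 := h.vel ω' hω'
  have h3 := h.near ω' hω'
  have h4 := h.near ω hω
  have h5 := h.on ω' hω' iu
  have h6 := F.dir ω' i₀
  rw [hpt] at h1 h2 h3 h5
  have e1 : (F.d ω' iN - e (Fam.pt F ω) iN * F.d ω' i₀ - n (Fam.pt F ω) iN) +
      s ω * (F.d ω' iu - e (Fam.pt F ω) iu * F.d ω' i₀ - n (Fam.pt F ω) iu) =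
      (fn i₀ iu iN (c ω') (s ω') (F.d ω') - fn i₀ iu iN (c ω') (s ω') (n (Fam.pt F ω))) -
        fn i₀ iu iN (c ω') (s ω') (e (Fam.pt F ω)) * F.d ω' i₀ +
        ((s ω - sy (Fam.pt F ω)) - (s ω' - sy (Fam.pt F ω))) *
          (F.d ω' iu - e (Fam.pt F ω) iu * F.d ω' i₀ - n (Fam.pt F ω) iu) := by
    unfold fn
    rw [h.e0, h.n0]
    ring
  rw [e1]
  have t1 := abs_add_le ((fn i₀ iu iN (c ω') (s ω') (F.d ω') -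
      fn i₀ iu iN (c ω') (s ω') (n (Fam.pt F ω))) -
        fn i₀ iu iN (c ω') (s ω') (e (Fam.pt F ω)) * F.d ω' i₀)
    (((s ω - sy (Fam.pt F ω)) - (s ω' - sy (Fam.pt F ω))) *
          (F.d ω' iu - e (Fam.pt F ω) iu * F.d ω' i₀ - n (Fam.pt F ω) iu))
  have t2 := abs_sub (fn i₀ iu iN (c ω') (s ω') (F.d ω') -
      fn i₀ iu iN (c ω') (s ω') (n (Fam.pt F ω)))
    (fn i₀ iu iN (c ω') (s ω') (e (Fam.pt F ω)) * F.d ω' i₀)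
  have hC0 : 0 < C := by linarith
  have t3 : |fn i₀ iu iN (c ω') (s ω') (e (Fam.pt F ω)) * F.d ω' i₀| ≤ C / 2 ^ r := by
    rw [abs_mul]
    calc _ ≤ C / 2 ^ r * 1 := mul_le_mul h1 h6 (abs_nonneg _) (by positivity)
      _ = C / 2 ^ r := mul_one _
  have t4 : |(s ω - sy (Fam.pt F ω)) - (s ω' - sy (Fam.pt F ω))| ≤
      20 * C / 2 ^ (r - He) := by
    refine (abs_sub _ _).trans ((add_le_add h4 h3).trans (le_of_eq ?_))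
    ring
  have t5 : |((s ω - sy (Fam.pt F ω)) - (s ω' - sy (Fam.pt F ω))) *
          (F.d ω' iu - e (Fam.pt F ω) iu * F.d ω' i₀ - n (Fam.pt F ω) iu)| ≤
      20 * C ^ 2 / 2 ^ r := by
    rw [abs_mul]
    calc _ ≤ 20 * C / 2 ^ (r - He) * (C / 2 ^ He) :=
          mul_le_mul t4 h5 (abs_nonneg _) (by positivity)
      _ = 20 * C ^ 2 / 2 ^ (r - He + He) := by
          rw [pow_add]
          field_simp
      _ ≤ 20 * C ^ 2 / 2 ^ r := by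
          refine div_le_div_of_nonneg_left (by positivity) (by positivity) ?_
          exact pow_le_pow_right₀ (by norm_num) (by omega)
  have t6 : C / 2 ^ r ≤ C ^ 2 / 2 ^ r :=
    div_le_div_of_nonneg_right (by nlinarith) (by positivity)
  have e2 : 22 * C ^ 2 / 2 ^ r = C ^ 2 / 2 ^ r + C ^ 2 / 2 ^ r + 20 * C ^ 2 / 2 ^ r := by ring
  rw [e2]
  linarith

/-- The normal form of a line contains the direction of every pair of velocities at a point of the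
line. -/
theorem RcF.pair {J : ℕ} {F : Fam 3 J} {A : F.Ω → Prop} {i₀ iu iN : Fin 3} {He w r q : ℕ}
    {Bs Bc C : ℝ} {e n : (Fin 3 → ℤ) × (ℕ × F.ζ) → Fin 3 → ℝ}
    {sy : (Fin 3 → ℤ) × (ℕ × F.ζ) → ℝ} {s c : F.Ω → ℝ}
    (h : RcF F A i₀ iu iN He w r Bs Bc C e n sy s c) (hC : 1 ≤ C) {ω ωa ωb : F.Ω} (hω : A ω)
    (ha : A ωa) (hb : A ωb) (pa : Fam.pt F ωa = Fam.pt F ω) (pb : Fam.pt F ωb = Fam.pt F ω)
    (hab : 1 / 2 ^ (q + 1) ≤ |F.d ωa i₀ - F.d ωb i₀|) :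
    |c ω + s ω * ((F.d ωa iu - F.d ωb iu) / (F.d ωa i₀ - F.d ωb i₀)) +
      (F.d ωa iN - F.d ωb iN) / (F.d ωa i₀ - F.d ωb i₀)| ≤ 8 * 2 ^ q * (12 * C ^ 2 / 2 ^ r) := by
  have hq0 : (0 : ℝ) < 1 / 2 ^ (q + 1) := by positivity
  have hd : 0 < |F.d ωa i₀ - F.d ωb i₀| := lt_of_lt_of_le hq0 hab
  have hd0 : F.d ωa i₀ - F.d ωb i₀ ≠ 0 := abs_pos.mp hd
  have h1 := h.dev hC hω ha pa
  have h2 := h.dev hC hω hb pb
  have h3 := h.dir ω hω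
  have e1 : c ω + s ω * ((F.d ωa iu - F.d ωb iu) / (F.d ωa i₀ - F.d ωb i₀)) +
      (F.d ωa iN - F.d ωb iN) / (F.d ωa i₀ - F.d ωb i₀) =
      fn i₀ iu iN (c ω) (s ω) (e (Fam.pt F ω)) +
      (((F.d ωa iN - e (Fam.pt F ω) iN * F.d ωa i₀ - n (Fam.pt F ω) iN) +
          s ω * (F.d ωa iu - e (Fam.pt F ω) iu * F.d ωa i₀ - n (Fam.pt F ω) iu)) -
        ((F.d ωb iN - e (Fam.pt F ω) iN * F.d ωb i₀ - n (Fam.pt F ω) iN) +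
          s ω * (F.d ωb iu - e (Fam.pt F ω) iu * F.d ωb i₀ - n (Fam.pt F ω) iu))) /
        (F.d ωa i₀ - F.d ωb i₀) := by
    unfold fn
    rw [h.e0]
    field_simp
    ring
  rw [e1]
  have t1 := abs_sub ((F.d ωa iN - e (Fam.pt F ω) iN * F.d ωa i₀ - n (Fam.pt F ω) iN) +
          s ω * (F.d ωa iu - e (Fam.pt F ω) iu * F.d ωa i₀ - n (Fam.pt F ω) iu))
    ((F.d ωb iN - e (Fam.pt F ω) iN * F.d ωb i₀ - n (Fam.pt F ω) iN) +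
          s ω * (F.d ωb iu - e (Fam.pt F ω) iu * F.d ωb i₀ - n (Fam.pt F ω) iu))
  refine (abs_add_le _ _).trans ?_
  have hC0 : 0 < C := by linarith
  have hC2 : 0 ≤ C ^ 2 / 2 ^ r := by positivity
  have t2 : |(((F.d ωa iN - e (Fam.pt F ω) iN * F.d ωa i₀ - n (Fam.pt F ω) iN) +
          s ω * (F.d ωa iu - e (Fam.pt F ω) iu * F.d ωa i₀ - n (Fam.pt F ω) iu)) -
        ((F.d ωb iN - e (Fam.pt F ω) iN * F.d ωb i₀ - n (Fam.pt F ω) iN) +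
          s ω * (F.d ωb iu - e (Fam.pt F ω) iu * F.d ωb i₀ - n (Fam.pt F ω) iu))) /
        (F.d ωa i₀ - F.d ωb i₀)| ≤ 88 * 2 ^ q * (C ^ 2 / 2 ^ r) := by
    rw [abs_div, div_le_iff₀ hd]
    have e2 : 88 * 2 ^ q * (C ^ 2 / 2 ^ r) * (1 / 2 ^ (q + 1)) = 44 * (C ^ 2 / 2 ^ r) := by
      rw [pow_succ (2 : ℝ) q]
      field_simp
      ring
    have t4 : 88 * 2 ^ q * (C ^ 2 / 2 ^ r) * (1 / 2 ^ (q + 1)) ≤
        88 * 2 ^ q * (C ^ 2 / 2 ^ r) * |F.d ωa i₀ - F.d ωb i₀| :=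
      mul_le_mul_of_nonneg_left hab (by positivity)
    have e3 : 22 * C ^ 2 / 2 ^ r = 22 * (C ^ 2 / 2 ^ r) := by ring
    rw [e3] at h1 h2
    linarith
  have t6 : C / 2 ^ r ≤ C ^ 2 / 2 ^ r :=
    div_le_div_of_nonneg_right (by nlinarith) (by positivity)
  have hq1 : (1 : ℝ) ≤ 2 ^ q := one_le_pow₀ (by norm_num)
  have t7 : C ^ 2 / 2 ^ r ≤ 2 ^ q * (C ^ 2 / 2 ^ r) := le_mul_of_one_le_left hC2 hq1
  have e4 : 8 * 2 ^ q * (12 * C ^ 2 / 2 ^ r) = 96 * (2 ^ q * (C ^ 2 / 2 ^ r)) := by ring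
  have e5 : 88 * 2 ^ q * (C ^ 2 / 2 ^ r) = 88 * (2 ^ q * (C ^ 2 / 2 ^ r)) := by ring
  rw [e4]
  rw [e5] at t2
  linarith

/-- **Comparison** of a plank with a closed plane of directions, if the directions turn. -/
theorem rc_turn {S : PCl 3} {i₀ : Fin 3} {ρ : Row} (hR : Rw S i₀ 1 ρ) (v₁ : ℚ) (h0 : 0 ≤ v₁)
    (h1 : v₁ ≤ 1) {h : ℝ} (hh : 0 < h) (hr : ρ.rot v₁ + h ≤ 1) :
    ∃ τ > 0, ∃ J₁ : ℕ, ∀ J ≥ J₁, ∀ (F : Fam 3 J) (B₀ G : F.Ω → Prop), Sub G B₀ → S.St τ J F G →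
      ∀ q lp l : ℕ, l = ⌊(ρ.rot v₁ + h) * J⌋₊ → l + q + 5 ≤ lp → Spr F i₀ q B₀ →
      ∀ e n : (Fin 3 → ℤ) × (ℕ × F.ζ) → Fin 3 → ℝ,
      OnL i₀ (1 / 2 ^ lp) (Fam.pt F) F.d B₀ e n →
      ∀ (iu iN iu' iN' : Fin 3) (w w' lam P He r : ℕ) (y : F.Ω → Pln) (Bc C : ℝ)
        (e' n' : (Fin 3 → ℤ) × (ℕ × F.ζ) → Fin 3 → ℝ) (sy : (Fin 3 → ℤ) × (ℕ × F.ζ) → ℝ)
        (s c : F.Ω → ℝ),
      w ≤ ⌊(v₁ : ℝ) * J⌋₊ → w' ≤ ⌊(v₁ : ℝ) * J⌋₊ → 1 ≤ C → Lb3 F B₀ i₀ iu iN w lam P y →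
      (∀ j : Fin 3, j = i₀ ∨ j = iu' ∨ j = iN') →
      RcF F B₀ i₀ iu' iN' He w' r 4 Bc C e' n' sy s c →
      ∃ B : F.Ω → Prop, Sub B G ∧ Pe F.p G ≤ 2 * Pe F.p B ∧ ∀ ω, B ω →
        (iu' = iu ∧ iN' = iN ∧ |s ω - (y ω).s| ≤
          1600 * 2 ^ q * 2 ^ l * (2 ^ w / 2 ^ P + 12 * C ^ 2 / 2 ^ r)) ∨
        (iu' = iN ∧ iN' = iu ∧ |1 - s ω * (y ω).s| ≤
          1600 * 2 ^ q * 2 ^ l * (2 ^ w / 2 ^ P + 12 * C ^ 2 / 2 ^ r)) := by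
  classical
  obtain ⟨τ, hτ, J₁, htn⟩ := turn_part hR v₁ h0 h1 hh hr
  refine ⟨τ, hτ, J₁, ?_⟩
  intro J hJ F B₀ G hG hS q lp l hl hlp hpr e n hL iu iN iu' iN' w w' lam P He r y Bc C e' n' sy
    s c hw hw' hC1 hy hi' hy'
  have i1 : (1 : ℝ) / 2 ^ lp ≤ 1 / 2 ^ l := inv_mono (by omega)
  obtain ⟨B, hB, hPB, htr⟩ := htn J hJ F G hS e n (by
    rw [← hl]
    exact (hL.sub hG).mono i1)
  rw [← hl] at htr
  refine ⟨B, hB, hPB, fun ω hω => ?_⟩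
  have hvJ : ⌊(v₁ : ℝ) * J⌋₊ ≤ J := floor_row_one (by exact_mod_cast h1) J
  obtain ⟨ε, hε⟩ : ∃ ε : ℝ, ε = 8 * 2 ^ q * (2 ^ w / 2 ^ P) := ⟨_, rfl⟩
  obtain ⟨ε', hε'⟩ : ∃ ε' : ℝ, ε' = 8 * 2 ^ q * (12 * C ^ 2 / 2 ^ r) := ⟨_, rfl⟩
  have hl0 : (0 : ℝ) < 1 / 2 ^ (l + 1) := by positivity
  have hκ : 100 * ((ε + ε') / (1 / 2 ^ (l + 1))) =
      1600 * 2 ^ q * 2 ^ l * (2 ^ w / 2 ^ P + 12 * C ^ 2 / 2 ^ r) := by
    rw [hε, hε', pow_succ]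
    field_simp
    ring
  obtain ⟨ω₁, hω₁, hsl, j, hj⟩ := htr ω hω
  have b0 := hG _ (hB _ hω)
  have b1 := hG _ hω₁
  obtain ⟨ωa, ωb, ha, hb, pa, pb, hab⟩ := hpr ω b0
  obtain ⟨ωc, ωd, hc, hd, pc, pd, hcd⟩ := hpr ω₁ b1
  have s1 : slam F w ω₁ = slam F w ω := Pool.S6K.slam_mono hw hvJ hsl
  have s2 : slam F w' ω₁ = slam F w' ω := Pool.S6K.slam_mono hw' hvJ hsl
  have y1 := hy.win b1 b0 s1
  obtain ⟨ψ, hψ⟩ := hy'.slm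
  have y2 : (s ω₁, c ω₁) = (s ω, c ω) := by rw [hψ ω₁, hψ ω, s2]
  have y3 : s ω₁ = s ω := congrArg Prod.fst y2
  have y4 : c ω₁ = c ω := congrArg Prod.snd y2
  have Ia := inc_lam (by norm_num) (Nat.zero_le _) (hy.inc _ ha)
  have Ib := inc_lam (by norm_num) (Nat.zero_le _) (hy.inc _ hb)
  have Ic := inc_lam (by norm_num) (Nat.zero_le _) (hy.inc _ hc)
  have Id := inc_lam (by norm_num) (Nat.zero_le _) (hy.inc _ hd)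
  rw [hy.pt ha b0 pa] at Ia
  rw [hy.pt hb b0 pb] at Ib
  rw [hy.pt hc b1 pc, y1] at Ic
  rw [hy.pt hd b1 pd, y1] at Id
  have La : ∀ j, |F.d ωa j - e (Fam.pt F ω) j * F.d ωa i₀ - n (Fam.pt F ω) j| ≤ 1 / 2 ^ lp := by
    intro j
    have := hL _ ha j
    rwa [pa] at this
  have Lb : ∀ j, |F.d ωb j - e (Fam.pt F ω) j * F.d ωb i₀ - n (Fam.pt F ω) j| ≤ 1 / 2 ^ lp := by
    intro j
    have := hL _ hb j
    rwa [pb] at this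
  have Lc : ∀ j, |F.d ωc j - e (Fam.pt F ω₁) j * F.d ωc i₀ - n (Fam.pt F ω₁) j| ≤
      1 / 2 ^ lp := by
    intro j
    have := hL _ hc j
    rwa [pc] at this
  have Ld : ∀ j, |F.d ωd j - e (Fam.pt F ω₁) j * F.d ωd i₀ - n (Fam.pt F ω₁) j| ≤
      1 / 2 ^ lp := by
    intro j
    have := hL _ hd j
    rwa [pd] at this
  have p1 := pair_fn Ia Ib hab
  have p2 := pair_fn Ic Id hcd
  have p3 := ind_pts hy.hi hlp La Lb Lc Ld hab hcd hj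
  have p4 := hy'.pair hC1 b0 ha hb pa pb hab
  have p5 := hy'.pair hC1 b1 hc hd pc pd hcd
  rw [y3, y4] at p5
  have hs4 := hy'.bs ω b0
  rw [← hε] at p1 p2
  rw [← hε'] at p4 p5
  rw [← hκ]
  rcases ord_cases hy.hi hi' with ⟨u1, u2⟩ | ⟨u1, u2⟩
  · left
    subst u1 u2
    exact ⟨rfl, rfl, ind_alg p1 p2 p4 p5 Ia.s_le hs4 hl0 p3⟩
  · right
    subst u1 u2
    exact ⟨rfl, rfl, ind_alg2 p1 p2 p4 p5 Ia.s_le hs4 hl0 p3⟩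

end Pool.S6C
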