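import Pool.Agent.H41.S6H.Rc3
import Pool.Agent.H72.S6B.Def
import Pool.Agent.H23.S6E.Stmts
import Pool.Agent.H75.S6C.Ufr

/-!
# The frames of a closed plane of directions, from natural labels: one family

`CPl`: straight fans, labels `z j` at the windows `w j` in one order of the coordinates, and a
normal form `(s, c)`, which is a function of the line and of its window, which contains the
directions to precision `kap`, and which agrees with the normals of `z j` to precision `Hc j`.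
-/

set_option autoImplicit false

namespace Pool.S6C

open Finset Real
open Pool.Agent.H49.Ent Pool.Agent.H32.Dense Pool.STK Pool.KA Pool.KSAT Pool.K2S Pool.PB Pool.KS6
  Pool.S6F Pool.S6B

/-- The coordinates `i₀`, `iu`, `iN`. -/
def sg3 (i₀ iu iN : Fin 3) : Fin 3 → Fin 3 := ![i₀, iu, iN]

theorem sg3_bij {i₀ iu iN : Fin 3} (hi : ∀ j : Fin 3, j = i₀ ∨ j = iu ∨ j = iN) :
    Function.Bijective (sg3 i₀ iu iN) := by
  unfold sg3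
  revert i₀ iu iN
  decide

/-- The normal form contains the direction of the fans. -/
theorem rc_near {J : ℕ} {F : Fam 3 J} {A : F.Ω → Prop} {i₀ iu iN : Fin 3} {Pu G q : ℕ}
    {e n : (Fin 3 → ℤ) × (ℕ × F.ζ) → Fin 3 → ℝ} {z : F.Ω → Pln} {s c ε m : ℝ}
    (hL : OnL i₀ (1 / 2 ^ Pu) (Fam.pt F) F.d A e n) (hG : SnG F A i₀ iu iN G e z)
    (hz : ∀ ω ω', A ω → A ω' → Fam.pt F ω = Fam.pt F ω' → z ω = z ω')
    {ω ωa ωb : F.Ω} (hω : A ω)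
    (ha : A ωa) (hb : A ωb) (pa : Fam.pt F ωa = Fam.pt F ω) (pb : Fam.pt F ωb = Fam.pt F ω)
    (hab : 1 / 2 ^ (q + 1) ≤ |F.d ωa i₀ - F.d ωb i₀|)
    (h1 : |c + s * ((F.d ωa iu - F.d ωb iu) / (F.d ωa i₀ - F.d ωb i₀)) +
      (F.d ωa iN - F.d ωb iN) / (F.d ωa i₀ - F.d ωb i₀)| ≤ ε) (hM : |s - (z ω).s| ≤ m) :
    |c + s * e (Fam.pt F ω) iu + e (Fam.pt F ω) iN| ≤
      ε + 4 * 2 ^ q * (1 / 2 ^ G) + m * (4 * 2 ^ q * (1 / 2 ^ Pu)) := by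
  have hq0 : (0 : ℝ) < 1 / 2 ^ (q + 1) := by positivity
  have hd : 0 < |F.d ωa i₀ - F.d ωb i₀| := lt_of_lt_of_le hq0 hab
  have hd0 : F.d ωa i₀ - F.d ωb i₀ ≠ 0 := abs_pos.mp hd
  obtain ⟨b, hb'⟩ := hG
  have La := hL _ ha iu
  have Lb := hL _ hb iu
  rw [pa] at La
  rw [pb] at Lb
  have h2 := pair_slope La Lb hab
  have Ba := hb' _ ha
  have Bb := hb' _ hb
  rw [pa, hz _ _ ha hω pa] at Ba
  rw [pb, hz _ _ hb hω pb] at Bb
  have h3 : |((F.d ωa iN - F.d ωb iN) / (F.d ωa i₀ - F.d ωb i₀) - e (Fam.pt F ω) iN) +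
      (z ω).s * ((F.d ωa iu - F.d ωb iu) / (F.d ωa i₀ - F.d ωb i₀) - e (Fam.pt F ω) iu)| ≤
      4 * 2 ^ q * (1 / 2 ^ G) := by
    have e1 : ((F.d ωa iN - F.d ωb iN) / (F.d ωa i₀ - F.d ωb i₀) - e (Fam.pt F ω) iN) +
      (z ω).s * ((F.d ωa iu - F.d ωb iu) / (F.d ωa i₀ - F.d ωb i₀) - e (Fam.pt F ω) iu) =
      (((F.d ωa iN - e (Fam.pt F ω) iN * F.d ωa i₀) +
        (z ω).s * (F.d ωa iu - e (Fam.pt F ω) iu * F.d ωa i₀) - b (Fam.pt F ω)) -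
      ((F.d ωb iN - e (Fam.pt F ω) iN * F.d ωb i₀) +
        (z ω).s * (F.d ωb iu - e (Fam.pt F ω) iu * F.d ωb i₀) - b (Fam.pt F ω))) /
        (F.d ωa i₀ - F.d ωb i₀) := by
      field_simp
      ring
    rw [e1, abs_div, div_le_iff₀ hd]
    refine (abs_sub _ _).trans ((add_le_add Ba Bb).trans ?_)
    have e2 : (4 : ℝ) * 2 ^ q * (1 / 2 ^ G) * (1 / 2 ^ (q + 1)) = 1 / 2 ^ G + 1 / 2 ^ G := by
      rw [pow_succ]
      field_simp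
      ring
    have t4 : (4 : ℝ) * 2 ^ q * (1 / 2 ^ G) * (1 / 2 ^ (q + 1)) ≤
        4 * 2 ^ q * (1 / 2 ^ G) * |F.d ωa i₀ - F.d ωb i₀| :=
      mul_le_mul_of_nonneg_left hab (by positivity)
    linarith
  have e3 : c + s * e (Fam.pt F ω) iu + e (Fam.pt F ω) iN =
      (c + s * ((F.d ωa iu - F.d ωb iu) / (F.d ωa i₀ - F.d ωb i₀)) +
        (F.d ωa iN - F.d ωb iN) / (F.d ωa i₀ - F.d ωb i₀)) -
      (((F.d ωa iN - F.d ωb iN) / (F.d ωa i₀ - F.d ωb i₀) - e (Fam.pt F ω) iN) +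
      (z ω).s * ((F.d ωa iu - F.d ωb iu) / (F.d ωa i₀ - F.d ωb i₀) - e (Fam.pt F ω) iu)) -
      (s - (z ω).s) *
        ((F.d ωa iu - F.d ωb iu) / (F.d ωa i₀ - F.d ωb i₀) - e (Fam.pt F ω) iu) := by
    ring
  rw [e3]
  have h4 : |(s - (z ω).s) *
        ((F.d ωa iu - F.d ωb iu) / (F.d ωa i₀ - F.d ωb i₀) - e (Fam.pt F ω) iu)| ≤
      m * (4 * 2 ^ q * (1 / 2 ^ Pu)) := by
    rw [abs_mul]
    exact mul_le_mul hM h2 (abs_nonneg _) ((abs_nonneg _).trans hM)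
  exact (abs_sub _ _).trans (add_le_add ((abs_sub _ _).trans (add_le_add h1 h3)) h4)

/-- **Closed planes of directions with labels**, one family. -/
structure CPl {J : ℕ} (F : Fam 3 J) (A : F.Ω → Prop) (i₀ iu iN : Fin 3) (N Pu : ℕ)
    (w V T Hc : ℕ → ℕ) (wl kap HN : ℕ) (e n : (Fin 3 → ℤ) × (ℕ × F.ζ) → Fin 3 → ℝ)
    (nN : (Fin 3 → ℤ) × (ℕ × F.ζ) → ℝ) (z : ℕ → F.Ω → Pln) (s c : F.Ω → ℝ) : Prop where
  hi : ∀ j : Fin 3, j = i₀ ∨ j = iu ∨ j = iN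
  ln : OnL i₀ (1 / 2 ^ Pu) (Fam.pt F) F.d A e n
  eb : ∀ ω, A ω → ∀ j, |e (Fam.pt F ω) j| ≤ 5 / 4
  inc : ∀ j ≤ N, ∀ ω, A ω → Inc i₀ iu iN (w j) (V j) (T j) 2 (z j ω) (F.t ω) (F.x ω) (F.d ω)
  zp : ∀ j ≤ N, ∃ φ : (Fin 3 → ℤ) × (ℕ × F.ζ) → Pln, ∀ ω, A ω → z j ω = φ (ptq F J ω)
  zs : ∀ j ≤ N, ∃ ψ : ((Fin 3 → ℝ) × (Fin 3 → ℝ)) × F.ζ × ℕ → Pln,
    ∀ ω, z j ω = ψ (slam F (w j) ω)
  ze : ∀ j ≤ N, ∀ ω, A ω → |(z j ω).e - e (Fam.pt F ω) iu| ≤ 4 / 2 ^ V j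
  zc : ∀ j ≤ N, ∀ ω, A ω → |(z j ω).c + (z j ω).s * e (Fam.pt F ω) iu + e (Fam.pt F ω) iN| ≤
    2 ^ w j / 2 ^ T j
  on2 : ∀ ω, A ω → |(F.d ω iN - e (Fam.pt F ω) iN * F.d ω i₀ - nN (Fam.pt F ω)) +
    s ω * (F.d ω iu - e (Fam.pt F ω) iu * F.d ω i₀ - n (Fam.pt F ω) iu)| ≤ 20 / 2 ^ HN
  bs : ∀ ω, A ω → |s ω| ≤ 20
  bc : ∀ ω, A ω → |c ω| ≤ 20
  slm : ∃ ψ : ((Fin 3 → ℝ) × (Fin 3 → ℝ)) × F.ζ × ℕ → ℝ × ℝ, ∀ ω, (s ω, c ω) = ψ (slam F wl ω)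
  k1 : ∀ j ≤ N, ∀ ω, A ω → |s ω - (z j ω).s| ≤ 9 / 2 ^ Hc j
  k2 : ∀ ω, A ω → |c ω + s ω * e (Fam.pt F ω) iu + e (Fam.pt F ω) iN| ≤ 1 / 2 ^ kap

/-- Closed planes of directions with labels, as a claim about an event. -/
def RCP {J : ℕ} (i₀ : Fin 3) (N Pu : ℕ) (w V T Hc : ℕ → ℕ) (wl kap HN : ℕ)
    (F : Fam 3 J) (A : F.Ω → Prop) : Prop :=
  ∃ (iu iN : Fin 3) (e n : (Fin 3 → ℤ) × (ℕ × F.ζ) → Fin 3 → ℝ)
    (nN : (Fin 3 → ℤ) × (ℕ × F.ζ) → ℝ) (z : ℕ → F.Ω → Pln) (s c : F.Ω → ℝ),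
    CPl F A i₀ iu iN N Pu w V T Hc wl kap HN e n nN z s c

section lemmas

variable {J : ℕ} {F : Fam 3 J} {A : F.Ω → Prop} {i₀ iu iN : Fin 3} {N Pu : ℕ}
  {w V T Hc : ℕ → ℕ} {wl kap HN : ℕ} {e n : (Fin 3 → ℤ) × (ℕ × F.ζ) → Fin 3 → ℝ}
  {nN : (Fin 3 → ℤ) × (ℕ × F.ζ) → ℝ} {z : ℕ → F.Ω → Pln} {s c : F.Ω → ℝ}

theorem CPl.sub (h : CPl F A i₀ iu iN N Pu w V T Hc wl kap HN e n nN z s c) {B : F.Ω → Prop}
    (hB : Sub B A) : CPl F B i₀ iu iN N Pu w V T Hc wl kap HN e n nN z s c := by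
  refine ⟨h.hi, h.ln.sub hB, fun ω hω => h.eb ω (hB _ hω), fun j hj ω hω => h.inc j hj ω (hB _ hω),
    fun j hj => ?_, h.zs, fun j hj ω hω => h.ze j hj ω (hB _ hω),
    fun j hj ω hω => h.zc j hj ω (hB _ hω), fun ω hω => h.on2 ω (hB _ hω),
    fun ω hω => h.bs ω (hB _ hω), fun ω hω => h.bc ω (hB _ hω), h.slm,
    fun j hj ω hω => h.k1 j hj ω (hB _ hω), fun ω hω => h.k2 ω (hB _ hω)⟩
  obtain ⟨φ, hφ⟩ := h.zp j hj
  exact ⟨φ, fun ω hω => hφ ω (hB _ hω)⟩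

/-- The labels are natural labels. -/
theorem CPl.nl (h : CPl F A i₀ iu iN N Pu w V T Hc wl kap HN e n nN z s c) {j : ℕ} (hj : j ≤ N)
    {V' T' : ℕ} (hV' : V' ≤ V j) (hT' : T' ≤ T j) :
    NL F A (sg3 i₀ iu iN) (w j) V' T' (z j) := by
  refine ⟨fun ω hω => ?_, fun ω ω' hω hω' h3 => ?_, fun ω ω' hω hω' h3 => ?_⟩
  · have g1 := inc_lam (by norm_num) hV' (h.inc j hj ω hω)
    have hp : (2 : ℝ) ^ T' ≤ 2 ^ T j := pow_le_pow_right₀ (by norm_num) hT'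
    exact ⟨g1.e_le, g1.c_le, g1.s_le, g1.pe, g1.pu,
      g1.pn.trans (div_le_div_of_nonneg_left (by norm_num) (by positivity) hp), g1.ve, g1.vu,
      g1.vn.trans (div_le_div_of_nonneg_left (by positivity) (by positivity) hp)⟩
  · obtain ⟨φ', hφ'⟩ := h.zp j hj
    have e' : ptq F J ω = ptq F J ω' := h3
    rw [hφ' ω hω, hφ' ω' hω', e']
  · obtain ⟨ψ, hψ⟩ := h.zs j hj
    rw [hψ ω, hψ ω', h3]

/-- The normal form and the labels. -/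
theorem CPl.clo (h : CPl F A i₀ iu iN N Pu w V T Hc wl kap HN e n nN z s c) {j : ℕ} (hj : j ≤ N)
    {ω : F.Ω} (hω : A ω) : |-s ω - -(z j ω).s| ≤ 9 / 2 ^ Hc j ∧
      |(-c ω - -(z j ω).c) + (-s ω - -(z j ω).s) * (z j ω).e| ≤
        2 ^ w j / 2 ^ T j + 1 / 2 ^ kap + 9 / 2 ^ Hc j * (4 / 2 ^ V j) := by
  have g1 := h.k1 j hj ω hω
  have g2 := h.ze j hj ω hω
  have g3 := h.zc j hj ω hω
  have g4 := h.k2 ω hω
  refine ⟨?_, ?_⟩
  · have e1 : -s ω - -(z j ω).s = -(s ω - (z j ω).s) := by ring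
    rw [e1, abs_neg]
    exact g1
  · have e1 : -c ω - -(z j ω).c + (-s ω - -(z j ω).s) * (z j ω).e =
        ((z j ω).c + (z j ω).s * e (Fam.pt F ω) iu + e (Fam.pt F ω) iN) -
        (c ω + s ω * e (Fam.pt F ω) iu + e (Fam.pt F ω) iN) -
        (s ω - (z j ω).s) * ((z j ω).e - e (Fam.pt F ω) iu) := by ring
    rw [e1]
    refine (abs_sub _ _).trans (add_le_add ((abs_sub _ _).trans (add_le_add g3 g4)) ?_)
    rw [abs_mul]
    exact mul_le_mul g1 g2 (abs_nonneg _) (by positivity)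

/-- **The frames.** -/
theorem CPl.ufi (h : CPl F A i₀ iu iN N Pu w V T Hc wl kap HN e n nN z s c) {wa wb : ℕ}
    (hlw : wl ≤ wa) (hwJ : wb ≤ J) {vp ix : ℕ → ℕ}
    (hmono : ∀ v v', wa ≤ v → v ≤ v' → v' ≤ wb → vp v ≤ vp v')
    (hix : ∀ v, wa ≤ v → v ≤ wb → ix v ≤ N ∧ w (ix v) ≤ v ∧ (vp v = 0 ∨ vp v + 1 ≤ V (ix v))) :
    ∃ a : ℕ → F.Ω → ℝ,
      UFi F A (sg3 i₀ iu iN) wl wa wb vp kap Pu HN (fun v => e v iu) (fun v => n v iu)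
        (fun v => e v iN) nN a (fun ω => -s ω) (fun ω => -c ω) 20 20 ∧
      ∀ v, wa ≤ v → v ≤ wb → ∀ ω, A ω → |a v ω - (z (ix v) ω).e| ≤ 2 / 2 ^ vp v := by
  have s0 : sg3 i₀ iu iN 0 = i₀ := rfl
  have s1 : sg3 i₀ iu iN 1 = iu := rfl
  have s2 : sg3 i₀ iu iN 2 = iN := rfl
  obtain ⟨ψs, hψs⟩ := h.slm
  choose! ψz hψz using h.zs
  obtain ⟨av, hav⟩ : ∃ av : ℕ → F.Ω → ℝ, av = fun v ω => if vp v = 0 then 0 else
    (⌊(2 : ℝ) ^ vp v * (z (ix v) ω).e⌋ : ℝ) / 2 ^ vp v := ⟨_, rfl⟩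
  refine ⟨av, ?_, ?_⟩
  · refine ⟨sg3_bij h.hi, by norm_num, by norm_num, hlw, hwJ, hmono, ?_, ?_, ?_, ?_, ?_, ?_, ?_,
      ?_, ?_⟩
    · intro ω hω
      rw [s0, s1]
      refine (h.ln ω hω iu).trans ?_
      exact div_le_div_of_nonneg_right (by norm_num) (by positivity)
    · intro ω hω
      rw [s0, s1, s2]
      have g1 := h.on2 ω hω
      have e1 : (F.d ω iN - e (Fam.pt F ω) iN * F.d ω i₀ - nN (Fam.pt F ω)) -
          -s ω * (F.d ω iu - e (Fam.pt F ω) iu * F.d ω i₀ - n (Fam.pt F ω) iu) =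
          (F.d ω iN - e (Fam.pt F ω) iN * F.d ω i₀ - nN (Fam.pt F ω)) +
          s ω * (F.d ω iu - e (Fam.pt F ω) iu * F.d ω i₀ - n (Fam.pt F ω) iu) := by ring
      rw [e1]
      exact g1
    · intro ω hω
      exact (h.eb ω hω iu).trans (by norm_num)
    · intro ω hω
      rw [abs_neg, abs_neg]
      exact ⟨h.bs ω hω, h.bc ω hω⟩
    · intro v h1 h2 ω hω
      rw [hav]
      beta_reduce
      split_ifs with h0
      · rw [h0, sub_zero, pow_zero, div_one]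
        exact (h.eb ω hω iu).trans (by norm_num)
      · obtain ⟨k1, k2, k3⟩ := hix v h1 h2
        have k4 : vp v + 1 ≤ V (ix v) := by
          rcases k3 with k3 | k3
          · exact absurd k3 h0
          · exact k3
        have g1 := h.ze (ix v) k1 ω hω
        have g2 := floor_near (vp v) (z (ix v) ω).e
        have g3 : (4 : ℝ) / 2 ^ V (ix v) ≤ 2 / 2 ^ vp v := by
          have g4 : (1 : ℝ) / 2 ^ V (ix v) ≤ 1 / 2 ^ (vp v + 1) := inv_mono k4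
          have g5 : (1 : ℝ) / 2 ^ (vp v + 1) = 1 / 2 ^ vp v / 2 := by
            rw [pow_succ]
            field_simp
          have e2 : (4 : ℝ) / 2 ^ V (ix v) = 4 * (1 / 2 ^ V (ix v)) := by ring
          have e3 : (2 : ℝ) / 2 ^ vp v = 2 * (1 / 2 ^ vp v) := by ring
          rw [e2, e3]
          linarith
        have g4 := abs_sub_le (e (Fam.pt F ω) iu) (z (ix v) ω).e
          ((⌊(2 : ℝ) ^ vp v * (z (ix v) ω).e⌋ : ℝ) / 2 ^ vp v)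
        rw [abs_sub_comm] at g1
        have e4 : (3 : ℝ) / 2 ^ vp v = 2 / 2 ^ vp v + 1 / 2 ^ vp v := by ring
        rw [e4]
        linarith
    · intro v h1 h2 ω
      rw [hav]
      beta_reduce
      split_ifs with h0
      · exact ⟨0, by simp⟩
      · exact ⟨_, rfl⟩
    · intro ω hω
      have g1 := h.k2 ω hω
      have e1 : e (Fam.pt F ω) iN - -s ω * e (Fam.pt F ω) iu - -c ω =
        c ω + s ω * e (Fam.pt F ω) iu + e (Fam.pt F ω) iN := by ring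
      rw [e1]
      exact g1.trans (div_le_div_of_nonneg_right (by norm_num) (by positivity))
    · intro v h1 h2 ω ω' _ _ h3
      obtain ⟨k1, k2, k3⟩ := hix v h1 h2
      have g1 : slam F (w (ix v)) ω = slam F (w (ix v)) ω' :=
        Pool.S6K.slam_mono k2 (h2.trans hwJ) h3
      rw [hav]
      beta_reduce
      rw [hψz _ k1 ω, hψz _ k1 ω', g1]
    · intro ω ω' _ _ h3
      have g1 : (s ω, c ω) = (s ω', c ω') := by rw [hψs ω, hψs ω', h3]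
      have g2 : s ω = s ω' := congrArg Prod.fst g1
      have g3 : c ω = c ω' := congrArg Prod.snd g1
      beta_reduce
      rw [g2, g3]
  · intro v h1 h2 ω hω
    rw [hav]
    beta_reduce
    obtain ⟨k1, k2, k3⟩ := hix v h1 h2
    split_ifs with h0
    · rw [h0, zero_sub, abs_neg, pow_zero, div_one]
      exact (h.inc _ k1 ω hω).e_le
    · have g2 := floor_near (vp v) (z (ix v) ω).e
      rw [abs_sub_comm] at g2
      refine g2.trans ?_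
      exact div_le_div_of_nonneg_right (by norm_num) (by positivity)

end lemmas

theorem RCP.hered {J : ℕ} (i₀ : Fin 3) (N Pu : ℕ) (w V T Hc : ℕ → ℕ) (wl kap HN : ℕ)
    (F : Fam 3 J) : Hered (RCP i₀ N Pu w V T Hc wl kap HN F) := by
  rintro A B hB ⟨iu, iN, e, n, nN, z, s, c, h⟩
  exact ⟨iu, iN, e, n, nN, z, s, c, h.sub hB⟩

end Pool.S6C
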