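import Pool.Agent.H41.S6H.Rc4
import Pool.Agent.H62.S6.Adm

/-!
# Closed planes of directions with natural labels, if the natural planks are thin
-/

set_option autoImplicit false

namespace Pool.S6C

open Finset Real
open Pool.Agent.H49.Ent Pool.Agent.H32.Dense Pool.STK Pool.KA Pool.KSAT Pool.K2S Pool.PB Pool.KS6
  Pool.S6F Pool.S6B

/-- The comparison of a plank with a closed plane of directions, as a claim about an event. -/
def CmpR {J : ℕ} (F : Fam 3 J) (A : F.Ω → Prop) (i₀ : Fin 3) (l wv : ℕ) (K : ℝ) : Prop :=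
  ∀ B₀ G : F.Ω → Prop, Sub G B₀ → Sub B₀ A → Pe F.p A ≤ K * Pe F.p G →
    ∀ q lp : ℕ, l + q + 5 ≤ lp → Spr F i₀ q B₀ →
    ∀ e n : (Fin 3 → ℤ) × (ℕ × F.ζ) → Fin 3 → ℝ, OnL i₀ (1 / 2 ^ lp) (Fam.pt F) F.d B₀ e n →
    ∀ (iu iN iu' iN' : Fin 3) (w w' lam P He r : ℕ) (y : F.Ω → Pln) (Bc C : ℝ)
      (e' n' : (Fin 3 → ℤ) × (ℕ × F.ζ) → Fin 3 → ℝ) (sy : (Fin 3 → ℤ) × (ℕ × F.ζ) → ℝ)
      (s c : F.Ω → ℝ), w ≤ wv → w' ≤ wv → 1 ≤ C → Lb3 F B₀ i₀ iu iN w lam P y →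
      (∀ j : Fin 3, j = i₀ ∨ j = iu' ∨ j = iN') →
      RcF F B₀ i₀ iu' iN' He w' r 4 Bc C e' n' sy s c →
      ∃ B : F.Ω → Prop, Sub B G ∧ Pe F.p G ≤ 2 * Pe F.p B ∧ ∀ ω, B ω →
        (iu' = iu ∧ iN' = iN ∧ |s ω - (y ω).s| ≤
          1600 * 2 ^ q * 2 ^ l * (2 ^ w / 2 ^ P + 12 * C ^ 2 / 2 ^ r)) ∨
        (iu' = iN ∧ iN' = iu ∧ |1 - s ω * (y ω).s| ≤
          1600 * 2 ^ q * 2 ^ l * (2 ^ w / 2 ^ P + 12 * C ^ 2 / 2 ^ r))

theorem cmpr_clp {S : PCl 3} {i₀ : Fin 3} {ρ : Row} (hR : Rw S i₀ 1 ρ) (v₁ : ℚ) (h0 : 0 ≤ v₁)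
    (h1 : v₁ ≤ 1) {h K : ℝ} (hh : 0 < h) (hr : ρ.rot v₁ + h ≤ 1) (hK : 1 ≤ K) :
    Clp S (fun J F A => CmpR F A i₀ ⌊(ρ.rot v₁ + h) * J⌋₊ ⌊(v₁ : ℝ) * J⌋₊ K) := by
  obtain ⟨τ, hτ, J₁, hc⟩ := rc_turn hR v₁ h0 h1 hh hr
  refine Clp.mono (J₂ := J₁) (sub_base (S := S) hτ hK) ?_
  intro J hJ F A hA B₀ G hG hB₀ hP q lp hlp hpr e n hL iu iN iu' iN' w w' lam P He r y Bc C e' n'
    sy s c hw hw' hC hy hi' hF
  exact hc J hJ F B₀ G hG (hA G (hG.trans hB₀) hP) q lp _ rfl hlp hpr e n hL iu iN iu' iN' w w'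
    lam P He r y Bc C e' n' sy s c hw hw' hC hy hi' hF

/-- A plane of directions in the chart of the planks, one family. -/
theorem cpl_of {J : ℕ} {F : Fam 3 J} {A B : F.Ω → Prop} {i₀ iu iN : Fin 3} {N Pu : ℕ}
    {w V T H : ℕ → ℕ} {e n : (Fin 3 → ℤ) × (ℕ × F.ζ) → Fin 3 → ℝ} {z : ℕ → F.Ω → Pln}
    (h : NLc F A i₀ iu iN N Pu w V T H e n z) {G j₀ q : ℕ} (hj₀ : j₀ ≤ N)
    (hG : SnG F A i₀ iu iN G e (z j₀)) (hB : Sub B A) {s c : F.Ω → ℝ} {M : ℕ → ℕ}
    {wl kap HN : ℕ} {ε : ℝ}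
    (hslm : ∃ ψ : ((Fin 3 → ℝ) × (Fin 3 → ℝ)) × F.ζ × ℕ → ℝ × ℝ,
      ∀ ω, (s ω, c ω) = ψ (slam F wl ω))
    (hK1 : ∀ j ≤ N, ∀ ω, B ω → |s ω - (z j ω).s| ≤ 1 / 2 ^ M j)
    (hp : ∀ ω, B ω → ∃ ωa ωb, A ωa ∧ A ωb ∧ Fam.pt F ωa = Fam.pt F ω ∧
      Fam.pt F ωb = Fam.pt F ω ∧ 1 / 2 ^ (q + 1) ≤ |F.d ωa i₀ - F.d ωb i₀| ∧
      |c ω + s ω * ((F.d ωa iu - F.d ωb iu) / (F.d ωa i₀ - F.d ωb i₀)) +
        (F.d ωa iN - F.d ωb iN) / (F.d ωa i₀ - F.d ωb i₀)| ≤ ε)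
    (hε : ε ≤ 1 / 4 * (1 / 2 ^ kap)) (h1 : kap + q + 4 ≤ G) (h2 : kap + q + 4 ≤ M j₀ + Pu)
    (hH1 : HN ≤ G) (hH2 : HN ≤ M j₀ + Pu) :
    ∃ nN : (Fin 3 → ℤ) × (ℕ × F.ζ) → ℝ,
      CPl F B i₀ iu iN N Pu w V T M wl kap HN e n nN z s c := by
  obtain ⟨φ, hφ⟩ := h.zp j₀ hj₀
  obtain ⟨b, hb⟩ := hG
  have hz : ∀ ω ω', A ω → A ω' → Fam.pt F ω = Fam.pt F ω' → z j₀ ω = z j₀ ω' := by
    intro ω ω' hω hω' h3
    have e' : ptq F J ω = ptq F J ω' := h3
    rw [hφ ω hω, hφ ω' hω', e']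
  have k2 : ∀ ω, B ω → |c ω + s ω * e (Fam.pt F ω) iu + e (Fam.pt F ω) iN| ≤ 1 / 2 ^ kap := by
    intro ω hω
    obtain ⟨ωa, ωb, ha, hb', pa, pb, hab, h3⟩ := hp ω hω
    have h4 := rc_near h.ln ⟨b, hb⟩ hz (hB _ hω) ha hb' pa pb hab h3 (hK1 j₀ hj₀ ω hω)
    refine h4.trans ?_
    have g1 : (4 : ℝ) * 2 ^ q * (1 / 2 ^ G) ≤ 1 / 4 * (1 / 2 ^ kap) := by
      obtain ⟨m, rfl⟩ := Nat.exists_eq_add_of_le h1
      have e1 : (4 : ℝ) * 2 ^ q * (1 / 2 ^ (kap + q + 4 + m)) =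
          1 / 4 * (1 / 2 ^ kap) / 2 ^ m := by
        simp only [pow_add]
        field_simp
        norm_num
      rw [e1]
      exact div_le_self (by positivity) (one_le_pow₀ (by norm_num))
    have g2 : (1 : ℝ) / 2 ^ M j₀ * (4 * 2 ^ q * (1 / 2 ^ Pu)) ≤ 1 / 4 * (1 / 2 ^ kap) := by
      have e2 : (1 : ℝ) / 2 ^ M j₀ * (4 * 2 ^ q * (1 / 2 ^ Pu)) =
          4 * 2 ^ q * (1 / 2 ^ (M j₀ + Pu)) := by
        rw [pow_add]
        field_simp
      rw [e2]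
      obtain ⟨m, hm⟩ := Nat.exists_eq_add_of_le h2
      rw [hm]
      have e1 : (4 : ℝ) * 2 ^ q * (1 / 2 ^ (kap + q + 4 + m)) =
          1 / 4 * (1 / 2 ^ kap) / 2 ^ m := by
        simp only [pow_add]
        field_simp
        norm_num
      rw [e1]
      exact div_le_self (by positivity) (one_le_pow₀ (by norm_num))
    have g3 : (0 : ℝ) < 1 / 2 ^ kap := by positivity
    linarith only [hε, g1, g2, g3]
  exact by
   have bs : ∀ ω, B ω → |s ω| ≤ 5 := by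
     intro ω hω
     have g1 := hK1 j₀ hj₀ ω hω
     have g2 := (h.inc j₀ hj₀ ω (hB _ hω)).s_le
     have g3 : (1 : ℝ) / 2 ^ M j₀ ≤ 1 :=
       div_le_self (by norm_num) (one_le_pow₀ (by norm_num))
     have g4 := abs_sub_abs_le_abs_sub (s ω) (z j₀ ω).s
     linarith only [g1, g2, g3, g4]
   refine ⟨fun v => b v - (φ v).s * n v iu, h.hi, h.ln.sub hB, fun ω hω => h.eb ω (hB _ hω),
     fun j hj ω hω => h.inc j hj ω (hB _ hω), fun j hj => ?_, h.zs,
     fun j hj ω hω => h.ze j hj ω (hB _ hω), fun j hj ω hω => h.zc j hj ω (hB _ hω),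
     fun ω hω => ?_, fun ω hω => (bs ω hω).trans (by norm_num), fun ω hω => ?_, hslm,
     fun j hj ω hω => (hK1 j hj ω hω).trans (div_le_div_of_nonneg_right (by norm_num)
       (by positivity)), k2⟩
   · obtain ⟨φ', hφ'⟩ := h.zp j hj
     exact ⟨φ', fun ω hω => hφ' ω (hB _ hω)⟩
   · have g1 := hb ω (hB _ hω)
     have g2 : (φ (Fam.pt F ω)).s = (z j₀ ω).s := by
       rw [hφ ω (hB _ hω)]
       rfl
     have g3 := hK1 j₀ hj₀ ω hω
     have g4 := h.ln ω (hB _ hω) iu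
     rw [g2]
     have e1 : (F.d ω iN - e (Fam.pt F ω) iN * F.d ω i₀ -
         (b (Fam.pt F ω) - (z j₀ ω).s * n (Fam.pt F ω) iu)) +
         s ω * (F.d ω iu - e (Fam.pt F ω) iu * F.d ω i₀ - n (Fam.pt F ω) iu) =
         ((F.d ω iN - e (Fam.pt F ω) iN * F.d ω i₀) +
           (z j₀ ω).s * (F.d ω iu - e (Fam.pt F ω) iu * F.d ω i₀) - b (Fam.pt F ω)) +
         (s ω - (z j₀ ω).s) *
           (F.d ω iu - e (Fam.pt F ω) iu * F.d ω i₀ - n (Fam.pt F ω) iu) := by ring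
     rw [e1]
     refine (abs_add_le _ _).trans ?_
     have g5 : |(s ω - (z j₀ ω).s) *
         (F.d ω iu - e (Fam.pt F ω) iu * F.d ω i₀ - n (Fam.pt F ω) iu)| ≤ 1 / 2 ^ HN := by
       rw [abs_mul]
       calc _ ≤ 1 / 2 ^ M j₀ * (1 / 2 ^ Pu) :=
             mul_le_mul g3 g4 (abs_nonneg _) (by positivity)
         _ = 1 / 2 ^ (M j₀ + Pu) := by
             rw [pow_add]
             field_simp
         _ ≤ 1 / 2 ^ HN := inv_mono hH2
     have g6 : (1 : ℝ) / 2 ^ G ≤ 1 / 2 ^ HN := inv_mono hH1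
     have e2 : (20 : ℝ) / 2 ^ HN = 20 * (1 / 2 ^ HN) := by ring
     have g7 : (0 : ℝ) < 1 / 2 ^ HN := by positivity
     rw [e2]
     linarith only [g1, g5, g6, g7]
   · have g1 := k2 ω hω
     have g2 := bs ω hω
     have g3 := h.eb ω (hB _ hω) iu
     have g4 := h.eb ω (hB _ hω) iN
     have g5 : (1 : ℝ) / 2 ^ kap ≤ 1 := div_le_self (by norm_num) (one_le_pow₀ (by norm_num))
     have e1 : c ω = (c ω + s ω * e (Fam.pt F ω) iu + e (Fam.pt F ω) iN) -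
         s ω * e (Fam.pt F ω) iu - e (Fam.pt F ω) iN := by ring
     have t1 := abs_sub ((c ω + s ω * e (Fam.pt F ω) iu + e (Fam.pt F ω) iN) -
         s ω * e (Fam.pt F ω) iu) (e (Fam.pt F ω) iN)
     have t2 := abs_sub (c ω + s ω * e (Fam.pt F ω) iu + e (Fam.pt F ω) iN)
         (s ω * e (Fam.pt F ω) iu)
     rw [← e1] at t1
     have t3 : |s ω * e (Fam.pt F ω) iu| ≤ 5 * (5 / 4) := by
       rw [abs_mul]
       exact mul_le_mul g2 g3 (abs_nonneg _) (by norm_num)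
     linarith only [g1, g4, g5, t1, t2, t3]

/-- The other chart. -/
theorem flip_k1 {s y ε : ℝ} (hy : |y| ≤ 4) (h : |1 - s * y| ≤ ε)
    (hε : ε ≤ 1 / 2) : 1 / 8 ≤ |s| ∧ |1 / s - y| ≤ 8 * ε := by
  have h1 : |s| * |y| ≤ |s| * 4 := mul_le_mul_of_nonneg_left hy (abs_nonneg _)
  have h2 : 1 - |s| * |y| ≤ |1 - s * y| := by
    have := abs_sub_abs_le_abs_sub 1 (s * y)
    rwa [abs_one, abs_mul] at this
  have h3 : 1 / 8 ≤ |s| := by linarith only [h, hε, h1, h2]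
  have h4 : 0 < |s| := by linarith only [h, hε, h1, h2]
  have h5 : s ≠ 0 := abs_pos.1 h4
  refine ⟨h3, ?_⟩
  have e1 : 1 / s - y = (1 - s * y) / s := by
    field_simp
  rw [e1, abs_div, div_le_iff₀ h4]
  have h6 : 0 ≤ ε := (abs_nonneg _).trans h
  nlinarith only [h, h6, hε, h1, h2]

theorem flip_k2 {s c a b ε : ℝ} (hs : 1 / 8 ≤ |s|) (h : |c + s * a + b| ≤ ε) :
    |c / s + 1 / s * b + a| ≤ 8 * ε := by
  have h4 : 0 < |s| := by linarith only [hs]
  have h5 : s ≠ 0 := abs_pos.1 h4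
  have e1 : c / s + 1 / s * b + a = (c + s * a + b) / s := by
    field_simp
    ring
  rw [e1, abs_div, div_le_iff₀ h4]
  have h6 : 0 ≤ ε := (abs_nonneg _).trans h
  nlinarith only [h, hs, h6]

theorem pow_smallr {q l r K : ℕ} (h : l + q + K ≤ r) :
    (1600 : ℝ) * 2 ^ q * 2 ^ l * (12 * 1 ^ 2 / 2 ^ r) ≤ 19200 / 2 ^ K := by
  obtain ⟨m, rfl⟩ := Nat.exists_eq_add_of_le h
  have e1 : (1600 : ℝ) * 2 ^ q * 2 ^ l * (12 * 1 ^ 2 / 2 ^ (l + q + K + m)) =
      19200 / 2 ^ K / 2 ^ m := by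
    simp only [pow_add]
    field_simp
    norm_num
  rw [e1]
  exact div_le_self (by positivity) (one_le_pow₀ (by norm_num))

theorem pow_smallk {q r K : ℕ} (h : K + q + 12 ≤ r) :
    8 * ((8 : ℝ) * 2 ^ q * (12 * 1 ^ 2 / 2 ^ r)) ≤ 1 / 4 * (1 / 2 ^ K) := by
  obtain ⟨m, rfl⟩ := Nat.exists_eq_add_of_le h
  have e1 : 8 * ((8 : ℝ) * 2 ^ q * (12 * 1 ^ 2 / 2 ^ (K + q + 12 + m))) =
      768 / 4096 * (1 / 2 ^ K) / 2 ^ m := by
    simp only [pow_add]
    field_simp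
    norm_num
  rw [e1]
  have h1 : (0 : ℝ) < 1 / 2 ^ K := by positivity
  refine (div_le_self (by positivity) (one_le_pow₀ (by norm_num))).trans ?_
  linarith only [h1]

/-- **Closed planes of directions with natural labels**, if the natural planks are thin. -/
theorem rcp_pos {S : PCl 3} {a R h₁ : ℝ} {i₀ : Fin 3} {c s₂ : ℝ} {r : ℝ → ℝ} {D : Set ℝ}
    {σ : ℝ → Row} (hC : Cs S a R h₁ i₀ c s₂ r D σ) {K : Set ℝ} {W : ℝ → ℝ} {v₁ t : ℚ} {e₁ : ℝ}
    (hA : Adm σ K W v₁ t e₁) {pe : ℝ} {rc : ℚ → ℝ} (hrc : RcN S i₀ pe rc) (N : ℕ) (u : ℕ → ℚ)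
    (V T M : ℕ → ℝ) {G pu κ hN : ℝ} {wl : ℚ} {j₀ : ℕ} (hj₀ : j₀ ≤ N) (hwl0 : 0 ≤ wl)
    (hwl : ∀ j ≤ N, wl ≤ u j) (hu : ∀ j < N, u (j + 1) ≤ u j) (hu1 : ∀ j ≤ N, u j ≤ v₁)
    (hpu : pu < (σ 1).pi) (hV : ∀ j ≤ N, V j < (σ 1).rot (u j))
    (hT : ∀ j ≤ N, T j < (σ 1).th (u j)) (hVT : ∀ j ≤ N, u j + V j ≤ T j)
    (turn : ∀ j ≤ N, (σ 1).rot (u j) < (σ 1).pi)
    (hR : ∀ j < N, (σ 1).rot (u j) < T (j + 1) - u (j + 1))
    (hM0 : ∀ j ≤ N, 0 ≤ M j) (hM1 : ∀ j ≤ N, (σ 1).rot (u j) + M j < T j - u j)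
    (hM2 : ∀ j ≤ N, (σ 1).rot (u j) + M j < rc wl)
    (hG0 : 0 ≤ G) (hG1 : G < (σ 1).sN v₁ t) (hG2 : ∀ j ≤ N, G < T j - u j + 7 * e₁)
    (hκ0 : 0 ≤ κ) (hκ1 : κ < rc wl) (hκ2 : κ < G) (hκ3 : κ < M j₀ + pu)
    (hN1 : hN ≤ G) (hN2 : hN < M j₀ + pu) :
    Clp S (fun J F A => RCP i₀ N ⌊pu * J⌋₊ (fun j => ⌊(u j : ℝ) * J⌋₊) (fun j => ⌊V j * J⌋₊)
      (fun j => ⌊T j * J⌋₊) (fun j => ⌊M j * J⌋₊) ⌊(wl : ℝ) * J⌋₊ ⌊κ * J⌋₊ ⌊hN * J⌋₊ F A) := by
  classical
  have hR1 := hC.row 1 one_pos le_rfl hC.D1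
  have hpi1 : (σ 1).pi ≤ 1 := num_le_cap hC.ne zero_le_one hR1.pi
  have hpi0 := pi_pos hC
  have hu0 : ∀ j ≤ N, 0 ≤ u j := fun j hj => hwl0.trans (hwl j hj)
  have hu1' : ∀ j ≤ N, u j ≤ 1 := fun j hj => (hu1 j hj).trans hA.v1.le
  have hrot0 : ∀ j ≤ N, 0 ≤ (σ 1).rot (u j) := fun j hj =>
    num_nonneg hC.ne (hR1.rot (u j) (hu0 j hj) (hu1' j hj))
  have hu0r : ∀ j ≤ N, (0 : ℝ) ≤ u j := fun j hj => by exact_mod_cast hu0 j hj
  have hwlr : (0 : ℝ) ≤ wl := by exact_mod_cast hwl0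
  have hT0 : ∀ j ≤ N, 0 ≤ T j := fun j hj => by
    have := hM1 j hj
    have := hM0 j hj
    have := hrot0 j hj
    have := hu0r j hj
    linarith
  -- the slack
  obtain ⟨x₁, hx₁, k₁⟩ := min_pos N (fun j => min ((σ 1).pi - (σ 1).rot (u j))
      (min (T j - u j - (σ 1).rot (u j) - M j) (rc wl - (σ 1).rot (u j) - M j))) fun j hj => by
    have g1 := turn j hj
    have g2 := hM1 j hj
    have g3 := hM2 j hj
    exact lt_min (by linarith only [g1]) (lt_min (by linarith only [g2]) (by linarith only [g3]))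
  obtain ⟨δ, hδd⟩ : ∃ δ, δ = min (min x₁ (σ 1).pi) (min (min (rc wl - κ) (G - κ))
    (min (M j₀ + pu - κ) (M j₀ + pu - hN))) := ⟨_, rfl⟩
  have hδ : 0 < δ := by
    rw [hδd]
    exact lt_min (lt_min hx₁ hpi0) (lt_min (lt_min (by linarith) (by linarith only [hκ2]))
      (lt_min (by linarith only [hκ3]) (by linarith only [hN2])))
  have d0 : δ ≤ x₁ := by rw [hδd]; exact (min_le_left _ _).trans (min_le_left _ _)
  exact by
   have d1 : δ ≤ (σ 1).pi := by rw [hδd]; exact (min_le_left _ _).trans (min_le_right _ _)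
   have d2 : δ ≤ rc wl - κ := by
     rw [hδd]; exact (min_le_right _ _).trans ((min_le_left _ _).trans (min_le_left _ _))
   have d3 : δ ≤ G - κ := by
     rw [hδd]; exact (min_le_right _ _).trans ((min_le_left _ _).trans (min_le_right _ _))
   have d4 : δ ≤ M j₀ + pu - κ := by
     rw [hδd]; exact (min_le_right _ _).trans ((min_le_right _ _).trans (min_le_left _ _))
   have d5 : δ ≤ M j₀ + pu - hN := by
     rw [hδd]; exact (min_le_right _ _).trans ((min_le_right _ _).trans (min_le_right _ _))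
   have s1 : ∀ j ≤ N, δ ≤ (σ 1).pi - (σ 1).rot (u j) := fun j hj =>
     (d0.trans (k₁ j hj)).trans (min_le_left _ _)
   have s2 : ∀ j ≤ N, δ ≤ T j - u j - (σ 1).rot (u j) - M j := fun j hj =>
     (d0.trans (k₁ j hj)).trans ((min_le_right _ _).trans (min_le_left _ _))
   have s3 : ∀ j ≤ N, δ ≤ rc wl - (σ 1).rot (u j) - M j := fun j hj =>
     (d0.trans (k₁ j hj)).trans ((min_le_right _ _).trans (min_le_right _ _))
   obtain ⟨x, hx⟩ : ∃ x, x = min (δ / 16) (min h₁ 1 / 4) := ⟨_, rfl⟩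
   have hx0 : 0 < x := by
     rw [hx]
     have := lt_min hC.h₁0 one_pos
     exact lt_min (by linarith only [hδ]) (by linarith only [this])
   have hxδ : x ≤ δ / 16 := by rw [hx]; exact min_le_left _ _
   have hx1 : x ≤ h₁ / 4 := by
     rw [hx]
     refine (min_le_right _ _).trans ?_
     have := min_le_left h₁ 1
     linarith only [this]
   have hx2 : x ≤ 1 / 4 := by
     rw [hx]
     refine (min_le_right _ _).trans ?_
     have := min_le_right h₁ 1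
     linarith only [this]
   exact by
    obtain ⟨J₃, hJ₃⟩ := exists_nat_gt (128 / δ)
    refine Clp.step ⟨1, fun J F _ => RCP i₀ N ⌊pu * J⌋₊ (fun j => ⌊(u j : ℝ) * J⌋₊)
        (fun j => ⌊V j * J⌋₊) (fun j => ⌊T j * J⌋₊) (fun j => ⌊M j * J⌋₊) ⌊(wl : ℝ) * J⌋₊
        ⌊κ * J⌋₊ ⌊hN * J⌋₊ F, fun J F _ => RCP.hered _ _ _ _ _ _ _ _ _ _ _⟩ fun κ' hκ' => ?_
    obtain ⟨J₂, hJ₂⟩ := Pool.S6K.exp_small (κ := κ') (C := 2 * 2 ^ (N + 1)) hκ' (by
      have h1 : (1 : ℝ) ≤ 2 ^ (N + 1) := one_le_pow₀ (by norm_num)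
      linarith only [hpi1, d1, hx0, hxδ, h1])
    have c1 := nl_adm hC hA N u V T (fun _ => 0) (fun _ => G) hu hu0 hu1 hpu hV hT hVT
      (fun j hj => by
        have := hM1 j hj
        have := hM0 j hj
        have := hrot0 j hj
        linarith) (fun j hj => turn j hj.le)
      (fun j hj => ⟨by
        have := hM1 j hj.le
        have := hM0 j hj.le
        linarith, hR j hj⟩)
      (fun j hj => ⟨by
        have := hM1 j hj.le
        have := hM0 j hj.le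
        linarith, by
        have := hR j hj
        linarith only [this]⟩) (fun _ _ => hG0) (fun _ _ => hG1) hG2
    have c2 : Clp S (fun J F A => ∀ j < N + 1,
        CmpR F A i₀ ⌊((σ 1).rot (u j) + δ / 4) * J⌋₊ ⌊(u j : ℝ) * J⌋₊ (2 * 2 ^ (N + 1))) :=
      Clp.all (N + 1) fun j hj => by
        have hjN : j ≤ N := by omega
        refine cmpr_clp hR1 (u j) (hu0 j hjN) (hu1' j hjN) (by linarith only [hx0, hxδ]) ?_ ?_
        · have := s1 j hjN
          linarith only [hpi1, hx0, hxδ, this]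
        · have : (1 : ℝ) ≤ 2 ^ (N + 1) := one_le_pow₀ (by norm_num)
          linarith only [hpi1, d1, hx0, hxδ, this]
    exact by
     have c3 := spr_clp hC hx0 hx1 hx2 (g := (σ 1).pi - δ / 4) (by linarith only [d1, hx0, hxδ]) (by linarith only [hx0, hxδ])
     have c4 := (hrc.num wl).1 (δ / 8) (by linarith only [hx0, hxδ])
     refine Clp.mono (J₂ := max J₂ J₃) (((c1.and c2).and c3).and c4) ?_
     rintro J hJ F A ⟨⟨⟨⟨iu, iN, e, n, z, hNL, hSG⟩, g2⟩, es, ns, hL, B₀, hB₀, hPB₀, hspr, heb⟩, g4⟩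
       hSb
     have hJr : 128 / δ < J :=
       hJ₃.trans_le (by exact_mod_cast (le_max_right _ _).trans hJ)
     have hJδ : 128 < J * δ := by rwa [div_lt_iff₀ hδ] at hJr
     have hJ0 : (0 : ℝ) ≤ J := Nat.cast_nonneg J
     rcases g4 with g4 | ⟨-, iu', iN', hi', e', n', sy, s, c', hF⟩
     · linarith only [hκ0, d2, hx0, hxδ, g4]
     obtain ⟨q, hq⟩ : ∃ q, q = ⌈x * J⌉₊ := ⟨_, rfl⟩
     rw [← hq] at hspr
     have hq2 : (q : ℝ) < x * J + 1 := by rw [hq]; exact Nat.ceil_lt_add_one (by positivity)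
     have hxJ : x * J ≤ δ / 16 * J := mul_le_mul_of_nonneg_right hxδ hJ0
     obtain ⟨w, hw⟩ : ∃ w : ℕ → ℕ, w = fun j => ⌊(u j : ℝ) * J⌋₊ := ⟨_, rfl⟩
     obtain ⟨lam, hlam⟩ : ∃ lam : ℕ → ℕ, lam = fun j => ⌊V j * J⌋₊ := ⟨_, rfl⟩
     obtain ⟨P, hP⟩ : ∃ P : ℕ → ℕ, P = fun j => ⌊T j * J⌋₊ := ⟨_, rfl⟩
     obtain ⟨m, hm⟩ : ∃ m : ℕ → ℕ, m = fun j => ⌊M j * J⌋₊ := ⟨_, rfl⟩
     obtain ⟨l, hl⟩ : ∃ l : ℕ → ℕ, l = fun j => ⌊((σ 1).rot (u j) + δ / 4) * J⌋₊ := ⟨_, rfl⟩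
     obtain ⟨lp, hlp⟩ : ∃ lp : ℕ, lp = ⌊((σ 1).pi - δ / 4) * J⌋₊ := ⟨_, rfl⟩
     obtain ⟨rr, hrr⟩ : ∃ rr : ℕ, rr = ⌊(rc wl - δ / 8) * J⌋₊ := ⟨_, rfl⟩
     obtain ⟨Pu, hPu⟩ : ∃ Pu : ℕ, Pu = ⌊pu * J⌋₊ := ⟨_, rfl⟩
     obtain ⟨Gn, hGn⟩ : ∃ Gn : ℕ, Gn = ⌊G * J⌋₊ := ⟨_, rfl⟩
     obtain ⟨kap, hkap⟩ : ∃ kap : ℕ, kap = ⌊κ * J⌋₊ := ⟨_, rfl⟩
     obtain ⟨HN, hHN⟩ : ∃ HN : ℕ, HN = ⌊hN * J⌋₊ := ⟨_, rfl⟩
     obtain ⟨wL, hwL⟩ : ∃ wL : ℕ, wL = ⌊(wl : ℝ) * J⌋₊ := ⟨_, rfl⟩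
     have ew : ∀ j, ⌊(u j : ℝ) * J⌋₊ = w j := fun j => by rw [hw]
     have el : ∀ j, ⌊((σ 1).rot (u j) + δ / 4) * J⌋₊ = l j := fun j => by rw [hl]
     rw [← hw, ← hlam, ← hP, ← hPu] at hNL
     exact by
      rw [← hlp] at hL
      rw [← hrr, ← hwL] at hF
      have fw : ∀ j ≤ N, (w j : ℝ) ≤ u j * J := fun j hj => by
        rw [← ew]
        have := hu0r j hj
        exact Nat.floor_le (by positivity)
      have fP : ∀ j, T j * J < P j + 1 := fun j => by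
        rw [hP]; exact Nat.lt_floor_add_one _
      have fm : ∀ j ≤ N, (m j : ℝ) ≤ M j * J := fun j hj => by
        rw [hm]
        exact Nat.floor_le (mul_nonneg (hM0 j hj) hJ0)
      have fm' : ∀ j, M j * J < m j + 1 := fun j => by
        rw [hm]; exact Nat.lt_floor_add_one _
      have fl : ∀ j ≤ N, (l j : ℝ) ≤ ((σ 1).rot (u j) + δ / 4) * J := fun j hj => by
        rw [← el]
        have := hrot0 j hj
        exact Nat.floor_le (by positivity)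
      have flp' : ((σ 1).pi - δ / 4) * J < lp + 1 := by rw [hlp]; exact Nat.lt_floor_add_one _
      have frr' : (rc wl - δ / 8) * J < rr + 1 := by rw [hrr]; exact Nat.lt_floor_add_one _
      have fPu' : pu * J < Pu + 1 := by rw [hPu]; exact Nat.lt_floor_add_one _
      have fG' : G * J < Gn + 1 := by rw [hGn]; exact Nat.lt_floor_add_one _
      have fk : (kap : ℝ) ≤ κ * J := by rw [hkap]; exact Nat.floor_le (by positivity)
      have n1 : ∀ j ≤ N, l j + q + 5 ≤ lp := fun j hj => by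
        have m1 := mul_le_mul_of_nonneg_right (s1 j hj) hJ0
        have m2 := fl j hj
        have : ((l j + q + 5 : ℕ) : ℝ) < ((lp + 1 : ℕ) : ℝ) := by
          push_cast
          linarith only [hpi1, d1, hx0, hxδ, hJδ, hq2, hxJ, flp', m1, m2]
        have : l j + q + 5 < lp + 1 := by exact_mod_cast this
        omega
      exact by
       have n2 : ∀ j ≤ N, l j + q + w j + (m j + 18) ≤ P j := fun j hj => by
         have m1 := mul_le_mul_of_nonneg_right (s2 j hj) hJ0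
         have m2 := fl j hj
         have m3 := fw j hj
         have m4 := fP j
         have m5 := fm j hj
         have : ((l j + q + w j + (m j + 18) : ℕ) : ℝ) < ((P j + 1 : ℕ) : ℝ) := by
           push_cast
           linarith only [hpi1, d1, hx0, hxδ, hJδ, hq2, hxJ, m1, m2, m3, m4, m5]
         have : l j + q + w j + (m j + 18) < P j + 1 := by exact_mod_cast this
         omega
       have n3 : ∀ j ≤ N, l j + q + (m j + 18) ≤ rr := fun j hj => by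
         have m1 := mul_le_mul_of_nonneg_right (s3 j hj) hJ0
         have m2 := fl j hj
         have m5 := fm j hj
         have : ((l j + q + (m j + 18) : ℕ) : ℝ) < ((rr + 1 : ℕ) : ℝ) := by
           push_cast
           linarith only [hpi1, d1, hx0, hxδ, hJδ, hq2, hxJ, frr', m1, m2, m5]
         have : l j + q + (m j + 18) < rr + 1 := by exact_mod_cast this
         omega
       have n4 : kap + q + 12 ≤ rr := by
         have m1 := mul_le_mul_of_nonneg_right d2 hJ0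
         have : ((kap + q + 12 : ℕ) : ℝ) < ((rr + 1 : ℕ) : ℝ) := by
           push_cast
           linarith only [hpi1, d1, hx0, hxδ, hJδ, hq2, hxJ, frr', fk, m1]
         have : kap + q + 12 < rr + 1 := by exact_mod_cast this
         omega
       have n5 : kap + q + 4 ≤ Gn := by
         have m1 := mul_le_mul_of_nonneg_right d3 hJ0
         have : ((kap + q + 4 : ℕ) : ℝ) < ((Gn + 1 : ℕ) : ℝ) := by
           push_cast
           linarith only [hpi1, d1, hx0, hxδ, hJδ, hq2, hxJ, fG', fk, m1]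
         have : kap + q + 4 < Gn + 1 := by exact_mod_cast this
         omega
       exact by
        have n6 : kap + q + 4 ≤ m j₀ + Pu := by
          have m1 := mul_le_mul_of_nonneg_right d4 hJ0
          have m2 := fm' j₀
          have : ((kap + q + 4 : ℕ) : ℝ) < ((m j₀ + Pu + 1 : ℕ) : ℝ) := by
            push_cast
            linarith only [hpi1, d1, hx0, hxδ, hJδ, hq2, hxJ, fPu', fk, m1, m2]
          have : kap + q + 4 < m j₀ + Pu + 1 := by exact_mod_cast this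
          omega
        have n7 : HN ≤ Gn := by
          rw [hHN, hGn]
          exact Nat.floor_le_floor (mul_le_mul_of_nonneg_right hN1 hJ0)
        have n8 : HN ≤ m j₀ + Pu := by
          rw [hHN]
          rcases le_total hN 0 with h | h
          · rw [Nat.floor_of_nonpos (mul_nonpos_of_nonpos_of_nonneg h hJ0)]
            omega
          · have m1 := mul_le_mul_of_nonneg_right d5 hJ0
            have m2 := fm' j₀
            have m3 : (⌊hN * J⌋₊ : ℝ) ≤ hN * J := Nat.floor_le (mul_nonneg h hJ0)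
            have : ((⌊hN * J⌋₊ : ℕ) : ℝ) < ((m j₀ + Pu + 1 : ℕ) : ℝ) := by
              push_cast
              linarith only [hpi1, d1, hx0, hxδ, hJδ, fPu', m1, m2, m3]
            have : ⌊hN * J⌋₊ < m j₀ + Pu + 1 := by exact_mod_cast this
            omega
        have n9 : ∀ j ≤ N, wL ≤ w j := fun j hj => by
          rw [hwL, ← ew]
          exact Nat.floor_le_floor (mul_le_mul_of_nonneg_right (by exact_mod_cast hwl j hj) hJ0)
        have hLb : ∀ j ≤ N, Lb3 F B₀ i₀ iu iN (w j) (lam j) (P j) (z j) := fun j hj => by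
          refine ⟨hNL.hi, fun ω hω => hNL.inc j hj ω (hB₀ _ hω), ?_, ?_⟩
          · obtain ⟨φ, hφ⟩ := hNL.zp j hj
            exact ⟨φ, fun ω hω => hφ ω (hB₀ _ hω)⟩
          · obtain ⟨ψ, hψ⟩ := hNL.zs j hj
            exact ⟨ψ, fun ω _ => hψ ω⟩
        exact by
         have hF4 : RcF F A i₀ iu' iN' ⌊pe * J⌋₊ wL rr 4 4 1 e' n' sy s c' :=
           hF.big (by norm_num) hF.bc le_rfl
         -- the comparisons
         obtain ⟨ε, hε⟩ : ∃ ε : ℕ → ℝ, ε = fun j =>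
           1600 * 2 ^ q * 2 ^ l j * (2 ^ w j / 2 ^ P j + 12 * 1 ^ 2 / 2 ^ rr) := ⟨_, rfl⟩
         obtain ⟨GG, hGG, hPG, hcmp⟩ := seq_ev (K := 2) F.isLaw (B₀ := B₀) (by norm_num) (N + 1)
           (fun j G' => ∀ ω, G' ω → (iu' = iu ∧ iN' = iN ∧ |s ω - (z j ω).s| ≤ ε j) ∨
             (iu' = iN ∧ iN' = iu ∧ |1 - s ω * (z j ω).s| ≤ ε j))
           (fun j _ A' B' hs h ω hω => h ω (hs _ hω))
           (fun j hj G' hG' hP' => by
             have hjN : j ≤ N := by omega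
             obtain ⟨B, g1, g2', g3⟩ := g2 j hj B₀ G' hG' hB₀ (by
               rw [mul_assoc]
               exact hPB₀.trans (mul_le_mul_of_nonneg_left hP' (by norm_num))) q lp (by
                 rw [el]
                 exact n1 j hjN) hspr es ns (hL.sub hB₀) iu iN iu' iN' (w j) wL (lam j) (P j)
                 ⌊pe * J⌋₊ rr (z j) 4 1 e' n' sy s c' (by rw [ew]) (by rw [ew]; exact n9 j hjN) le_rfl
                 (hLb j hjN) hi' (hF4.sub hB₀)
             rw [el] at g3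
             refine ⟨B, g1, g2', fun ω hω => ?_⟩
             rw [hε]
             exact g3 ω hω)
         have hfin : Pe F.p A ≤ 2 * 2 ^ (N + 1) * Pe F.p GG := by
           calc Pe F.p A ≤ 2 * Pe F.p B₀ := hPB₀
             _ ≤ 2 * (2 ^ (N + 1) * Pe F.p GG) := mul_le_mul_of_nonneg_left hPG (by norm_num)
             _ = _ := by ring
         have hεm : ∀ j ≤ N, 8 * ε j ≤ 1 / 2 ^ m j := by
           intro j hj
           have a1 := pow_small (n2 j hj)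
           have a2 := pow_smallr (n3 j hj)
           have e1 : ε j = 1600 * 2 ^ q * 2 ^ l j * (2 ^ w j / 2 ^ P j) +
               1600 * 2 ^ q * 2 ^ l j * (12 * 1 ^ 2 / 2 ^ rr) := by
             rw [hε]
             ring
           have e2 : (1600 : ℝ) / 2 ^ (m j + 18) = 1600 / 262144 * (1 / 2 ^ m j) := by
             rw [pow_add]
             field_simp
             norm_num
           have e3 : (19200 : ℝ) / 2 ^ (m j + 18) = 19200 / 262144 * (1 / 2 ^ m j) := by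
             rw [pow_add]
             field_simp
             norm_num
           rw [e2] at a1
           rw [e3] at a2
           have h0 : (0 : ℝ) < 1 / 2 ^ m j := by positivity
           rw [e1]
           linarith only [a1, a2, h0]
         exact by
          have hε0 : ∀ j, 0 ≤ ε j := fun j => by
            rw [hε]
            positivity
          have h1m : ∀ j, (1 : ℝ) / 2 ^ m j ≤ 1 := fun j =>
            div_le_self (by norm_num) (one_le_pow₀ (by norm_num))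
          have hGA : Sub GG A := hGG.trans hB₀
          obtain ⟨u1, u2, u3⟩ := three hNL.hi
          refine Pool.S6K.stb_part (hSb 0) hGA (by positivity) hfin
            (hJ₂ J ((le_max_left _ _).trans hJ)) (Pe_nonneg F.isLaw A) ?_
          suffices hgoal : RCP i₀ N Pu w lam P m wL kap HN F GG by
            rw [hPu, hw, hlam, hP, hm, hwL, hkap, hHN] at hgoal
            exact hgoal
          obtain ⟨ψ, hψ⟩ := hF.slm
          have hSG0 := hSG j₀ hj₀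
          beta_reduce at hSG0
          rw [← hGn] at hSG0
          rcases ord_cases hNL.hi hi' with ⟨v1, v2⟩ | ⟨v1, v2⟩
          · subst v1 v2
            have key : ∀ j ≤ N, ∀ ω, GG ω → |s ω - (z j ω).s| ≤ 1 / 2 ^ m j := by
              intro j hj ω hω
              rcases hcmp j (by omega) ω hω with ⟨-, -, h⟩ | ⟨h, -, -⟩
              · have := hεm j hj
                have := hε0 j
                linarith
              · exact absurd h.symm u3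
            obtain ⟨nN, h⟩ := cpl_of (q := q) (kap := kap) (HN := HN) (wl := wL) hNL hj₀ hSG0 hGA (s := s)
              (c := c') (M := m) (ε := 8 * (8 * 2 ^ q * (12 * 1 ^ 2 / 2 ^ rr))) ⟨ψ, hψ⟩ key
              (fun ω hω => by
                obtain ⟨ωa, ωb, ha, hb, pa, pb, hab⟩ := hspr ω (hGG _ hω)
                have h1 := hF.pair le_rfl (hGA _ hω) (hB₀ _ ha) (hB₀ _ hb) pa pb hab
                refine ⟨ωa, ωb, hB₀ _ ha, hB₀ _ hb, pa, pb, hab, h1.trans ?_⟩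
                have : (0 : ℝ) ≤ 8 * 2 ^ q * (12 * 1 ^ 2 / 2 ^ rr) := by positivity
                linarith only [this]) (pow_smallk n4) n5 n6 n7 n8
            exact ⟨iu', iN', e, n, nN, z, s, c', h⟩
          · subst v1 v2
            have key : ∀ j ≤ N, ∀ ω, GG ω → 1 / 8 ≤ |s ω| ∧ |1 / s ω - (z j ω).s| ≤ 1 / 2 ^ m j := by
              intro j hj ω hω
              rcases hcmp j (by omega) ω hω with ⟨h, -, -⟩ | ⟨-, -, h⟩
              · exact absurd h u3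
              · have h1 := hεm j hj
                have h2 := hε0 j
                have h3 := h1m j
                have h4 := flip_k1 (hNL.inc j hj ω (hGA _ hω)).s_le h (by linarith only [hpi1, d1, hx0, hxδ, h1, h3])
                exact ⟨h4.1, h4.2.trans h1⟩
            obtain ⟨nN, h⟩ := cpl_of (q := q) (kap := kap) (HN := HN) (wl := wL) hNL hj₀ hSG0 hGA
              (s := fun ω => 1 / s ω) (c := fun ω => c' ω / s ω) (M := m)
              (ε := 8 * (8 * 2 ^ q * (12 * 1 ^ 2 / 2 ^ rr)))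
              ⟨fun v => (1 / (ψ v).1, (ψ v).2 / (ψ v).1), fun ω => by
                beta_reduce
                rw [← hψ ω]⟩ (fun j hj ω hω => (key j hj ω hω).2)
              (fun ω hω => by
                obtain ⟨ωa, ωb, ha, hb, pa, pb, hab⟩ := hspr ω (hGG _ hω)
                have h1 := hF.pair le_rfl (hGA _ hω) (hB₀ _ ha) (hB₀ _ hb) pa pb hab
                exact ⟨ωa, ωb, hB₀ _ ha, hB₀ _ hb, pa, pb, hab,
                  flip_k2 (key j₀ hj₀ ω hω).1 h1⟩) (pow_smallk n4) n5 n6 n7 n8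
            exact ⟨iN', iu', e, n, nN, z, _, _, h⟩

end Pool.S6C
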