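import Pool.Agent.H41.S6H.Rc5
import Pool.Agent.H86.S6C.Trv

/-!
# Closed planes of directions with natural labels, if the natural planks are tubes
-/

set_option autoImplicit false

namespace Pool.S6C

open Finset Real
open Pool.Agent.H49.Ent Pool.Agent.H32.Dense Pool.STK Pool.KA Pool.KSAT Pool.K2S Pool.PB Pool.KS6
  Pool.S6F Pool.S6B

/-- The cost of the production of a label. -/
noncomputable def kcs : ℝ := 2 * Real.exp (8 * (3 * Real.log 15 + 6 * Real.log (16 * 10 + 21)))

theorem kcs_one : 1 ≤ kcs := by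
  unfold kcs
  have h1 : 0 ≤ Real.log 15 := Real.log_nonneg (by norm_num)
  have h2 : 0 ≤ Real.log (16 * 10 + 21) := Real.log_nonneg (by norm_num)
  have h3 : 1 ≤ Real.exp (8 * (3 * Real.log 15 + 6 * Real.log (16 * 10 + 21))) :=
    Real.one_le_exp (by positivity)
  linarith only [h3]

/-- **Tubes**, one family: labels with `l` digits of the direction in the two coordinates. -/
theorem tub_one {J : ℕ} (F : Fam 3 J) {i₀ iu iN : Fin 3}
    (hi : ∀ j : Fin 3, j = i₀ ∨ j = iu ∨ j = iN) {w l P2 : ℕ} {A : F.Ω → Prop}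
    (hA : 0 < Pe F.p A) {e n : (Fin 3 → ℤ) × (ℕ × F.ζ) → Fin 3 → ℝ}
    {ζ : ((Fin 3 → ℝ) × (Fin 3 → ℝ)) × F.ζ × ℕ → Fin 3 → ℝ}
    (h1 : ∀ ω, A ω → ∀ j, j ≠ i₀ → |F.d ω j - e (Pool.KS6.ptq F J ω) j * F.d ω i₀ -
      n (Pool.KS6.ptq F J ω) j| ≤ 1 / 2 ^ l)
    (h2 : ∀ ω, A ω → ∀ j, |e (Pool.KS6.ptq F J ω) j - ζ (slam F w ω) j| ≤ 1 / 2 ^ l)
    (h3 : ∀ ω, A ω → ∀ j, |e (Pool.KS6.ptq F J ω) j| ≤ 2)
    (hw : w + l ≤ J) (hP : P2 ≤ w + l) :
    ∃ B : F.Ω → Prop, Sub B A ∧ Pe F.p A ≤ kcs * Pe F.p B ∧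
      LABq F J i₀ iu iN w l P2 2 B := by
  classical
  obtain ⟨n1, n2, n3⟩ := three hi
  obtain ⟨Φ, hΦ⟩ : ∃ Φ : (Fin 3 → ℤ) × (ℕ × F.ζ) → Pln, Φ = fun u =>
      { e := e u iu, c := -(e u iN), s := 0,
        xb := fun i => (u.1 i : ℝ) / 2 ^ J - (u.2.1 : ℝ) / 2 ^ J *
          Pool.KS6.bp i₀ iu (e u iu) (-(e u iN)) 0 0 (n u iu) (n u iN) i
        db := Pool.KS6.bp i₀ iu (e u iu) (-(e u iN)) 0 0 (n u iu) (n u iN) } := ⟨_, rfl⟩
  obtain ⟨y, hy⟩ : ∃ y : F.Ω → Pln, y = fun ω => Φ (Pool.KS6.ptq F J ω) := ⟨_, rfl⟩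
  have hQ0 : (0 : ℝ) < 2 ^ J := by positivity
  have i2 : (1 : ℝ) / 2 ^ J ≤ 1 / 2 ^ P2 := inv_mono (hP.trans hw)
  have i3 : (1 : ℝ) / 2 ^ J ≤ 1 / 2 ^ w := inv_mono (by omega)
  have i5 : (1 : ℝ) / 2 ^ J ≤ 1 / 2 ^ (w + l) := inv_mono hw
  have i4 : (1 : ℝ) / 2 ^ l ≤ 2 ^ w / 2 ^ P2 := by
    rw [div_le_div_iff₀ (by positivity) (by positivity), one_mul, ← pow_add]
    exact pow_le_pow_right₀ (by norm_num) hP
  have hI : ∀ ω, A ω → Inc i₀ iu iN w l P2 10 (y ω) (F.t ω) (F.x ω) (F.d ω) := by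
    intro ω hω
    obtain ⟨u, hu⟩ : ∃ u, u = Pool.KS6.ptq F J ω := ⟨_, rfl⟩
    have hyu : y ω = Φ u := by rw [hy, hu]
    have hx : ∀ i, |F.x ω i - (u.1 i : ℝ) / 2 ^ J| ≤ 1 / 2 ^ J := by
      intro i
      rw [hu]
      exact floor_near J (F.x ω i)
    have hmv : ∀ i, (Φ u).xb i + F.t ω * (Φ u).db i = (u.1 i : ℝ) / 2 ^ J := by
      intro i
      rw [hΦ, hu]
      change (_ : ℝ) - (F.T ω : ℝ) / 2 ^ J * _ + (F.T ω : ℝ) / 2 ^ J * _ = _
      ring
    have hmv' : (fun i => (Φ u).xb i + F.t ω * (Φ u).db i) = fun i => (u.1 i : ℝ) / 2 ^ J :=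
      funext hmv
    have heu := h3 ω hω iu
    have heN := h3 ω hω iN
    have honu := h1 ω hω iu n1
    have honN := h1 ω hω iN n2
    rw [← hu] at heu heN honu honN
    have hx0 := hx i₀
    have hxu := hx iu
    have hxN := hx iN
    have ee : (Φ u).e = e u iu := by rw [hΦ]
    have ec : (Φ u).c = -(e u iN) := by rw [hΦ]
    have es : (Φ u).s = 0 := by rw [hΦ]
    have edb : (Φ u).db = Pool.KS6.bp i₀ iu (e u iu) (-(e u iN)) 0 0 (n u iu) (n u iN) := by
      rw [hΦ]
    rw [hyu]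
    refine ⟨?_, ?_, ?_, ?_, ?_, ?_, ?_, ?_, ?_⟩
    · rw [ee]; exact heu
    · rw [ec, abs_neg]; exact heN.trans (by norm_num)
    · rw [es, abs_zero]; norm_num
    · rw [hmv]
      refine hx0.trans (i3.trans ?_)
      exact div_le_div_of_nonneg_right (by norm_num) (by positivity)
    · rw [hmv', ee]
      have e1 : fu i₀ iu (e u iu) (F.x ω) - fu i₀ iu (e u iu) (fun i => (u.1 i : ℝ) / 2 ^ J) =
          (F.x ω iu - (u.1 iu : ℝ) / 2 ^ J) -
            e u iu * (F.x ω i₀ - (u.1 i₀ : ℝ) / 2 ^ J) := by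
        unfold fu
        ring
      rw [e1]
      have e2 : |e u iu * (F.x ω i₀ - (u.1 i₀ : ℝ) / 2 ^ J)| ≤ 2 * (1 / 2 ^ J) := by
        rw [abs_mul]
        exact mul_le_mul heu hx0 (abs_nonneg _) (by norm_num)
      refine (abs_sub _ _).trans ?_
      have e3 : (10 : ℝ) / 2 ^ (w + l) = 10 * (1 / 2 ^ (w + l)) := by ring
      rw [e3]
      have : (0 : ℝ) < 1 / 2 ^ (w + l) := by positivity
      linarith only [i5, hxu, e2, this]
    · rw [hmv', ec, es]
      have e1 : fn i₀ iu iN (-(e u iN)) 0 (F.x ω) -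
          fn i₀ iu iN (-(e u iN)) 0 (fun i => (u.1 i : ℝ) / 2 ^ J) =
          -(e u iN) * (F.x ω i₀ - (u.1 i₀ : ℝ) / 2 ^ J) +
            (F.x ω iN - (u.1 iN : ℝ) / 2 ^ J) := by
        unfold fn
        ring
      rw [e1]
      have e2 : |-(e u iN) * (F.x ω i₀ - (u.1 i₀ : ℝ) / 2 ^ J)| ≤ 2 * (1 / 2 ^ J) := by
        rw [abs_mul, abs_neg]
        exact mul_le_mul heN hx0 (abs_nonneg _) (by norm_num)
      refine (abs_add_le _ _).trans ?_
      have e3 : (10 : ℝ) / 2 ^ P2 = 10 * (1 / 2 ^ P2) := by ring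
      rw [e3]
      have : (0 : ℝ) < 1 / 2 ^ P2 := by positivity
      linarith only [i2, hxN, e2, this]
    · rw [edb, bp_i0, sub_zero]
      exact (F.dir ω i₀).trans (by norm_num)
    · rw [ee, edb, bp_fu n1]
      have e1 : fu i₀ iu (e u iu) (F.d ω) - n u iu = F.d ω iu - e u iu * F.d ω i₀ - n u iu := by
        unfold fu
        ring
      rw [e1]
      refine honu.trans ?_
      exact div_le_div_of_nonneg_right (by norm_num) (by positivity)
    · rw [ec, es, edb, bp_fn n1 n2 n3]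
      have e1 : fn i₀ iu iN (-(e u iN)) 0 (F.d ω) - n u iN =
          F.d ω iN - e u iN * F.d ω i₀ - n u iN := by
        unfold fn
        ring
      rw [e1]
      refine honN.trans (i4.trans ?_)
      have e3 : (10 : ℝ) * 2 ^ w / 2 ^ P2 = 10 * (2 ^ w / 2 ^ P2) := by ring
      rw [e3]
      have : (0 : ℝ) < 2 ^ w / 2 ^ P2 := by positivity
      linarith only [this]
  exact by
   obtain ⟨Z, hZ⟩ : ∃ Z : ((Fin 3 → ℝ) × (Fin 3 → ℝ)) × F.ζ × ℕ → Pln, Z = fun v =>
       { e := ζ v iu, c := -(ζ v iN), s := 0, xb := fun _ => 0, db := fun _ => 0 } := ⟨_, rfl⟩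
   have hr : ∀ ω, A ω → |(y ω).e - (Z (slam F w ω)).e| ≤ 1 / 2 ^ l ∧
       |(y ω).s - (Z (slam F w ω)).s| ≤ 1 / 2 ^ 0 ∧
       |Ae (y ω).c (y ω).s (Z (slam F w ω)).c (Z (slam F w ω)).s (Z (slam F w ω)).e| ≤
         1 / 2 ^ l := by
     intro ω hω
     have ee : (y ω).e = e (Pool.KS6.ptq F J ω) iu := by rw [hy, hΦ]
     have ec : (y ω).c = -(e (Pool.KS6.ptq F J ω) iN) := by rw [hy, hΦ]
     have es : (y ω).s = 0 := by rw [hy, hΦ]
     have ze : (Z (slam F w ω)).e = ζ (slam F w ω) iu := by rw [hZ]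
     have zc : (Z (slam F w ω)).c = -(ζ (slam F w ω) iN) := by rw [hZ]
     have zs : (Z (slam F w ω)).s = 0 := by rw [hZ]
     refine ⟨?_, ?_, ?_⟩
     · rw [ee, ze]
       exact h2 ω hω iu
     · rw [es, zs, sub_self, abs_zero]
       positivity
     · rw [ec, es, zc, zs, ze]
       have e1 : Ae (-(e (Pool.KS6.ptq F J ω) iN)) 0 (-(ζ (slam F w ω) iN)) 0
           (ζ (slam F w ω) iu) = -(e (Pool.KS6.ptq F J ω) iN - ζ (slam F w ω) iN) := by
         unfold Ae
         ring
       rw [e1, abs_neg]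
       exact h2 ω hω iN
   obtain ⟨B, hB, hPB, hL⟩ := lab_prod F le_rfl hi (C := 10) (by norm_num) hA hI (φ := Φ)
     (fun ω _ => by rw [hy]) hr (P2 := P2) le_rfl hw (by omega) hP le_rfl (hP.trans hw)
   refine ⟨B, hB, ?_, hL⟩
   have h4 : kcs * (Real.exp (-(8 * (3 * Real.log 15 + 6 * Real.log (16 * 10 + 21)))) / 2) = 1 := by
     unfold kcs
     rw [Real.exp_neg]
     field_simp
   exact by
    calc Pe F.p A = kcs * (Real.exp (-(8 * (3 * Real.log 15 + 6 * Real.log (16 * 10 + 21)))) / 2) *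
          Pe F.p A := by rw [h4, one_mul]
      _ = kcs * (Real.exp (-(8 * (3 * Real.log 15 + 6 * Real.log (16 * 10 + 21)))) / 2 *
          Pe F.p A) := by ring
      _ ≤ kcs * Pe F.p B := mul_le_mul_of_nonneg_left hPB (by linarith only [kcs_one])

/-- **Closed planes of directions with natural labels**: the labels are tubes. -/
theorem rcp_zero {S : PCl 3} {a R h₁ : ℝ} {i₀ : Fin 3} {c s₂ : ℝ} {r : ℝ → ℝ} {D : Set ℝ}
    {σ : ℝ → Row} (hC : Cs S a R h₁ i₀ c s₂ r D σ) {pe : ℝ} {rc : ℚ → ℝ} (hrc : RcN S i₀ pe rc)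
    (N : ℕ) (u : ℕ → ℚ) (V T : ℕ → ℝ) {pu κ hN : ℝ} {wl : ℚ} (hu0 : ∀ j ≤ N, 0 ≤ u j)
    (hu1 : ∀ j ≤ N, u j ≤ 1) (hur : ∀ j ≤ N, u j + (σ 1).rot (u j) ≤ 1) (hV : ∀ j ≤ N, V j < (σ 1).rot (u j))
    (hT0 : ∀ j ≤ N, 0 ≤ T j) (hT : ∀ j ≤ N, T j < u j + (σ 1).rot (u j))
    (hpu0 : 0 ≤ pu) (hpu : pu < pe) (hκ0 : 0 ≤ κ) (hκ1 : κ < rc wl) (hN1 : hN ≤ pu) :
    Clp S (fun J F A => RCP i₀ N ⌊pu * J⌋₊ (fun j => ⌊(u j : ℝ) * J⌋₊) (fun j => ⌊V j * J⌋₊)
      (fun j => ⌊T j * J⌋₊) (fun _ => 0) ⌊(wl : ℝ) * J⌋₊ ⌊κ * J⌋₊ ⌊hN * J⌋₊ F A) := by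
  classical
  have hR1 := hC.row 1 one_pos le_rfl hC.D1
  have hpi0 := pi_pos hC
  have hu0r : ∀ j ≤ N, (0 : ℝ) ≤ u j := fun j hj => by exact_mod_cast hu0 j hj
  -- the numbers
  have hrot0 : ∀ j ≤ N, 0 ≤ (σ 1).rot (u j) := fun j hj =>
    num_nonneg hC.ne (hR1.rot (u j) (hu0 j hj) (hu1 j hj))
  obtain ⟨x₁, hx₁, k₁⟩ := min_pos N (fun j => min ((σ 1).rot (u j) - V j)
      (u j + (σ 1).rot (u j) - T j)) fun j hj => by
    have g1 := hV j hj
    have g2 := hT j hj
    exact lt_min (by linarith only [g1]) (by linarith only [g2])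
  obtain ⟨δ, hδd⟩ : ∃ δ, δ = min (min x₁ (σ 1).pi) (min (rc wl - κ) (pe - pu)) := ⟨_, rfl⟩
  have hδ : 0 < δ := by
    rw [hδd]
    exact lt_min (lt_min hx₁ hpi0) (lt_min (by linarith) (by linarith))
  have d0 : δ ≤ x₁ := by rw [hδd]; exact (min_le_left _ _).trans (min_le_left _ _)
  have d1 : δ ≤ (σ 1).pi := by rw [hδd]; exact (min_le_left _ _).trans (min_le_right _ _)
  have d2 : δ ≤ rc wl - κ := by
    rw [hδd]; exact (min_le_right _ _).trans (min_le_left _ _)
  have d3 : δ ≤ pe - pu := by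
    rw [hδd]; exact (min_le_right _ _).trans (min_le_right _ _)
  have s1 : ∀ j ≤ N, δ ≤ (σ 1).rot (u j) - V j := fun j hj =>
    (d0.trans (k₁ j hj)).trans (min_le_left _ _)
  have s2 : ∀ j ≤ N, δ ≤ u j + (σ 1).rot (u j) - T j := fun j hj =>
    (d0.trans (k₁ j hj)).trans (min_le_right _ _)
  obtain ⟨x, hx⟩ : ∃ x, x = min (δ / 16) (min h₁ 1 / 4) := ⟨_, rfl⟩
  have hx0 : 0 < x := by
    rw [hx]
    have := lt_min hC.h₁0 one_pos
    exact lt_min (by linarith only [hδ]) (by linarith)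
  exact by
   have hxδ : x ≤ δ / 16 := by rw [hx]; exact min_le_left _ _
   have hx1 : x ≤ h₁ / 4 := by
     rw [hx]
     refine (min_le_right _ _).trans ?_
     have := min_le_left h₁ 1
     linarith
   have hx2 : x ≤ 1 / 4 := by
     rw [hx]
     refine (min_le_right _ _).trans ?_
     have := min_le_right h₁ 1
     linarith only [this]
   obtain ⟨τ, hτ, J₁, hsp⟩ := spread_part hC.a1 hC.R0 hC.ub hC.st hC.lb hx0
   obtain ⟨J₃, hJ₃⟩ := exists_nat_gt (128 / δ + 32 / h₁ + 16)
   have hk1 := kcs_one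
   have hkN : (1 : ℝ) ≤ kcs ^ (N + 1) := one_le_pow₀ hk1
   refine Clp.step ⟨1, fun J F _ => RCP i₀ N ⌊pu * J⌋₊ (fun j => ⌊(u j : ℝ) * J⌋₊)
       (fun j => ⌊V j * J⌋₊) (fun j => ⌊T j * J⌋₊) (fun _ => 0) ⌊(wl : ℝ) * J⌋₊
       ⌊κ * J⌋₊ ⌊hN * J⌋₊ F, fun J F _ => RCP.hered _ _ _ _ _ _ _ _ _ _ _⟩ fun κ' hκ' => ?_
   obtain ⟨J₂, hJ₂⟩ := Pool.S6K.exp_small (κ := κ') (C := 2 * (kcs ^ (N + 1) * 2)) hκ' (by linarith only [hx0, hx2, hkN])
   have c1 : Clp S (fun J F A => 0 < Pe F.p A) :=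
     Clp.base 1 one_pos 0 fun J _ F A hS => lt_of_lt_of_le (Real.exp_pos _) (hC.st _ _ _ _ hS).2.2.2
   have c2 : Clp S (fun J F A => ∀ i < N + 1, capS 1 (qRot i₀ 1 (u i)) ((σ 1).rot (u i) - δ / 8)
       J F A) :=
     Clp.all (N + 1) fun i hi => by
       have hiN : i ≤ N := by omega
       exact (hR1.rot (u i) (hu0 i hiN) (hu1 i hiN)).1 (δ / 8) (by linarith only [hx0, hxδ])
   have c3 := spr_clp hC hx0 hx1 hx2 (g := (σ 1).pi - δ / 4) (by linarith only [d1, hx0, hxδ]) (by linarith only [hx0, hxδ])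
   have c4 := (hrc.num wl).1 (δ / 8) (by linarith only [hx0, hxδ])
   have c5 := sub_base (S := S) hτ (by linarith only [hx0, hx2, hkN] : (1 : ℝ) ≤ 2 * kcs ^ (N + 1))
   refine Clp.mono (J₂ := max (max J₁ J₂) J₃) (((((c1.and c2).and c3).and c4)).and c5) ?_
   exact by
    rintro J hJ F A ⟨⟨⟨⟨hA0, g2⟩, es, ns, hL, B₁, hB₁, hPB₁, hspr, heb⟩, g4⟩, g5⟩ hSb
    have hJ1 : J₁ ≤ J := (le_max_left _ _).trans ((le_max_left _ _).trans hJ)
    have hJ2 : J₂ ≤ J := (le_max_right _ _).trans ((le_max_left _ _).trans hJ)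
    have hJr : 128 / δ + 32 / h₁ + 16 < J :=
      hJ₃.trans_le (by exact_mod_cast (le_max_right _ _).trans hJ)
    have q1 : 0 < 128 / δ := by positivity
    have q2 : 0 < 32 / h₁ := div_pos (by norm_num) hC.h₁0
    have hJδ : 128 < J * δ := by
      have : 128 / δ < J := by linarith only [hx0, hx2, hJr, q2]
      rwa [div_lt_iff₀ hδ] at this
    have hJh : 32 < J * h₁ := by
      have : 32 / h₁ < J := by linarith only [hx0, hx2, hJr, q1]
      rwa [div_lt_iff₀ hC.h₁0] at this
    have hJ0 : (0 : ℝ) ≤ J := Nat.cast_nonneg J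
    have hJ16 : (16 : ℝ) < J := by linarith only [hJr, q1, q2]
    rcases g4 with g4 | ⟨-, iu, iN, hi, e', n', sy, s, c', hF⟩
    · linarith only [hκ0, d2, hx0, hxδ, g4]
    obtain ⟨q, hq⟩ : ∃ q, q = ⌈x * J⌉₊ := ⟨_, rfl⟩
    rw [← hq] at hspr
    have hq1 : x * J ≤ q := by rw [hq]; exact Nat.le_ceil _
    have hq2 : (q : ℝ) < x * J + 1 := by rw [hq]; exact Nat.ceil_lt_add_one (by positivity)
    have hxJ : x * J ≤ δ / 16 * J := mul_le_mul_of_nonneg_right hxδ hJ0
    have hqJ : q ≤ J := by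
      have e1 : x * J ≤ 1 / 4 * J := mul_le_mul_of_nonneg_right hx2 hJ0
      have : (q : ℝ) ≤ J := by linarith only [hx0, hx2, hJr, q1, q2, hq2, e1]
      exact_mod_cast this
    have hqh : q + 2 ≤ ⌊h₁ * J⌋₊ := by
      refine Nat.le_floor ?_
      push_cast
      have e1 : x * J ≤ h₁ / 4 * J := mul_le_mul_of_nonneg_right hx1 hJ0
      linarith only [hx0, hx2, hJh, hq2, e1]
    exact by
     obtain ⟨w, hw⟩ : ∃ w : ℕ → ℕ, w = fun j => ⌊(u j : ℝ) * J⌋₊ := ⟨_, rfl⟩
     obtain ⟨lp, hlp⟩ : ∃ lp : ℕ, lp = ⌊((σ 1).pi - δ / 4) * J⌋₊ := ⟨_, rfl⟩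
     obtain ⟨rr, hrr⟩ : ∃ rr : ℕ, rr = ⌊(rc wl - δ / 8) * J⌋₊ := ⟨_, rfl⟩
     obtain ⟨Pu, hPu⟩ : ∃ Pu : ℕ, Pu = ⌊pu * J⌋₊ := ⟨_, rfl⟩
     obtain ⟨He, hHe⟩ : ∃ He : ℕ, He = ⌊pe * J⌋₊ := ⟨_, rfl⟩
     obtain ⟨kap, hkap⟩ : ∃ kap : ℕ, kap = ⌊κ * J⌋₊ := ⟨_, rfl⟩
     obtain ⟨HN, hHN⟩ : ∃ HN : ℕ, HN = ⌊hN * J⌋₊ := ⟨_, rfl⟩
     obtain ⟨wL, hwL⟩ : ∃ wL : ℕ, wL = ⌊(wl : ℝ) * J⌋₊ := ⟨_, rfl⟩
     obtain ⟨V', hV'⟩ : ∃ V' : ℕ → ℕ, V' = fun j => ⌊V j * J⌋₊ := ⟨_, rfl⟩
     obtain ⟨T', hT'⟩ : ∃ T' : ℕ → ℕ, T' = fun j => ⌊T j * J⌋₊ := ⟨_, rfl⟩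
     obtain ⟨la, hla⟩ : ∃ la : ℕ → ℝ, la = fun j => if (σ 1).rot (u j) ≤ δ / 2 then 0 else
       (σ 1).rot (u j) - δ / 8 := ⟨_, rfl⟩
     obtain ⟨l, hl⟩ : ∃ l : ℕ → ℕ, l = fun j => ⌊la j * J⌋₊ := ⟨_, rfl⟩
     have la0 : ∀ j ≤ N, 0 ≤ la j := fun j hj => by
       rw [hla]
       beta_reduce
       split_ifs with h
       · exact le_rfl
       · linarith only [hx0, hxδ, h]
     have la1 : ∀ j ≤ N, la j ≤ (σ 1).rot (u j) := fun j hj => by
       rw [hla]
       beta_reduce
       split_ifs with h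
       · exact hrot0 j hj
       · linarith only [hx0, hxδ]
     have la2 : ∀ j ≤ N, (σ 1).rot (u j) - δ / 2 ≤ la j := fun j hj => by
       rw [hla]
       beta_reduce
       split_ifs with h
       · linarith only [h]
       · linarith only [hx0, hxδ]
     exact by
      have ew : ∀ j, ⌊(u j : ℝ) * J⌋₊ = w j := fun j => by rw [hw]
      rw [← hlp] at hL
      rw [← hrr, ← hwL, ← hHe] at hF
      have fw : ∀ j ≤ N, (w j : ℝ) ≤ u j * J := fun j hj => by
        rw [← ew]
        have := hu0r j hj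
        exact Nat.floor_le (by positivity)
      have fw' : ∀ j, u j * J < (w j : ℝ) + 1 := fun j => by
        rw [← ew]; exact Nat.lt_floor_add_one _
      have fl : ∀ j ≤ N, (l j : ℝ) ≤ la j * J := fun j hj => by
        rw [hl]
        exact Nat.floor_le (mul_nonneg (la0 j hj) hJ0)
      have fl' : ∀ j, la j * J < (l j : ℝ) + 1 := fun j => by
        rw [hl]; exact Nat.lt_floor_add_one _
      have fT : ∀ j ≤ N, (T' j : ℝ) ≤ T j * J := fun j hj => by
        rw [hT']
        exact Nat.floor_le (mul_nonneg (hT0 j hj) hJ0)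
      have flp' : ((σ 1).pi - δ / 4) * J < lp + 1 := by rw [hlp]; exact Nat.lt_floor_add_one _
      have frr' : (rc wl - δ / 8) * J < rr + 1 := by rw [hrr]; exact Nat.lt_floor_add_one _
      have fPu : (Pu : ℝ) ≤ pu * J := by rw [hPu]; exact Nat.floor_le (by positivity)
      have fHe' : pe * J < He + 1 := by rw [hHe]; exact Nat.lt_floor_add_one _
      have fk : (kap : ℝ) ≤ κ * J := by rw [hkap]; exact Nat.floor_le (by positivity)
      have n0 : ∀ j ≤ N, w j + l j ≤ J := fun j hj => by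
        have m1 := mul_le_mul_of_nonneg_right (hur j hj) hJ0
        have m2 := fl j hj
        have m3 := fw j hj
        have m4 := mul_le_mul_of_nonneg_right (la1 j hj) hJ0
        have : ((w j + l j : ℕ) : ℝ) ≤ (J : ℕ) := by
          push_cast
          linarith only [m1, m2, m3, m4]
        exact_mod_cast this
      exact by
       have n1 : q + 12 ≤ lp := by
         have m1 := mul_le_mul_of_nonneg_right d1 hJ0
         have : ((q + 12 : ℕ) : ℝ) < ((lp + 1 : ℕ) : ℝ) := by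
           push_cast
           linarith only [hx0, hx2, hJδ, hq2, hxJ, flp', m1]
         have : q + 12 < lp + 1 := by exact_mod_cast this
         omega
       have n2 : ∀ j ≤ N, T' j + q + 3 ≤ w j + l j := fun j hj => by
         have m1 := mul_le_mul_of_nonneg_right (s2 j hj) hJ0
         have m2 := fl' j
         have m3 := fw' j
         have m4 := mul_le_mul_of_nonneg_right (la2 j hj) hJ0
         have m5 := fT j hj
         have : ((T' j + q + 3 : ℕ) : ℝ) < ((w j + l j + 1 : ℕ) : ℝ) := by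
           push_cast
           linarith only [hx0, hx2, hJδ, hq2, hxJ, m1, m2, m3, m4, m5]
         have : T' j + q + 3 < w j + l j + 1 := by exact_mod_cast this
         omega
       have n3 : ∀ j ≤ N, 0 < V j → V' j + q + 3 ≤ l j := fun j hj h0 => by
         have m1 := mul_le_mul_of_nonneg_right (s1 j hj) hJ0
         have m2 := fl' j
         have m4 := mul_le_mul_of_nonneg_right (la2 j hj) hJ0
         have m5 : (V' j : ℝ) ≤ V j * J := by
           rw [hV']
           exact Nat.floor_le (mul_nonneg h0.le hJ0)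
         have : ((V' j + q + 3 : ℕ) : ℝ) < ((l j + 1 : ℕ) : ℝ) := by
           push_cast
           linarith only [hx0, hx2, hJδ, hq2, hxJ, m1, m2, m4, m5]
         have : V' j + q + 3 < l j + 1 := by exact_mod_cast this
         omega
       exact by
        have n4 : kap + q + 12 ≤ rr := by
          have m1 := mul_le_mul_of_nonneg_right d2 hJ0
          have : ((kap + q + 12 : ℕ) : ℝ) < ((rr + 1 : ℕ) : ℝ) := by
            push_cast
            linarith only [hx0, hx2, hJδ, hq2, hxJ, frr', fk, m1]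
          have : kap + q + 12 < rr + 1 := by exact_mod_cast this
          omega
        have n5 : Pu + q + 3 ≤ He := by
          have m1 := mul_le_mul_of_nonneg_right d3 hJ0
          have : ((Pu + q + 3 : ℕ) : ℝ) < ((He + 1 : ℕ) : ℝ) := by
            push_cast
            linarith only [hx0, hx2, hJδ, hq2, hxJ, fPu, fHe', m1]
          have : Pu + q + 3 < He + 1 := by exact_mod_cast this
          omega
        have n6 : HN ≤ Pu := by
          rw [hHN, hPu]
          exact Nat.floor_le_floor (mul_le_mul_of_nonneg_right hN1 hJ0)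
        have e2 : Real.exp (-Real.log 2) = 1 / 2 := by
          rw [Real.exp_neg, Real.exp_log (by norm_num)]
          norm_num
        -- the labels
        obtain ⟨G, hG, hPG, hlab⟩ := seq_ev (K := kcs) F.isLaw (B₀ := B₁) hk1 (N + 1)
          (fun j G' => LABq F J i₀ iu iN (w j) (l j) (w j + l j) 2 G')
          (fun j _ A' B' hs h => LABq.hered _ _ _ _ _ _ _ _ _ A' B' hs h)
          (fun j hj G' hG' hP' => by
            have hjN : j ≤ N := by omega
            have hG0 : 0 < Pe F.p G' := by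
              have h1 : 0 < Pe F.p B₁ := by linarith only [hA0, hPB₁]
              have h2 : 0 < kcs ^ (N + 1) * Pe F.p G' := h1.trans_le hP'
              exact pos_of_mul_pos_right h2 (by linarith only [hx0, hx2, hkN])
            by_cases hr : (σ 1).rot (u j) ≤ δ / 2
            · have l0 : l j = 0 := by
                rw [hl, hla]
                beta_reduce
                rw [if_pos hr, zero_mul, Nat.floor_zero]
              rw [l0]
              refine tub_one F hi hG0 (e := fun _ _ => 0) (n := fun _ _ => 0) (ζ := fun _ _ => 0)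
                (fun ω hω k _ => ?_) (fun ω hω k => ?_) (fun ω hω k => ?_) ?_ le_rfl
              · rw [zero_mul, sub_zero, sub_zero, pow_zero, div_one]
                exact F.dir ω k
              · rw [sub_zero, abs_zero]
                positivity
              · rw [abs_zero]
                norm_num
              · have := n0 j hjN
                omega
            · have lne : l j = ⌊((σ 1).rot (u j) - δ / 8) * J⌋₊ := by
                rw [hl, hla]
                beta_reduce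
                rw [if_neg hr]
              push Not at hr
              rcases g2 j hj with d | ⟨-, ej, nj, ζ, hL', hz⟩
              · exfalso
                linarith only [hx0, hxδ, hr, d]
              rw [ptq_one F] at hL' hz
              rw [← lne] at hL' hz
              have hq5 : q + 4 ≤ l j := by
                have m2 := fl' j
                have m4 : (3 * δ / 8) * J ≤ la j * J := by
                  refine mul_le_mul_of_nonneg_right ?_ hJ0
                  rw [hla]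
                  beta_reduce
                  rw [if_neg (not_le.2 hr)]
                  linarith only [hr]
                have : ((q + 4 : ℕ) : ℝ) < ((l j + 1 : ℕ) : ℝ) := by
                  push_cast
                  linarith only [hx0, hx2, hJδ, hq2, hxJ, m2, m4]
                have : q + 4 < l j + 1 := by exact_mod_cast this
                omega
              refine tub_one F hi hG0 (e := ej) (n := nj) (ζ := ζ)
                (fun ω hω k _ => hL' ω (hB₁ _ (hG' _ hω)) k) (fun ω hω k => ?_) (fun ω hω k => ?_)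
                (n0 j hjN) le_rfl
              · have := hz ω (hB₁ _ (hG' _ hω)) k
                rw [ew] at this
                exact this
              · obtain ⟨ωa, ωb, ha, hb, pa, pb, hab⟩ := hspr ω (hG' _ hω)
                have La := hL' _ (hB₁ _ ha) k
                have Lb := hL' _ (hB₁ _ hb) k
                have Sa := hL _ (hB₁ _ ha) k
                have Sb := hL _ (hB₁ _ hb) k
                rw [pa] at La Sa
                rw [pb] at Lb Sb
                have t1 := pair_slope La Lb hab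
                have t2 := pair_slope Sa Sb hab
                have t3 := heb ω (hG' _ hω) k
                have r1 : (2 : ℝ) ^ q * (1 / 2 ^ l j) ≤ 1 / 2 ^ 4 := pow_small1 hq5
                have r2 : (2 : ℝ) ^ q * (1 / 2 ^ lp) ≤ 1 / 2 ^ 12 := pow_small1 n1
                have t4 := abs_sub_le (ej (Fam.pt F ω) k)
                  ((F.d ωa k - F.d ωb k) / (F.d ωa i₀ - F.d ωb i₀)) (es (Fam.pt F ω) k)
                rw [abs_sub_comm] at t1
                have t5 := abs_sub_abs_le_abs_sub (ej (Fam.pt F ω) k) (es (Fam.pt F ω) k)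
                change |ej (Fam.pt F ω) k| ≤ 2
                have r3 : (4 : ℝ) * 2 ^ q * (1 / 2 ^ l j) ≤ 4 * (1 / 2 ^ 4) := by
                  rw [mul_assoc]
                  exact mul_le_mul_of_nonneg_left r1 (by norm_num)
                have r4 : (4 : ℝ) * 2 ^ q * (1 / 2 ^ lp) ≤ 4 * (1 / 2 ^ 12) := by
                  rw [mul_assoc]
                  exact mul_le_mul_of_nonneg_left r2 (by norm_num)
                have r5 : (4 : ℝ) * (1 / 2 ^ 4) = 1 / 4 := by norm_num
                have r6 : (4 : ℝ) * (1 / 2 ^ 12) ≤ 1 / 4 := by norm_num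
                linarith only [hx0, hx2, t1, t2, t3, r1, r2, t4, t5])
        -- the pairs
        exact by
         have hAG : Pe F.p A ≤ 2 * kcs ^ (N + 1) * Pe F.p G := by
           calc Pe F.p A ≤ 2 * Pe F.p B₁ := hPB₁
             _ ≤ 2 * (kcs ^ (N + 1) * Pe F.p G) := mul_le_mul_of_nonneg_left hPG (by norm_num)
             _ = _ := by ring
         obtain ⟨B, hB, hPB, hpr⟩ := hsp J hJ1 F G (g5 G (hG.trans hB₁) hAG) q hqJ hq1 hqh
         rw [e2] at hPB
         have hBA : Sub B A := hB.trans (hG.trans hB₁)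
         have hfin : Pe F.p A ≤ 2 * (kcs ^ (N + 1) * 2) * Pe F.p B := by
           have h1 : Pe F.p G ≤ 2 * Pe F.p B := by linarith only [hPB]
           calc Pe F.p A ≤ 2 * kcs ^ (N + 1) * Pe F.p G := hAG
             _ ≤ 2 * kcs ^ (N + 1) * (2 * Pe F.p B) := mul_le_mul_of_nonneg_left h1 (by linarith only [hx0, hx2, hkN])
             _ = _ := by ring
         refine Pool.S6K.stb_part (hSb 0) hBA (by linarith only [hx0, hx2, hkN]) hfin (hJ₂ J hJ2) (Pe_nonneg F.isLaw A) ?_
         suffices hgoal : RCP i₀ N Pu w V' T' (fun _ => 0) wL kap HN F B by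
           rw [hPu, hw, hV', hT', hwL, hkap, hHN] at hgoal
           exact hgoal
         have hlab' : ∀ j, ∃ z : F.Ω → Pln, (j ≤ N → Lb3 F B i₀ iu iN (w j) (l j) (w j + l j) z) ∧
             ∃ ψ : ((Fin 3 → ℝ) × (Fin 3 → ℝ)) × F.ζ × ℕ → Pln, ∀ ω, z ω = ψ (slam F (w j) ω) := by
           intro j
           by_cases hj : j ≤ N
           · obtain ⟨y, t1, ⟨φ, t2⟩, ψ, t3⟩ := hlab j (by omega)
             refine ⟨fun ω => ψ (slam F (w j) ω), fun _ => ⟨hi, fun ω hω => ?_, ⟨φ, fun ω hω => ?_⟩,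
               ψ, fun ω _ => rfl⟩, ψ, fun ω => rfl⟩
             · rw [← t3 ω (hB _ hω)]
               exact t1 ω (hB _ hω)
             · rw [← t3 ω (hB _ hω)]
               exact t2 ω (hB _ hω)
           · exact ⟨fun _ => default, fun h => absurd h hj, fun _ => default, fun _ => rfl⟩
         choose z hz' hzs using hlab'
         obtain ⟨α, hα⟩ := dir_fn (B := B) hpr
         exact by
          have hFL : OnL i₀ (1 / 2 ^ He) (Fam.pt F) F.d B e' n' := fun ω hω j => hF.on ω (hBA _ hω) j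
          obtain ⟨-, hαL⟩ := dir_onL hα hFL
          obtain ⟨hαs, -⟩ := dir_onL hα (hL.sub hBA)
          have hαb : ∀ ω, B ω → ∀ j, |α (Fam.pt F ω) j| ≤ 5 / 4 := by
            intro ω hω j
            have h1 := hαs ω hω j
            have h2 := heb ω (hG _ (hB _ hω)) j
            have r2 : (2 : ℝ) ^ q * (1 / 2 ^ lp) ≤ 1 / 2 ^ 12 := pow_small1 n1
            have r4 : (4 : ℝ) * 2 ^ q * (1 / 2 ^ lp) ≤ 4 * (1 / 2 ^ 12) := by
              rw [mul_assoc]
              exact mul_le_mul_of_nonneg_left r2 (by norm_num)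
            have h3 := abs_sub_abs_le_abs_sub (α (Fam.pt F ω) j) (es (Fam.pt F ω) j)
            norm_num at r4
            linarith only [hx0, hx2, h1, h2, r2, h3]
          have hPu5 : (5 : ℝ) * 2 ^ q * (1 / 2 ^ He) ≤ 1 / 2 ^ Pu := by
            have h1 := pow_mid n5
            have h2 : (0 : ℝ) < 2 ^ q * (1 / 2 ^ He) := by positivity
            linarith only [h1, h2]
          obtain ⟨ψ, hψ⟩ := hF.slm
          refine ⟨iu, iN, α, n', fun v => n' v iN, z, s, c', hi, hαL.mono hPu5, hαb,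
            fun j hj ω hω => ?_, fun j hj => (hz' j hj).yp, fun j hj => hzs j, fun j hj ω hω => ?_,
            fun j hj ω hω => ?_, fun ω hω => ?_, fun ω hω => ?_, fun ω hω => ?_, ⟨ψ, hψ⟩,
            fun j hj ω hω => ?_, fun ω hω => ?_⟩
          · have h1 := (hz' j hj).inc ω hω
            have i1 : V' j ≤ l j := by
              by_cases h : 0 < V j
              · have := n3 j hj h
                omega
              · rw [hV']
                beta_reduce
                rw [Nat.floor_of_nonpos (mul_nonpos_of_nonpos_of_nonneg (not_lt.1 h) hJ0)]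
                exact Nat.zero_le _
            have i2 : T' j ≤ w j + l j := by
              have := n2 j hj
              omega
            have h2 := inc_lam (by norm_num) i1 h1
            have hp : (2 : ℝ) ^ T' j ≤ 2 ^ (w j + l j) := pow_le_pow_right₀ (by norm_num) i2
            exact ⟨h2.e_le, h2.c_le, h2.s_le, h2.pe, h2.pu,
              h2.pn.trans (div_le_div_of_nonneg_left (by norm_num) (by positivity) hp), h2.ve, h2.vu,
              h2.vn.trans (div_le_div_of_nonneg_left (by positivity) (by positivity) hp)⟩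
          · by_cases h : 0 < V j
            · have h1 := ((hz' j hj).dir hα hω).1
              refine h1.trans ((pow_mid (n3 j hj h)).trans ?_)
              exact div_le_div_of_nonneg_right (by norm_num) (by positivity)
            · have e0 : V' j = 0 := by
                rw [hV']
                exact Nat.floor_of_nonpos (mul_nonpos_of_nonpos_of_nonneg (not_lt.1 h) hJ0)
              rw [e0, pow_zero, div_one]
              have h1 := ((hz' j hj).inc ω hω).e_le
              have h2 := hαb ω hω iu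
              have h3 := abs_sub (z j ω).e (α (Fam.pt F ω) iu)
              linarith only [hx0, hx2, h1, h2, h3]
          · have h1 := ((hz' j hj).dir hα hω).2
            refine h1.trans ?_
            have h2 := pow_mid (n2 j hj)
            have e1 : (8 : ℝ) * 2 ^ q * (2 ^ w j / 2 ^ (w j + l j)) =
                2 ^ w j * (8 * 2 ^ q * (1 / 2 ^ (w j + l j))) := by
              ring
            have e3 : (2 : ℝ) ^ w j / 2 ^ T' j = 2 ^ w j * (1 / 2 ^ T' j) := by ring
            rw [e1, e3]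
            exact mul_le_mul_of_nonneg_left h2 (by positivity)
          · have h1 := hαL ω hω iN
            have h2 := hαL ω hω iu
            have h3 := hF.bs ω (hBA _ hω)
            refine (abs_add_le _ _).trans ?_
            rw [abs_mul]
            have h4 := mul_le_mul h3 (h2.trans hPu5) (abs_nonneg _) zero_le_one
            have h5 : (1 : ℝ) / 2 ^ Pu ≤ 1 / 2 ^ HN := inv_mono n6
            have e3 : (20 : ℝ) / 2 ^ HN = 20 * (1 / 2 ^ HN) := by ring
            have h6 : (0 : ℝ) < 1 / 2 ^ HN := by positivity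
            rw [e3]
            linarith only [hPu5, h1, h4, h5, h6, h1.trans hPu5]
          · exact (hF.bs ω (hBA _ hω)).trans (by norm_num)
          · exact (hF.bc ω (hBA _ hω)).trans (by norm_num)
          · have h1 := hF.bs ω (hBA _ hω)
            have h2 := ((hz' j hj).inc ω hω).s_le
            have h3 := abs_sub (s ω) (z j ω).s
            rw [pow_zero, div_one]
            linarith only [hx0, hx2, h1, h2, h3]
          · obtain ⟨ωa, ωb, ha, hb, pa, pb, hab, hj⟩ := hα ω hω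
            have h1 := hF.pair le_rfl (hBA _ hω) (hBA _ ha) (hBA _ hb) pa pb hab
            rw [hj iu, hj iN]
            have h2 := pow_smallk n4
            have h3 : (0 : ℝ) ≤ 8 * 2 ^ q * (12 * 1 ^ 2 / 2 ^ rr) := by positivity
            have h4 : (0 : ℝ) < 1 / 2 ^ kap := by positivity
            linarith only [h1, h2, h4]

end Pool.S6C
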