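import Pool.Agent.H41.S6H.Rc4
import Pool.Agent.H72.S6B.Stm2

/-!
# The frames near the window `W g`, one family
-/

set_option autoImplicit false

namespace Pool.S6C

open Finset Real
open Pool.Agent.H49.Ent Pool.Agent.H32.Dense Pool.STK Pool.KA Pool.KSAT Pool.K2S Pool.PB Pool.KS6
  Pool.S6F Pool.S6B Pool.UST

/-- The other order of the labels. -/
theorem RCP.rev {J : ℕ} {F : Fam 3 J} {A : F.Ω → Prop} {i₀ : Fin 3} {N Pu : ℕ}
    {w V T Hc : ℕ → ℕ} {wl kap HN : ℕ}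
    (h : RCP i₀ N Pu (fun j => w (N - j)) (fun j => V (N - j)) (fun j => T (N - j))
      (fun j => Hc (N - j)) wl kap HN F A) : RCP i₀ N Pu w V T Hc wl kap HN F A := by
  obtain ⟨iu, iN, e, n, nN, z, s, c, h⟩ := h
  have hr : ∀ j ≤ N, N - (N - j) = j := fun j hj => by omega
  refine ⟨iu, iN, e, n, nN, fun j => z (N - j), s, c, h.hi, h.ln, h.eb, fun j hj ω hω => ?_,
    fun j hj => h.zp (N - j) (Nat.sub_le _ _), fun j hj => ?_, fun j hj ω hω => ?_,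
    fun j hj ω hω => ?_, h.on2, h.bs, h.bc, h.slm, fun j hj ω hω => ?_, h.k2⟩
  · have := h.inc (N - j) (Nat.sub_le _ _) ω hω
    beta_reduce at this
    rwa [hr j hj] at this
  · have := h.zs (N - j) (Nat.sub_le _ _)
    beta_reduce at this
    rwa [hr j hj] at this
  · have := h.ze (N - j) (Nat.sub_le _ _) ω hω
    beta_reduce at this
    rwa [hr j hj] at this
  · have := h.zc (N - j) (Nat.sub_le _ _) ω hω
    beta_reduce at this
    rwa [hr j hj] at this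
  · have := h.k1 (N - j) (Nat.sub_le _ _) ω hω
    beta_reduce at this
    rwa [hr j hj] at this

/-- The index of the mesh window below `v`. -/
noncomputable def ixw (u : ℕ → ℚ) (N J v : ℕ) : ℕ :=
  Nat.findGreatest (fun i => (u i : ℝ) * J ≤ v) N

theorem ixw_le (u : ℕ → ℚ) (N J v : ℕ) : ixw u N J v ≤ N := Nat.findGreatest_le N

theorem ixw_spec (u : ℕ → ℚ) (N J v : ℕ) (h : (u 0 : ℝ) * J ≤ v) :
    (u (ixw u N J v) : ℝ) * J ≤ v :=
  Nat.findGreatest_spec (P := fun i => (u i : ℝ) * J ≤ v) (Nat.zero_le N) h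

theorem ixw_max (u : ℕ → ℚ) (N J v j : ℕ) (hj : j ≤ N) (h : (u j : ℝ) * J ≤ v) :
    j ≤ ixw u N J v := Nat.le_findGreatest hj h

theorem ixw_mono (u : ℕ → ℚ) (N J : ℕ) {v v' : ℕ} (h : v ≤ v') :
    ixw u N J v ≤ ixw u N J v' := by
  refine Nat.findGreatest_mono_left (fun i h1 => ?_) N
  have h2 : (v : ℝ) ≤ v' := by exact_mod_cast h
  exact le_trans h1 h2

theorem pow_clo {a b k : ℕ} {x : ℝ} (hx : 0 ≤ x) (h : a ≤ b + k) :
    x / 2 ^ b ≤ x * 2 ^ k / 2 ^ a := by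
  rw [div_le_div_iff₀ (by positivity) (by positivity), mul_assoc, ← pow_add]
  refine mul_le_mul_of_nonneg_left ?_ hx
  exact pow_le_pow_right₀ (by norm_num) (by omega)

/-- **The frames near the window `w₀`**, one family. -/
theorem bfr_of {J : ℕ} {F : Fam 3 J} {A : F.Ω → Prop} {i₀ : Fin 3} {rot th : ℚ → ℝ}
    {w₀ v₀ v R₀ qm L e y κ pu hN : ℝ} {wq st : ℚ} {N : ℕ} {u : ℕ → ℚ} {T M : ℕ → ℝ}
    (h : RCP i₀ N ⌊pu * J⌋₊ (fun j => ⌊(u j : ℝ) * J⌋₊) (fun j => ⌊(rot (u j) - y) * J⌋₊)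
      (fun j => ⌊T j * J⌋₊) (fun j => ⌊M j * J⌋₊) ⌊(wq : ℝ) * J⌋₊ ⌊κ * J⌋₊ ⌊hN * J⌋₊ F A)
    (hu : ∀ j, u j = wq + j * st) (hst : 0 < st) (hwq0 : 0 ≤ wq) (hwq1 : w₀ - L ≤ wq)
    (hwq2 : wq + y ≤ w₀ - L / 2) (huN : w₀ + L ≤ u N) (hwL : w₀ + L ≤ 1)
    (hrot0 : ∀ j ≤ N, 0 ≤ rot (u j)) (hrm : ∀ i j, i ≤ j → j ≤ N → rot (u i) ≤ rot (u j))
    (hrs : ∀ j ≤ N, |rot (u j) - v₀ - v * (u j - w₀)| ≤ e * L / 8)
    (hT : ∀ j ≤ N, th (u j) - 2 * y ≤ T j)
    (hM : ∀ j ≤ N, th (u j) - u j - rot (u j) - 2 * y ≤ M j)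
    (hH : ∀ j ≤ N, 0 ≤ th (u j) - u j - rot (u j)) (hκ : ∀ j ≤ N, th (u j) - u j ≤ κ)
    (hR₀ : R₀ + y ≤ κ) (hy : 0 < y) (hye : 16 * y ≤ e * L) (hv : 0 ≤ v)
    (hstv : (st : ℝ) * (v + 1) ≤ e * L / 8) (hyJ : 32 ≤ y * J) (hsJ : 1 ≤ (st : ℝ) * J) (hyL : 4 * y ≤ L)
    (hqm : 0 ≤ qm) (room1 : rot (u N) + qm + L + y ≤ pu) (room2 : κ + qm + L + y ≤ hN)
    (room3 : (w₀ + L) + rot (u N) + qm + L + y ≤ 1) (room4 : (w₀ + L) + κ + qm + L + y ≤ 1) :
    ∃ (sg : Fin 3 → Fin 3) (wa wb : ℕ) (vp : ℕ → ℕ) (kap Hu HN : ℕ)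
      (al nu kN nN : (Fin 3 → ℤ) × (ℕ × F.ζ) → ℝ) (a : ℕ → F.Ω → ℝ) (s t : F.Ω → ℝ)
      (z : ℕ → F.Ω → Pln) (E : ℝ),
      BFr F A i₀ rot th w₀ v₀ v R₀ qm L e wq (N + 1) u sg wa wb vp kap Hu HN al nu kN nN a s t z
        20 20 E := by
  obtain ⟨iu, iN, ee, n, nN, z, s, c, h⟩ := h
  have hJ0 : (0 : ℝ) ≤ J := Nat.cast_nonneg J
  have hJy : y * J ≤ e * L * J / 16 := by
    have := mul_le_mul_of_nonneg_right hye hJ0
    linarith only [this]
  have hst' : (0 : ℝ) < st := by exact_mod_cast hst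
  have hwq0' : (0 : ℝ) ≤ wq := by exact_mod_cast hwq0
  have hur : ∀ j, (u j : ℝ) = wq + j * st := fun j => by
    rw [hu j]
    push_cast
    ring
  have hu00 : (u 0 : ℝ) = wq := by
    rw [hur 0]
    push_cast
    ring
  have hui : ∀ i j, i ≤ j → (u i : ℝ) ≤ u j := fun i j hij => by
    rw [hur, hur]
    have : (i : ℝ) ≤ j := by exact_mod_cast hij
    nlinarith only [hst', this]
  have hu0r : ∀ j, (0 : ℝ) ≤ u j := fun j => by
    rw [hur]
    positivity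
  obtain ⟨w, hw⟩ : ∃ w : ℕ → ℕ, w = fun j => ⌊(u j : ℝ) * J⌋₊ := ⟨_, rfl⟩
  obtain ⟨V, hV⟩ : ∃ V : ℕ → ℕ, V = fun j => ⌊(rot (u j) - y) * J⌋₊ := ⟨_, rfl⟩
  obtain ⟨Tn, hTn⟩ : ∃ Tn : ℕ → ℕ, Tn = fun j => ⌊T j * J⌋₊ := ⟨_, rfl⟩
  obtain ⟨Hc, hHc⟩ : ∃ Hc : ℕ → ℕ, Hc = fun j => ⌊M j * J⌋₊ := ⟨_, rfl⟩
  obtain ⟨kap, hkap⟩ : ∃ kap : ℕ, kap = ⌊κ * J⌋₊ := ⟨_, rfl⟩
  obtain ⟨Hu, hHu⟩ : ∃ Hu : ℕ, Hu = ⌊pu * J⌋₊ := ⟨_, rfl⟩
  obtain ⟨HN, hHN⟩ : ∃ HN : ℕ, HN = ⌊hN * J⌋₊ := ⟨_, rfl⟩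
  rw [← hw, ← hV, ← hTn, ← hHc, ← hkap, ← hHu, ← hHN] at h
  obtain ⟨wa, hwa⟩ : ∃ wa : ℕ, wa = ⌈(wq : ℝ) * J⌉₊ := ⟨_, rfl⟩
  obtain ⟨wb, hwb⟩ : ∃ wb : ℕ, wb = ⌊(w₀ + L) * J⌋₊ := ⟨_, rfl⟩
  obtain ⟨ix, hix⟩ : ∃ ix : ℕ → ℕ, ix = fun v => ixw u N J v := ⟨_, rfl⟩
  obtain ⟨vp, hvp⟩ : ∃ vp : ℕ → ℕ, vp = fun v => ⌊(rot (u (ix v)) - 2 * y) * J⌋₊ := ⟨_, rfl⟩
  have hL0 : 0 < L := by linarith only [hy, hyL]
  have hw₀0 : 0 ≤ w₀ + L := by
    have : (wq : ℝ) + y ≤ w₀ - L / 2 := hwq2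
    linarith only [hwq2, hy, hyL, hwq0']
  -- the windows
  have fwa1 : (wq : ℝ) * J ≤ wa := by rw [hwa]; exact Nat.le_ceil _
  have fwa2 : (wa : ℝ) < wq * J + 1 := by
    rw [hwa]
    exact Nat.ceil_lt_add_one (by positivity)
  have fwb1 : (wb : ℝ) ≤ (w₀ + L) * J := by
    rw [hwb]
    exact Nat.floor_le (mul_nonneg hw₀0 hJ0)
  have fwb2 : (w₀ + L) * J < wb + 1 := by rw [hwb]; exact Nat.lt_floor_add_one _
  have hwbJ : wb ≤ J := by
    have : (w₀ + L) * J ≤ 1 * J := mul_le_mul_of_nonneg_right hwL hJ0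
    have : (wb : ℝ) ≤ J := by linarith only [fwb1, this]
    exact_mod_cast this
  have hix1 : ∀ v, ix v ≤ N := fun v => by rw [hix]; exact ixw_le _ _ _ _
  have hix2 : ∀ v, wa ≤ v → (u (ix v) : ℝ) * J ≤ v := fun v hv1 => by
    rw [hix]
    refine ixw_spec u N J v ?_
    rw [hu00]
    have : (wa : ℝ) ≤ v := by exact_mod_cast hv1
    linarith only [fwa1, this]
  have hix3 : ∀ v, v ≤ wb → (v : ℝ) ≤ (u (ix v) + st) * J := fun v hv2 => by
    rcases Nat.lt_or_ge (ix v) N with hlt | hge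
    · by_contra hcon
      push Not at hcon
      have h1 : (u (ix v + 1) : ℝ) * J ≤ v := by
        have e1 : (u (ix v + 1) : ℝ) = u (ix v) + st := by
          rw [hur, hur]
          push_cast
          ring
        rw [e1]
        exact hcon.le
      have h2 := ixw_max u N J v (ix v + 1) hlt h1
      have h3 : ix v = ixw u N J v := by rw [hix]
      omega
    · have h4 : ix v = N := le_antisymm (hix1 v) hge
      rw [h4]
      have h5 : (v : ℝ) ≤ wb := by exact_mod_cast hv2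
      have h6 : (w₀ + L) * J ≤ u N * J := mul_le_mul_of_nonneg_right huN hJ0
      have h7 : (0 : ℝ) ≤ st * J := by positivity
      linarith only [hwq2, hwL, hy, hsJ, hyL, hwq0', fwb1, h5, h6]
  have hixm : ∀ v v', v ≤ v' → ix v ≤ ix v' := fun v v' hvv => by
    rw [hix]
    exact ixw_mono u N J hvv
  have hixa : ix wa = 0 := by
    by_contra hcon
    have h1 : 1 ≤ ix wa := by omega
    have h2 := hix2 wa le_rfl
    have h3 := hui 1 (ix wa) h1
    have h4 : (u 1 : ℝ) = wq + st := by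
      rw [hur]
      push_cast
      ring
    have h5 : (u 1 : ℝ) * J ≤ u (ix wa) * J := mul_le_mul_of_nonneg_right h3 hJ0
    rw [h4] at h5
    linarith only [hsJ, fwa2, h2, h5]
  -- the digits of the direction
  have fvp : ∀ v, (vp v : ℝ) ≤ rot (u (ix v)) * J := fun v => by
    rw [hvp]
    beta_reduce
    have h1 := hrot0 (ix v) (hix1 v)
    rcases le_total 0 (rot (u (ix v)) - 2 * y) with h2 | h2
    · refine (Nat.floor_le (mul_nonneg h2 hJ0)).trans ?_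
      exact mul_le_mul_of_nonneg_right (by linarith only [hy]) hJ0
    · rw [Nat.floor_of_nonpos (mul_nonpos_of_nonpos_of_nonneg h2 hJ0), Nat.cast_zero]
      exact mul_nonneg h1 hJ0
  have fvp' : ∀ v, (rot (u (ix v)) - 2 * y) * J < vp v + 1 := fun v => by
    rw [hvp]
    exact Nat.lt_floor_add_one _
  have hmono : ∀ v v', wa ≤ v → v ≤ v' → v' ≤ wb → vp v ≤ vp v' := fun v v' _ h2 _ => by
    rw [hvp]
    refine Nat.floor_le_floor (mul_le_mul_of_nonneg_right ?_ hJ0)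
    have := hrm _ _ (hixm v v' h2) (hix1 v')
    linarith only [this]
  have hvV : ∀ v, vp v = 0 ∨ vp v + 1 ≤ V (ix v) := fun v => by
    rcases le_total 0 (rot (u (ix v)) - 2 * y) with h2 | h2
    · right
      have h3 : (vp v : ℝ) ≤ (rot (u (ix v)) - 2 * y) * J := by
        rw [hvp]
        exact Nat.floor_le (mul_nonneg h2 hJ0)
      rw [hV]
      refine Nat.le_floor ?_
      push_cast
      linarith only [hwq2, hwL, hy, hyJ, hyL, hwq0', h3]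
    · left
      rw [hvp]
      exact Nat.floor_of_nonpos (mul_nonpos_of_nonpos_of_nonneg h2 hJ0)
  have hwix : ∀ v, wa ≤ v → w (ix v) ≤ v := fun v hv1 => by
    have h1 := hix2 v hv1
    rw [hw]
    beta_reduce
    exact Nat.floor_le_of_le h1
  obtain ⟨a, hUF, ha⟩ := h.ufi (wa := wa) (wb := wb) (vp := vp) (ix := ix) (by
      rw [hwa]
      exact Nat.floor_le_ceil _) hwbJ hmono
    (fun v h1 h2 => ⟨hix1 v, hwix v h1, hvV v⟩)
  -- the constant
  obtain ⟨k, hk⟩ : ∃ k : ℕ, k = ⌈3 * y * J⌉₊ + 10 := ⟨_, rfl⟩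
  have fk1 : 3 * y * J + 10 ≤ k := by
    rw [hk]
    push_cast
    have := Nat.le_ceil (3 * y * J)
    linarith only [this]
  have fk2 : (k : ℝ) ≤ 3 * y * J + 11 := by
    rw [hk]
    push_cast
    have := Nat.ceil_lt_add_one (a := 3 * y * J) (by positivity)
    linarith only [this]
  have fV : ∀ j, (rot (u j) - y) * J < V j + 1 := fun j => by
    rw [hV]; exact Nat.lt_floor_add_one _
  have fHc : ∀ j, M j * J < Hc j + 1 := fun j => by
    rw [hHc]; exact Nat.lt_floor_add_one _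
  have fT : ∀ j, T j * J < Tn j + 1 := fun j => by
    rw [hTn]; exact Nat.lt_floor_add_one _
  have fw : ∀ j, (w j : ℝ) ≤ u j * J := fun j => by
    rw [hw]
    exact Nat.floor_le (mul_nonneg (hu0r j) hJ0)
  have fkap' : κ * J < kap + 1 := by rw [hkap]; exact Nat.lt_floor_add_one _
  -- the closeness of the planes
  have clo : ∀ j ≤ N, ∀ ω, A ω →
      |-s ω - -(z j ω).s| ≤ 2 ^ (k + 6) / 2 ^ ⌊(th (u j) - u j - rot (u j)) * J⌋₊ ∧
      |(-c ω - -(z j ω).c) + (-s ω - -(z j ω).s) * (z j ω).e| ≤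
        2 ^ (k + 6) / 2 ^ ⌊(th (u j) - u j) * J⌋₊ := by
    intro j hj ω hω
    obtain ⟨g1, g2⟩ := h.clo hj hω
    have hHj := hH j hj
    have hr0 := hrot0 j hj
    have hMj := mul_le_mul_of_nonneg_right (hM j hj) hJ0
    have hTj := mul_le_mul_of_nonneg_right (hT j hj) hJ0
    have hκj := mul_le_mul_of_nonneg_right (hκ j hj) hJ0
    have f1 := fHc j
    have f2 := fV j
    have f3 := fT j
    have f4 := fw j
    have e1 : (⌊(th (u j) - u j - rot (u j)) * J⌋₊ : ℝ) ≤ (th (u j) - u j - rot (u j)) * J :=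
      Nat.floor_le (mul_nonneg hHj hJ0)
    have e2 : (⌊(th (u j) - u j) * J⌋₊ : ℝ) ≤ (th (u j) - u j) * J :=
      Nat.floor_le (mul_nonneg (by linarith only [hHj, hr0]) hJ0)
    have b1 : ⌊(th (u j) - u j - rot (u j)) * J⌋₊ ≤ Hc j + k := by
      have : ((⌊(th (u j) - u j - rot (u j)) * J⌋₊ : ℕ) : ℝ) ≤ ((Hc j + k : ℕ) : ℝ) := by
        push_cast
        linarith only [hwq2, hwL, hy, hyJ, hyL, hwq0', fk1, hMj, f1, e1]
      exact_mod_cast this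
    have b2 : ⌊(th (u j) - u j) * J⌋₊ + w j ≤ Tn j + k := by
      have : ((⌊(th (u j) - u j) * J⌋₊ + w j : ℕ) : ℝ) ≤ ((Tn j + k : ℕ) : ℝ) := by
        push_cast
        linarith only [hwq2, hwL, hy, hyJ, hyL, hwq0', fk1, hTj, f3, f4, e2]
      exact_mod_cast this
    have b3 : ⌊(th (u j) - u j) * J⌋₊ ≤ kap + k := by
      have : ((⌊(th (u j) - u j) * J⌋₊ : ℕ) : ℝ) ≤ ((kap + k : ℕ) : ℝ) := by
        push_cast
        linarith only [hwq2, hwL, hy, hyJ, hyL, hwq0', fk1, fkap', hκj, e2]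
      exact_mod_cast this
    have b4 : ⌊(th (u j) - u j) * J⌋₊ ≤ Hc j + V j + k := by
      have : ((⌊(th (u j) - u j) * J⌋₊ : ℕ) : ℝ) ≤ ((Hc j + V j + k : ℕ) : ℝ) := by
        push_cast
        linarith only [hwq2, hwL, hy, hyL, hwq0', fk1, hMj, f1, f2, e2]
      exact_mod_cast this
    have p6 : (2 : ℝ) ^ (k + 6) = 64 * 2 ^ k := by
      rw [pow_add]
      norm_num
      ring
    refine ⟨g1.trans ?_, g2.trans ?_⟩
    · refine (pow_clo (by norm_num) b1).trans ?_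
      refine div_le_div_of_nonneg_right ?_ (by positivity)
      rw [p6]
      have : (0 : ℝ) < 2 ^ k := by positivity
      linarith only [this]
    · obtain ⟨m, hm⟩ : ∃ m, m = ⌊(th (u j) - u j) * J⌋₊ := ⟨_, rfl⟩
      rw [← hm] at b2 b3 b4 ⊢
      have c1 : (2 : ℝ) ^ w j / 2 ^ Tn j ≤ 2 ^ k / 2 ^ m := by
        rw [div_le_div_iff₀ (by positivity) (by positivity), ← pow_add, ← pow_add]
        exact pow_le_pow_right₀ (by norm_num) (by omega)
      have c2 : (1 : ℝ) / 2 ^ kap ≤ 1 * 2 ^ k / 2 ^ m := pow_clo (by norm_num) b3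
      have c3 : (9 : ℝ) / 2 ^ Hc j * (4 / 2 ^ V j) ≤ 36 * 2 ^ k / 2 ^ m := by
        have e3 : (9 : ℝ) / 2 ^ Hc j * (4 / 2 ^ V j) = 36 / 2 ^ (Hc j + V j) := by
          rw [pow_add]
          field_simp
          norm_num
        rw [e3]
        exact pow_clo (by norm_num) b4
      have e4 : (2 : ℝ) ^ (k + 6) / 2 ^ m = 64 * (2 ^ k / 2 ^ m) := by
        rw [p6]
        ring
      have e5 : (36 : ℝ) * 2 ^ k / 2 ^ m = 36 * (2 ^ k / 2 ^ m) := by ring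
      have e6 : (1 : ℝ) * 2 ^ k / 2 ^ m = 2 ^ k / 2 ^ m := by rw [one_mul]
      rw [e4]
      rw [e5] at c3
      rw [e6] at c2
      have : (0 : ℝ) < 2 ^ k / 2 ^ m := by positivity
      linarith only [c1, c2, c3, this]
  have hE2 : (2 : ℝ) ≤ 2 ^ (k + 6) := by
    calc (2 : ℝ) = 2 ^ 1 := (pow_one _).symm
      _ ≤ 2 ^ (k + 6) := pow_le_pow_right₀ (by norm_num) (by omega)
  have clo2 : ∀ v, wa ≤ v → v ≤ wb → ∀ ω, A ω →
      |a v ω - fra (z (ix v)) ω| ≤ 2 ^ (k + 6) / 2 ^ vp v ∧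
      |-s ω - frs (z (ix v)) ω| ≤ 2 ^ (k + 6) /
        2 ^ ⌊(th (u (ix v)) - u (ix v) - rot (u (ix v))) * J⌋₊ ∧
      |(-c ω - frt (z (ix v)) ω) + (-s ω - frs (z (ix v)) ω) * fra (z (ix v)) ω| ≤
        2 ^ (k + 6) / 2 ^ ⌊(th (u (ix v)) - u (ix v)) * J⌋₊ := by
    intro v h1 h2 ω hω
    have g1 := clo (ix v) (hix1 v) ω hω
    refine ⟨?_, g1.1, g1.2⟩
    exact (ha v h1 h2 ω hω).trans (div_le_div_of_nonneg_right hE2 (by positivity))
  have hab1 : (wa : ℝ) ≤ (w₀ - L / 2) * J := by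
    have h3 : ((wq : ℝ) + y) * J ≤ (w₀ - L / 2) * J := mul_le_mul_of_nonneg_right hwq2 hJ0
    linarith only [hwq2, hwL, hy, hyJ, hyL, hwq0', fwa2, h3]
  have hab2 : (w₀ + L / 2) * J ≤ wb := by
    have h3 : 4 * y * J ≤ L * J := mul_le_mul_of_nonneg_right hyL hJ0
    linarith only [hwq2, hwL, hy, hyJ, hyL, hwq0', fwb2, h3]
  have hab : wa ≤ wb := by
    have h3 : 0 ≤ L * J := by positivity
    have : (wa : ℝ) ≤ wb := by linarith only [fwb1, hab1, hab2]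
    exact_mod_cast this
  have hκ0 : 0 ≤ κ := by
    have h1 := hκ 0 (Nat.zero_le _)
    have h2 := hH 0 (Nat.zero_le _)
    have h3 := hrot0 0 (Nat.zero_le _)
    linarith only [h1, h2, h3]
  have fkap : (kap : ℝ) ≤ κ * J := by
    rw [hkap]
    exact Nat.floor_le (by positivity)
  have fHu : pu * J < Hu + 1 := by rw [hHu]; exact Nat.lt_floor_add_one _
  have fHN : hN * J < HN + 1 := by rw [hHN]; exact Nat.lt_floor_add_one _
  have fq : (⌈qm * J⌉₊ : ℝ) < qm * J + 1 := Nat.ceil_lt_add_one (by positivity)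
  have fvb : (vp wb : ℝ) ≤ rot (u N) * J := by
    refine (fvp wb).trans ?_
    exact mul_le_mul_of_nonneg_right (hrm _ _ (hix1 wb) le_rfl) hJ0
  have hstL : (st : ℝ) ≤ e * L / 8 := by
    have : 0 ≤ (st : ℝ) * v := mul_nonneg hst'.le hv
    linarith only [hstv, this]
  have heL : 0 < e * L := by linarith only [hy, hye]
  refine ⟨sg3 i₀ iu iN, wa, wb, vp, kap, Hu, HN, fun x => ee x iu, fun x => n x iu,
    fun x => ee x iN, nN, a, fun ω => -s ω, fun ω => -c ω, z, 2 ^ (k + 6), hUF, rfl,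
    fun ω hω => ⟨(h.eb ω hω iu).trans (by norm_num), (h.eb ω hω iN).trans (by norm_num)⟩,
    ?_, fwb1, hab1, hab2, fun x h1 h2 => ?_, ?_, ⟨?_, ?_, ?_, ?_⟩, fun j hj => ?_, by linarith only [hwq2, hy, hyL, hqm, room4, hwq0', hE2, hκ0], ?_,
    fun x h1 h2 => ⟨ix x, by have := hix1 x; omega, hix2 x h1, ?_, fvp x, clo2 x h1 h2⟩,
    ⟨by omega, ?_, ?_, fun ω hω => ?_⟩⟩
  · have := mul_le_mul_of_nonneg_right hwq1 hJ0
    linarith only [fwa1, this]
  · have g1 := fvp x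
    have g2 := fvp' x
    have g3 := abs_le.1 (hrs (ix x) (hix1 x))
    have g4 := mul_le_mul_of_nonneg_right g3.1 hJ0
    have g5 := mul_le_mul_of_nonneg_right g3.2 hJ0
    have g6 := hix2 x h1
    have g7 := hix3 x h2
    have g8 : 0 ≤ v * ((x : ℝ) - u (ix x) * J) := mul_nonneg hv (by linarith only [g6])
    have g9 : v * ((x : ℝ) - u (ix x) * J) ≤ v * (st * J) :=
      mul_le_mul_of_nonneg_left (by linarith only [g7]) hv
    have g10 := mul_le_mul_of_nonneg_right hstv hJ0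
    have g11 : 0 ≤ (st : ℝ) * J := by positivity
    have g12 : 0 ≤ e * L * J := by positivity
    rw [abs_le]
    constructor
    · linarith only [hwq2, hy, hyJ, hsJ, hyL, hqm, room4, hJy, hwq0', hκ0, g2, g4, g9, g10]
    · linarith only [hwq2, hy, hyJ, hyL, hqm, room4, hJy, hwq0', hκ0, g1, g5, g8]
  · have := mul_le_mul_of_nonneg_right hR₀ hJ0
    linarith only [hwq2, hy, hyJ, hyL, hqm, room4, hwq0', fkap', hκ0, this]
  · have := mul_le_mul_of_nonneg_right room1 hJ0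
    linarith only [hwq2, hy, hyJ, hyL, hqm, room4, hwq0', hκ0, fHu, fq, fvb, this]
  · have := mul_le_mul_of_nonneg_right room2 hJ0
    linarith only [hwq2, hy, hyJ, hyL, hqm, room4, hwq0', hκ0, fkap, fHN, fq, this]
  · have := mul_le_mul_of_nonneg_right room3 hJ0
    linarith only [hwq2, hy, hyJ, hyL, hqm, room4, hwq0', fwb1, hκ0, fq, fvb, this]
  · have := mul_le_mul_of_nonneg_right room4 hJ0
    linarith only [hwq2, hy, hyJ, hyL, hqm, room4, hwq0', fwb1, hκ0, fkap, fq, this]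
  · have hj' : j ≤ N := by omega
    have g1 : ⌊(rot (u j) - e * L) * J⌋₊ ≤ V j := by
      rw [hV]
      exact Nat.floor_le_floor (mul_le_mul_of_nonneg_right (by linarith only [hy, hye]) hJ0)
    have g2 : ⌊(th (u j) - e * L) * J⌋₊ ≤ Tn j := by
      rw [hTn]
      refine Nat.floor_le_floor (mul_le_mul_of_nonneg_right ?_ hJ0)
      have := hT j hj'
      linarith only [hy, hye, this]
    have g3 := h.nl hj' g1 g2
    rw [hw] at g3
    exact g3
  · rw [Real.log_pow]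
    have l2 : Real.log 2 ≤ 1 := by
      have := Real.log_two_lt_d9
      linarith only [hwq2, hy, hyL, hqm, room4, hwq0', hκ0, this]
    have l0 : (0 : ℝ) ≤ ((k + 6 : ℕ) : ℝ) := Nat.cast_nonneg _
    have l1 := mul_le_mul_of_nonneg_left l2 l0
    push_cast at l1 ⊢
    linarith only [hwq2, hy, hyJ, hyL, hqm, room4, hJy, hwq0', fk2, hκ0, l1]
  · have g7 := hix3 x h2
    have g8 : ((u (ix x) : ℝ) + st) * J ≤ (u (ix x) + e * L) * J :=
      mul_le_mul_of_nonneg_right (by linarith only [hy, hye, hstL]) hJ0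
    exact g7.trans g8
  · rw [hu 0]
    simp
  · have := fvp wa
    rwa [hixa] at this
  · have := clo2 wa le_rfl hab ω hω
    rwa [hixa] at this

end Pool.S6C
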