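import Pool.Agent.H41.S6H.Rc6
import Pool.Agent.H41.S6H.Rc7
import Pool.Agent.H33.S6.Zof

/-!
# The frames near the window `W g`
-/

set_option autoImplicit false

namespace Pool.S6C

open Finset Real
open Pool.Agent.H49.Ent Pool.Agent.H32.Dense Pool.STK Pool.KA Pool.KSAT Pool.K2S Pool.PB Pool.KS6
  Pool.S6F Pool.S6B Pool.UST Pool.Sel51

/-- The numbers at the window: the natural planks are at least as thick as the tubes. -/
theorem Loc.v0_le2 {S : PCl 3} {a R h₁ : ℝ} {i₀ : Fin 3} {c s₂ : ℝ} {r : ℝ → ℝ} {D : Set ℝ}
    {σ : ℝ → Row} {act : ℚ → ℝ} {K : Set ℝ} {W : ℝ → ℝ} {v₁ t : ℚ}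
    {e₁ Q₀ P g v₀ v ρ a₀ α : ℝ} (hC : Cs S a R h₁ i₀ c s₂ r D σ)
    (hL : Loc S i₀ c s₂ r D σ act K W v₁ t e₁ Q₀ P g v₀ v ρ a₀ α) :
    0 ≤ v₀ ∧ W g + v₀ ≤ g := by
  have hR1 := hC.row 1 one_pos le_rfl hC.D1
  have hW1 := hL.W1
  have hW0 := hL.w0
  have hg1 : g < 1 := (hL.pr g hL.thk).lt1
  have hv := hL.v0
  have hρ := hL.ρ0
  have key : ∀ e : ℝ, 0 < e → e ≤ 1 - g → -e ≤ v₀ ∧ W g + v₀ ≤ g + e := by
    intro e he heg
    obtain ⟨δ₁, hδ₁, h1⟩ := hL.rot 1 one_pos
    obtain ⟨δ₂, hδ₂, h2⟩ := hL.th 1 one_pos
    have hC0 : 0 < 8 * (v + ρ + 2) := by linarith only [hW1, hW0, hv, hρ]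
    obtain ⟨d, hd⟩ : ∃ d, d = min (min δ₁ δ₂) (min (min (W g) (1 - W g))
      (e / (8 * (v + ρ + 2)))) := ⟨_, rfl⟩
    have hd0 : 0 < d := by
      rw [hd]
      exact lt_min (lt_min hδ₁ hδ₂) (lt_min (lt_min hW0 (by linarith only [hW1])) (div_pos he hC0))
    have d1 : d ≤ δ₁ := by rw [hd]; exact (min_le_left _ _).trans (min_le_left _ _)
    have d2 : d ≤ δ₂ := by rw [hd]; exact (min_le_left _ _).trans (min_le_right _ _)
    have d3 : d ≤ W g := by
      rw [hd]
      exact (min_le_right _ _).trans ((min_le_left _ _).trans (min_le_left _ _))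
    have d4 : d ≤ 1 - W g := by
      rw [hd]
      exact (min_le_right _ _).trans ((min_le_left _ _).trans (min_le_right _ _))
    have d5 : 8 * (v + ρ + 2) * d ≤ e := by
      have : d ≤ e / (8 * (v + ρ + 2)) := by
        rw [hd]
        exact (min_le_right _ _).trans (min_le_right _ _)
      rw [le_div_iff₀ hC0] at this
      linarith only [this]
    obtain ⟨q, q1, q2⟩ := exists_rat_btwn (show W g < W g + d by linarith only [hd0])
    have q3 : |(q : ℝ) - W g| = q - W g := abs_of_pos (by linarith only [q1])
    have q4 : (0 : ℝ) < (q : ℝ) - W g := by linarith only [q1]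
    have q5 : (q : ℝ) - W g < d := by linarith only [q2]
    have q6 : (0 : ℝ) ≤ q := by linarith only [d3, q1, q2]
    have q7 : (q : ℝ) ≤ 1 := by linarith only [d4, q2]
    have a1 := h1 q (by rw [q3]; linarith only [d1, q2])
    have a2 := h2 q (by rw [q3]; linarith only [d2, q2])
    have a3 : 0 ≤ (σ 1).rot q := num_nonneg hC.ne (hR1.rot q (by exact_mod_cast q6)
      (by exact_mod_cast q7))
    have a4 := trv hC le_rfl hR1 q (by exact_mod_cast q6) q7
    rw [q3, abs_le] at a1 a2
    have m1 : v * ((q : ℝ) - W g) ≤ v * d := mul_le_mul_of_nonneg_left q5.le hv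
    have m2 : ρ * ((q : ℝ) - W g) ≤ ρ * d := mul_le_mul_of_nonneg_left q5.le hρ
    have m3 : 0 ≤ v * ((q : ℝ) - W g) := mul_nonneg hv q4.le
    have m4 : 0 ≤ ρ * ((q : ℝ) - W g) := mul_nonneg hρ q4.le
    have m5 : 0 ≤ v * d := mul_nonneg hv hd0.le
    have m6 : 0 ≤ ρ * d := mul_nonneg hρ hd0.le
    refine ⟨by linarith only [d5, q1, q2, a1, a3, m1, m2, m3, m4, a1.1, a1.2], ?_⟩
    rcases le_total ((q : ℝ) + (σ 1).rot q) 1 with h | h
    · rw [min_eq_left h] at a4
      linarith only [d5, q1, q2, a1, a2, a4, m1, m2, m3, m4, a1.1, a1.2, a2.1, a2.2]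
    · rw [min_eq_right h] at a4
      linarith only [hg1, heg, d5, q2, a2, a4, m1, m2, m3, a1.1, a1.2, a2.1, a2.2]
  constructor
  · by_contra hcon
    push Not at hcon
    have := (key (min (1 - g) (-v₀ / 2)) (lt_min (by linarith only [hg1]) (by linarith only [hcon]))
      (min_le_left _ _)).1
    have h3 := min_le_right (1 - g) (-v₀ / 2)
    linarith only [hcon, this, h3]
  · by_contra hcon
    push Not at hcon
    have := (key (min (1 - g) ((W g + v₀ - g) / 2)) (lt_min (by linarith) (by linarith only [hcon]))
      (min_le_left _ _)).2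
    have h3 := min_le_right (1 - g) ((W g + v₀ - g) / 2)
    linarith only [hcon, this, h3]

/-- **The frames exist.** -/
theorem frmraw_of {Γ : ℝ → ℝ → Prop} (hΓ : ∀ v ρ : ℝ, Γ v ρ → v = ρ) : FrmRaw Γ := by
  intro S a R h₁ i₀ c s₂ r D σ hC act K W v₁ t e₁ Q₀ P g v₀ v ρ a₀ α hL hG pe rc Rc hpe hpi hrc
    hcont hRc
  obtain rfl : v = ρ := hΓ v ρ hG
  have hR1 := hC.row 1 one_pos le_rfl hC.D1
  have hA := hL.adm
  have hW0 := hL.w0
  have hW1 := hL.W1
  have hP1 : P < 1 := (hL.pr P hL.row).lt1
  have hgP := hL.gP
  have hv := hL.v0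
  obtain ⟨hv0, hv0g⟩ := hL.v0_le2 hC
  have hgam := hL.gam
  have hsmall := hL.small
  have he1 := hA.e0
  have hab : W g < v₁ := hA.ab g hL.thk
  have hv11 : (v₁ : ℝ) < 1 := by exact_mod_cast hA.v1
  refine ⟨20, 20, 1, by norm_num, by norm_num, one_pos, fun M hM e he => ?_⟩
  -- the room
  obtain ⟨H, hH⟩ : ∃ H, H = g - W g - v₀ := ⟨_, rfl⟩
  have hH0 : 0 ≤ H := by linarith only [hv0g, hH]
  obtain ⟨H', hH'⟩ : ∃ H', H' = if H = 0 then 1 else H := ⟨_, rfl⟩
  have hH'0 : 0 < H' := by
    rw [hH']
    split_ifs with h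
    · exact one_pos
    · exact lt_of_le_of_ne hH0 (Ne.symm h)
  obtain ⟨η, hη⟩ : ∃ η, η = min (min (min ((σ 1).sN v₁ t - (P - W g)) e₁)
    (min (pe - (P - g) - v₀) (Rc - (g - W g)))) (min (min (1 - P) (P - g))
      (min (min (v₁ - W g) (W g)) H')) := ⟨_, rfl⟩
  have hη0 : 0 < η := by
    rw [hη]
    refine lt_min (lt_min (lt_min ?_ he1) (lt_min ?_ ?_)) (lt_min (lt_min ?_ ?_)
      (lt_min (lt_min ?_ hW0) hH'0))
    all_goals linarith
  exact by
   have η1 : η ≤ (σ 1).sN v₁ t - (P - W g) := by
     rw [hη]
     exact (min_le_left _ _).trans ((min_le_left _ _).trans (min_le_left _ _))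
   have η2 : η ≤ e₁ := by
     rw [hη]
     exact (min_le_left _ _).trans ((min_le_left _ _).trans (min_le_right _ _))
   have η3 : η ≤ pe - (P - g) - v₀ := by
     rw [hη]
     exact (min_le_left _ _).trans ((min_le_right _ _).trans (min_le_left _ _))
   have η4 : η ≤ Rc - (g - W g) := by
     rw [hη]
     exact (min_le_left _ _).trans ((min_le_right _ _).trans (min_le_right _ _))
   have η5 : η ≤ 1 - P := by
     rw [hη]
     exact (min_le_right _ _).trans ((min_le_left _ _).trans (min_le_left _ _))
   have η6 : η ≤ P - g := by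
     rw [hη]
     exact (min_le_right _ _).trans ((min_le_left _ _).trans (min_le_right _ _))
   have η7 : η ≤ v₁ - W g := by
     rw [hη]
     exact (min_le_right _ _).trans ((min_le_right _ _).trans ((min_le_left _ _).trans
       (min_le_left _ _)))
   have η8 : η ≤ W g := by
     rw [hη]
     exact (min_le_right _ _).trans ((min_le_right _ _).trans ((min_le_left _ _).trans
       (min_le_right _ _)))
   have η9 : η ≤ H' := by
     rw [hη]
     exact (min_le_right _ _).trans ((min_le_right _ _).trans (min_le_right _ _))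
   -- the slopes
   exact by
    obtain ⟨m, hm⟩ : ∃ m, m = min e 1 := ⟨_, rfl⟩
    have hm0 : 0 < m := by rw [hm]; exact lt_min he one_pos
    have hm1 : m ≤ e := by rw [hm]; exact min_le_left _ _
    have hm2 : m ≤ 1 := by rw [hm]; exact min_le_right _ _
    obtain ⟨δ₁, hδ₁, s1⟩ := hL.rot (m / 64) (by linarith only [hm0])
    obtain ⟨δ₂, hδ₂, s2⟩ := hL.th (m / 64) (by linarith only [hm0])
    obtain ⟨δ₃, hδ₃, s3⟩ := hcont (η / 4) (by linarith only [hη0])
    have hC0 : 0 < 32 * (v + M + 4) := by linarith only [hW0, hP1, hgP, hv, hv0, hv0g, hM]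
    refine ⟨min (min (min δ₁ δ₂) δ₃ / 4) (η / (32 * (v + M + 4))),
      lt_min (by
        have := lt_min (lt_min hδ₁ hδ₂) hδ₃
        linarith only [this]) (div_pos hη0 hC0), fun L hL0 hLL => ?_⟩
    have hL1 : 4 * L ≤ δ₁ := by
      have h1 := hLL.trans (min_le_left _ _)
      have h2 : min (min δ₁ δ₂) δ₃ ≤ δ₁ := (min_le_left _ _).trans (min_le_left _ _)
      linarith only [h1, h2]
    have hL2 : 4 * L ≤ δ₂ := by
      have h1 := hLL.trans (min_le_left _ _)
      have h2 : min (min δ₁ δ₂) δ₃ ≤ δ₂ := (min_le_left _ _).trans (min_le_right _ _)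
      linarith only [h1, h2]
    have hL3 : 4 * L ≤ δ₃ := by
      have h1 := hLL.trans (min_le_left _ _)
      have h2 : min (min δ₁ δ₂) δ₃ ≤ δ₃ := min_le_right _ _
      linarith only [h1, h2]
    have hb : 32 * (v * L) + 32 * (M * L) + 128 * L ≤ η := by
      have h1 := hLL.trans (min_le_right _ _)
      rw [le_div_iff₀ hC0] at h1
      linarith only [h1]
    have hvL : 0 ≤ v * L := mul_nonneg hv hL0.le
    have hML : 0 < M * L := mul_pos hM hL0
    exact by
     obtain ⟨y, hy⟩ : ∃ y, y = m * L / 16 := ⟨_, rfl⟩
     have hy0 : 0 < y := by rw [hy]; positivity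
     have hyL : 16 * y ≤ L := by
       rw [hy]
       have := mul_le_mul_of_nonneg_right hm2 hL0.le
       linarith only [this]
     have hye : 16 * y ≤ e * L := by
       rw [hy]
       have := mul_le_mul_of_nonneg_right hm1 hL0.le
       linarith only [this]
     -- the mesh
     obtain ⟨st, st1, st2⟩ := exists_rat_btwn (show 0 < y / (v + 1) from div_pos hy0 (by linarith only [hv, hv0, hv0g, η5, η6, η8, hb, hvL, hML, hy0, hyL]))
     have st3 : (st : ℝ) * (v + 1) ≤ y := by
       have h1 : 0 < v + 1 := by linarith only [hv, hv0, hv0g, η5, η6, η8, hb, hvL, hML, hy0, hyL]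
       rw [lt_div_iff₀ h1] at st2
       exact st2.le
     have st4 : (st : ℝ) ≤ y := by
       have : 0 ≤ (st : ℝ) * v := mul_nonneg st1.le hv
       linarith only [st3, this]
     have hst : 0 < st := by exact_mod_cast st1
     obtain ⟨wq, wq1, wq2⟩ := exists_rat_btwn (show W g - L < W g - L / 2 - y by linarith only [hy0, hyL])
     have hwq0 : (0 : ℝ) < wq := by linarith only [η8, hb, hvL, hML, hy0, hyL, wq1]
     obtain ⟨N, hN⟩ : ∃ N : ℕ, N = ⌈(W g + L - wq) / st⌉₊ := ⟨_, rfl⟩
     have hN1 : W g + L - wq ≤ N * st := by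
       have h1 : (W g + L - wq) / st ≤ N := by rw [hN]; exact Nat.le_ceil _
       rwa [div_le_iff₀ st1] at h1
     have hN2 : N * st ≤ W g + L - wq + st := by
       have h1 : (N : ℝ) < (W g + L - wq) / st + 1 := by
         rw [hN]
         exact Nat.ceil_lt_add_one (div_nonneg (by linarith only [hy0, hyL, wq2]) st1.le)
       have h2 : (N : ℝ) * st ≤ ((W g + L - wq) / st + 1) * st :=
         mul_le_mul_of_nonneg_right h1.le st1.le
       have e1 : ((W g + L - wq) / st + 1) * st = W g + L - wq + st := by
         field_simp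
       rwa [e1] at h2
     exact by
      obtain ⟨u, hu⟩ : ∃ u : ℕ → ℚ, ∀ j, u j = wq + j * st := ⟨fun j => wq + j * st, fun j => rfl⟩
      have hur : ∀ j, (u j : ℝ) = wq + j * st := fun j => by
        rw [hu j]
        push_cast
        ring
      have hu1 : ∀ j, (wq : ℝ) ≤ u j := fun j => by
        rw [hur]
        have : 0 ≤ (j : ℝ) * st := by positivity
        linarith only [this]
      have hu2 : ∀ j ≤ N, (u j : ℝ) ≤ W g + 2 * L := fun j hj => by
        rw [hur]
        have h1 : (j : ℝ) ≤ N := by exact_mod_cast hj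
        have h2 : (j : ℝ) * st ≤ N * st := mul_le_mul_of_nonneg_right h1 st1.le
        linarith only [hy0, hyL, st4, hN2, h2]
      have hu3 : ∀ i j, i ≤ j → (u i : ℝ) ≤ u j := fun i j hij => by
        rw [hur, hur]
        have h1 : (i : ℝ) ≤ j := by exact_mod_cast hij
        have h2 : (i : ℝ) * st ≤ j * st := mul_le_mul_of_nonneg_right h1 st1.le
        linarith only [h2]
      have hd : ∀ j ≤ N, |(u j : ℝ) - W g| ≤ 2 * L := fun j hj => by
        have h1 := hu1 j
        have h2 := hu2 j hj
        rw [abs_le]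
        constructor <;> linarith
      have hu0 : ∀ j, (0 : ℝ) < u j := fun j => hwq0.trans_le (hu1 j)
      have hu4 : ∀ j ≤ N, (u j : ℝ) ≤ v₁ := fun j hj => by
        have := hu2 j hj
        linarith only [η7, hb, hvL, hML, hy0, hyL, this]
      have q0 : ∀ j, 0 ≤ u j := fun j => by exact_mod_cast (hu0 j).le
      have q1 : ∀ j ≤ N, u j ≤ 1 := fun j hj => by
        have := hu4 j hj
        have : (u j : ℝ) ≤ 1 := by linarith only [hv11, this]
        exact_mod_cast this
      -- the numbers on the mesh
      exact by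
       have r1 : ∀ j ≤ N, |(σ 1).rot (u j) - v₀ - v * (u j - W g)| ≤ y / 2 := fun j hj => by
         have h1 := hd j hj
         have h2 := s1 (u j) (by linarith only [hL1, hy0, hyL, h1])
         refine h2.trans ?_
         have h3 : m / 64 * |(u j : ℝ) - W g| ≤ m / 64 * (2 * L) :=
           mul_le_mul_of_nonneg_left h1 (by linarith only [hm0])
         rw [hy]
         linarith only [h3]
       have r2 : ∀ j ≤ N, |(σ 1).th (u j) - g - (1 + v) * (u j - W g)| ≤ y / 2 := fun j hj => by
         have h1 := hd j hj
         have h2 := s2 (u j) (by linarith only [hL2, hy0, hyL, h1])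
         refine h2.trans ?_
         have h3 : m / 64 * |(u j : ℝ) - W g| ≤ m / 64 * (2 * L) :=
           mul_le_mul_of_nonneg_left h1 (by linarith only [hm0])
         rw [hy]
         linarith only [h3]
       have r3 : ∀ j ≤ N, |v * ((u j : ℝ) - W g)| ≤ 2 * (v * L) := fun j hj => by
         rw [abs_mul, abs_of_nonneg hv]
         have := mul_le_mul_of_nonneg_left (hd j hj) hv
         linarith only [this]
       have r4 : Rc - η / 4 ≤ rc wq := by
         have h1 : |(wq : ℝ) - W g| < δ₃ := by
           rw [abs_lt]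
           constructor <;> linarith
         have h2 := abs_le.1 (s3 wq h1)
         linarith only [h2, h2.1]
       have r5 : ∀ j ≤ N, 0 ≤ (σ 1).rot (u j) := fun j hj =>
         num_nonneg hC.ne (hR1.rot (u j) (q0 j) (q1 j hj))
       have r6 : ∀ j ≤ N, (σ 1).th (u j) < 1 := fun j hj => by
         have h2 := (abs_le.1 (r2 j hj)).2
         have h3 := (abs_le.1 (r3 j hj)).2
         have h4 := (abs_le.1 (hd j hj)).2
         linarith only [η5, η6, hb, hvL, hML, hy0, hyL, h2, h3, h4]
       exact by
        have r7 : ∀ j ≤ N, u j + (σ 1).rot (u j) ≤ (σ 1).th (u j) := fun j hj => by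
          have h1 := trv hC le_rfl hR1 (u j) (q0 j) (by exact_mod_cast q1 j hj)
          rcases le_total ((u j : ℝ) + (σ 1).rot (u j)) 1 with h | h
          · rwa [min_eq_left h] at h1
          · rw [min_eq_right h] at h1
            have := r6 j hj
            linarith only [h1, this]
        have r8 : ∀ j ≤ N, |(σ 1).th (u j) - u j - (σ 1).rot (u j) - H| ≤ y := fun j hj => by
          have h1 := abs_le.1 (r1 j hj)
          have h2 := abs_le.1 (r2 j hj)
          rw [abs_le]
          constructor <;> linarith only [hH, h1, h2, h1.1, h1.2, h2.1, h2.2]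
        have r9 : ∀ i j, i ≤ j → j ≤ N → (σ 1).rot (u i) ≤ (σ 1).rot (u j) := fun i j hij hj =>
          rot_window hC.ne hR1 (q0 i) (by
            have := hu3 i j hij
            exact_mod_cast this) (q1 j hj)
        have r10 : ∀ j ≤ N, (σ 1).rot (u j) ≤ v₀ + 2 * (v * L) + y := fun j hj => by
          have h1 := abs_le.1 (r1 j hj)
          have h3 := abs_le.1 (r3 j hj)
          linarith only [hy0, h1, h3, h1.1, h1.2, h3.1, h3.2]
        have r11 : ∀ j ≤ N, (σ 1).th (u j) - u j ≤ g - W g + 2 * (v * L) + y := fun j hj => by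
          have h2 := abs_le.1 (r2 j hj)
          have h3 := abs_le.1 (r3 j hj)
          linarith only [hy0, h2, h3, h2.1, h2.2, h3.1, h3.2]
        have r12 : ∀ j ≤ N, g - W g - 2 * (v * L) - y ≤ (σ 1).th (u j) - u j := fun j hj => by
          have h2 := abs_le.1 (r2 j hj)
          have h3 := abs_le.1 (r3 j hj)
          linarith only [hy0, h2, h3, h2.1, h2.2, h3.1, h3.2]
        obtain ⟨pu, hpu⟩ : ∃ pu, pu = pe - η / 2 := ⟨_, rfl⟩
        obtain ⟨κ, hκ⟩ : ∃ κ, κ = g - W g + (v + v + 3) * L := ⟨_, rfl⟩
        exact by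
         obtain ⟨hn, hhn⟩ : ∃ hn, hn = P - W g + η / 4 := ⟨_, rfl⟩
         have hκ' : κ = g - W g + 2 * (v * L) + 3 * L := by
           rw [hκ]
           ring
         -- the class
         have hcls : ∃ T Mh : ℕ → ℝ, (∀ j ≤ N, (σ 1).th (u j) - 2 * y ≤ T j) ∧
             (∀ j ≤ N, (σ 1).th (u j) - u j - (σ 1).rot (u j) - 2 * y ≤ Mh j) ∧
             Clp S (fun J F A => RCP i₀ N ⌊pu * J⌋₊ (fun j => ⌊(u j : ℝ) * J⌋₊)
               (fun j => ⌊((σ 1).rot (u j) - y) * J⌋₊) (fun j => ⌊T j * J⌋₊) (fun j => ⌊Mh j * J⌋₊)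
               ⌊(wq : ℝ) * J⌋₊ ⌊κ * J⌋₊ ⌊hn * J⌋₊ F A) := by
           by_cases h0 : H = 0
           · refine ⟨fun j => u j + (σ 1).rot (u j) - y, fun _ => 0, fun j hj => ?_, fun j hj => ?_, ?_⟩
             · have h1 := (abs_le.1 (r8 j hj)).2
               beta_reduce
               linarith only [h0, h1]
             · have h1 := (abs_le.1 (r8 j hj)).2
               beta_reduce
               linarith only [hy0, h0, h1]
             · have h1 := rcp_zero hC hrc N u (fun j => (σ 1).rot (u j) - y)
                 (fun j => u j + (σ 1).rot (u j) - y) (pu := pu) (κ := κ) (hN := hn) (wl := wq)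
                 (fun j _ => q0 j) q1 (fun j hj => (r7 j hj).trans (r6 j hj).le)
                 (fun j hj => by linarith only [hy0]) (fun j hj => by
                   have := r5 j hj
                   have := hu1 j
                   linarith) (fun j hj => by linarith only [hy0]) (by linarith only [hv0, η3, η6, hb, hvL, hML, hy0, hyL, hpu]) (by linarith only [hb, hvL, hML, hy0, hyL, hpu]) (by linarith only [hv0, hv0g, hvL, hy0, hyL, hκ])
                 (by linarith only [η4, hb, hvL, hML, hy0, hyL, r4, hκ]) (by linarith only [hH, η3, hb, hvL, hML, hy0, hyL, hpu, hhn, h0])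
               refine Clp.mono (J₂ := 0) h1 fun J _ F A h2 => ?_
               have e1 : (fun _ : ℕ => ⌊(0 : ℝ) * J⌋₊) = fun _ => 0 := by
                 funext j
                 rw [zero_mul, Nat.floor_zero]
               rw [e1]
               exact h2
           · have hηH : η ≤ H := by
               rw [hH', if_neg h0] at η9
               exact η9
             refine ⟨fun j => (σ 1).th (u j) - y, fun j => (σ 1).th (u j) - u j - (σ 1).rot (u j) - 2 * y,
               fun j hj => by linarith only [hy0], fun j hj => le_rfl, ?_⟩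
             have sub : ∀ j, N - j ≤ N := fun j => Nat.sub_le _ _
             have h1 := rcp_pos hC hA hrc N (fun j => u (N - j)) (fun j => (σ 1).rot (u (N - j)) - y)
               (fun j => (σ 1).th (u (N - j)) - y)
               (fun j => (σ 1).th (u (N - j)) - u (N - j) - (σ 1).rot (u (N - j)) - 2 * y)
               (G := P - W g + η / 2) (pu := pu) (κ := κ) (hN := hn) (wl := wq) (j₀ := 0)
               (Nat.zero_le _) (by exact_mod_cast hwq0.le)
               (fun j _ => by
                 have := hu1 (N - j)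
                 exact_mod_cast this)
               (fun j _ => by
                 have := hu3 (N - (j + 1)) (N - j) (by omega)
                 exact_mod_cast this)
               (fun j _ => by
                 have := hu4 (N - j) (sub j)
                 exact_mod_cast this)
               (by linarith only [hpi, hb, hvL, hML, hy0, hyL, hpu]) (fun j _ => by linarith only [hy0]) (fun j _ => by linarith only [hy0])
               (fun j _ => by
                 have := r7 (N - j) (sub j)
                 linarith only [this])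
               (fun j _ => by
                 have h2 := r10 (N - j) (sub j)
                 linarith only [hpi, η3, η6, hb, hvL, hML, hy0, hyL, h2])
               (fun j _ => by
                 have h2 := r10 (N - j) (sub j)
                 have h3 := r12 (N - (j + 1)) (sub _)
                 linarith only [hH, hb, hvL, hML, hy0, hyL, hηH, h2, h3])
               (fun j _ => by
                 have h2 := (abs_le.1 (r8 (N - j) (sub j))).1
                 linarith only [hb, hvL, hML, hy0, hyL, hηH, h2])
               (fun j _ => by linarith only [hy0])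
               (fun j _ => by
                 have h3 := r11 (N - j) (sub j)
                 linarith only [η4, hb, hvL, hML, hy0, hyL, r4, h3])
               (by linarith only [hv0, hv0g, η6, hb, hvL, hML, hy0, hyL]) (by linarith only [η1, hb, hvL, hML, hy0, hyL])
               (fun j _ => by
                 have h3 := r12 (N - j) (sub j)
                 linarith only [hsmall, η6, hb, hvL, hML, hy0, hyL, h3])
               (by linarith only [hv0, hv0g, hvL, hy0, hyL, hκ]) (by linarith only [η4, hb, hvL, hML, hy0, hyL, r4, hκ]) (by linarith only [η6, hb, hvL, hML, hy0, hyL, hκ])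
               (by
                 have h2 := (abs_le.1 (r8 (N - 0) (sub 0))).1
                 linarith only [hH, η3, η6, hb, hvL, hML, hy0, hyL, hpu, hκ, h2])
               (by linarith only [hb, hvL, hML, hy0, hyL, hhn])
               (by
                 have h2 := (abs_le.1 (r8 (N - 0) (sub 0))).1
                 linarith only [hH, η3, hb, hvL, hML, hy0, hyL, hpu, hhn, h2])
             exact Clp.mono (J₂ := 0) h1 fun J _ F A h2 => RCP.rev (w := fun j => ⌊(u j : ℝ) * J⌋₊)
               (V := fun j => ⌊((σ 1).rot (u j) - y) * J⌋₊) (T := fun j => ⌊((σ 1).th (u j) - y) * J⌋₊)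
               (Hc := fun j => ⌊((σ 1).th (u j) - u j - (σ 1).rot (u j) - 2 * y) * J⌋₊) h2
         exact by
          obtain ⟨T, Mh, hT, hMh, hcl⟩ := hcls
          refine ⟨wq, N + 1, u, ?_, fun j hj => ?_, fun τ J₀ hτ => ?_⟩
          · rw [abs_le]
            constructor <;> linarith
          · have hj' : j ≤ N := by omega
            have h1 := hd j hj'
            have h2 := r7 j hj'
            exact ⟨h1, by exact_mod_cast hu0 j, by linarith only [h2]⟩
          · obtain ⟨J₁, hJ₁⟩ := exists_nat_ge (32 / y + 1 / st)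
            obtain ⟨J, hJ, F, A, hS, hR⟩ := hcl.real hC.ne hτ (max J₀ J₁)
            have hJ1 : 32 / y + 1 / st ≤ (J : ℝ) :=
              hJ₁.trans (by exact_mod_cast (le_max_right J₀ J₁).trans hJ)
            have p1 : 0 < 32 / y := by positivity
            have p2 : 0 < 1 / (st : ℝ) := by positivity
            have hyJ : 32 ≤ y * J := by
              have : 32 / y ≤ J := by linarith only [hJ1, p2]
              rw [div_le_iff₀ hy0] at this
              linarith only [this]
            have hsJ : 1 ≤ (st : ℝ) * J := by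
              have : 1 / (st : ℝ) ≤ J := by linarith only [hJ1, p1]
              rw [div_le_iff₀ st1] at this
              linarith only [this]
            obtain ⟨sg, wa, wb, vp, kap, Hu, HN, al, nu, kN, nN, aa, s, tt, z, E, hB⟩ :=
              bfr_of (rot := (σ 1).rot) (th := (σ 1).th) (w₀ := W g) (v₀ := v₀) (v := v)
                (R₀ := g - W g + (v + v + 2) * L) (qm := P - g + M * L) (L := L) (e := e) hR hu hst
                (by exact_mod_cast hwq0.le) wq1.le (by linarith only [wq2]) (by
                  rw [hur]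
                  linarith only [hN1]) (by linarith only [hv0, hv0g, η5, η6, hb, hvL, hML, hy0, hyL]) r5 r9 (fun j hj => (r1 j hj).trans (by linarith only [hy0, hye])) hT hMh
                (fun j hj => by
                  have := r7 j hj
                  linarith only [this]) (fun j hj => by
                  have := r11 j hj
                  linarith only [hy0, hyL, hκ, this]) (by linarith only [hy0, hyL, hκ]) hy0 hye hv (by linarith only [hy0, hye, st3]) hyJ hsJ (by linarith only [hy0, hyL]) (by linarith only [η6, hb, hvL, hML, hy0, hyL])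
                (by
                  have := r10 N le_rfl
                  linarith only [η3, hb, hvL, hML, hy0, hyL, hpu, this]) (by linarith only [hb, hvL, hML, hy0, hyL, hκ, hhn]) (by
                  have := r10 N le_rfl
                  linarith only [hv0g, η5, hb, hvL, hML, hy0, hyL, this]) (by linarith only [η5, hb, hvL, hML, hy0, hyL, hκ])
            exact ⟨J, F, A, (le_max_left _ _).trans hJ, hS, sg, wa, wb, vp, kap, Hu, HN, al, nu, kN, nN,
              aa, s, tt, z, E, hB, fun h => h.elim⟩

end Pool.S6C
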