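import Pool.Agent.H41.S6H.Two
import Pool.Agent.H51.S6.Eng

/-!
# Selection of a pair of rows for the plateau cases

On the data `SD` there is a pair `g < P` of rows, at a small distance, such that `P - g` is an
active place with slope at least `κ / 2`, and such that given functions of the window and of the
velocity level, which are nonincreasing in the window and at most `M q` at the level `q`, decrease
at most with slope `io` on all small squares around `(W g, P - g)`.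

`K'` need not be measurable: the distance `P - g` cannot be fixed first.
-/

set_option autoImplicit false

namespace Pool.Sel51

open MeasureTheory Set Filter Topology
open scoped ENNReal NNReal

variable {f : ℚ → ℝ}

theorem xt_lip1 (hf : ∀ q q' : ℚ, 0 ≤ q → q ≤ q' → q' ≤ 1 → f q ≤ f q')
    (hl : ∀ q q' : ℚ, 0 ≤ q → q ≤ q' → q' ≤ 1 → f q' - f q ≤ q' - q) {x y : ℝ} (hx0 : 0 ≤ x)
    (hxy : x ≤ y) (hy1 : y ≤ 1) : xt f y - xt f x ≤ y - x := by
  have hmono : Monotone (xt f) := xt_mono hf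
  rcases hxy.lt_or_eq with hlt | heq
  · refine le_of_forall_pos_le_add fun ε hε => ?_
    obtain ⟨p, hp0, hp1, hpx⟩ : ∃ p : ℚ, 0 ≤ p ∧ (p : ℝ) ≤ x ∧ x - p ≤ ε / 2 := by
      rcases hx0.lt_or_eq with h | h
      · obtain ⟨p, h1, h2⟩ := exists_rat_btwn (show max 0 (x - ε / 2) < x from
          max_lt h (by linarith))
        refine ⟨p, ?_, h2.le, ?_⟩
        · have := (le_max_left 0 (x - ε / 2)).trans h1.le
          exact_mod_cast this
        · have := (le_max_right 0 (x - ε / 2)).trans h1.le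
          linarith
      · exact ⟨0, le_rfl, by simp [← h], by rw [← h]; simp; linarith⟩
    obtain ⟨r, hr0, hr1, hry⟩ : ∃ r : ℚ, r ≤ 1 ∧ y ≤ (r : ℝ) ∧ (r : ℝ) - y ≤ ε / 2 := by
      rcases hy1.lt_or_eq with h | h
      · obtain ⟨r, h1, h2⟩ := exists_rat_btwn (show y < min 1 (y + ε / 2) from
          lt_min h (by linarith))
        refine ⟨r, ?_, h1.le, ?_⟩
        · have := h2.le.trans (min_le_left _ _)
          exact_mod_cast this
        · have := h2.le.trans (min_le_right _ _)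
          linarith
      · exact ⟨1, le_rfl, by simp [h], by rw [h]; simp; linarith⟩
    have hpr : p ≤ r := by
      have : (p : ℝ) ≤ r := by linarith
      exact_mod_cast this
    have e1 := hl p r hp0 hpr hr0
    have e2 := hmono hp1
    have e3 := hmono hr1
    rw [xt_rat hf hp0 (hpr.trans hr0)] at e2
    rw [xt_rat hf (hp0.trans hpr) hr0] at e3
    linarith
  · rw [heq]
    simp

/-- The set of points at which a function which grows at most with slope one has slope at least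
`β`. -/
theorem act_dens2 (hf : ∀ q q' : ℚ, 0 ≤ q → q ≤ q' → q' ≤ 1 → f q ≤ f q')
    (hl : ∀ q q' : ℚ, 0 ≤ q → q ≤ q' → q' ≤ 1 → f q' - f q ≤ q' - q) {β : ℝ} (hβ : 0 ≤ β) :
    ∃ A : Set ℝ, MeasurableSet A ∧ (∀ x ∈ A, 0 < x ∧ x < 1 ∧ ∃ v s : ℝ, β ≤ s ∧ Slp f x v s) ∧
      ∀ q : ℚ, 0 < q → q ≤ 1 → ENNReal.ofReal (f q - f 0 - β * q) ≤
        volume (A ∩ Ioo 0 (q : ℝ)) := by
  obtain ⟨F, hF⟩ : ∃ F, F = xt f := ⟨_, rfl⟩
  have hmono : Monotone F := by rw [hF]; exact xt_mono hf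
  have hrat : ∀ q : ℚ, 0 ≤ q → q ≤ 1 → F q = f q := by
    intro q h0 h1
    rw [hF]
    exact xt_rat hf h0 h1
  have hlip : ∀ x y : ℝ, 0 ≤ x → x ≤ y → y ≤ 1 → F y - F x ≤ y - x := by
    intro x y h1 h2 h3
    rw [hF]
    exact xt_lip1 hf hl h1 h2 h3
  obtain ⟨A, hA⟩ : ∃ A : Set ℝ, A = ({x | DifferentiableAt ℝ F x} ∩ {x | β ≤ deriv F x}) ∩
    Ioo 0 1 := ⟨_, rfl⟩
  have hAm : MeasurableSet A := by
    rw [hA]
    exact ((measurableSet_of_differentiableAt ℝ F).inter
      (measurableSet_le measurable_const (measurable_deriv F))).inter measurableSet_Ioo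
  refine ⟨A, hAm, ?_, ?_⟩
  · intro x hx
    rw [hA] at hx
    obtain ⟨⟨h1, h2⟩, h3⟩ := hx
    refine ⟨h3.1, h3.2, F x, deriv F x, h2, ?_⟩
    intro ε hε
    have hd : HasDerivAt F (deriv F x) x := DifferentiableAt.hasDerivAt h1
    have h4 := (hasDerivAt_iff_isLittleO.1 hd).def hε
    obtain ⟨δ, hδ, h5⟩ := Metric.eventually_nhds_iff.1 h4
    refine ⟨min δ (min x (1 - x)), lt_min hδ (lt_min h3.1 (by linarith [h3.2])), fun q hq => ?_⟩
    have hq1 : |(q : ℝ) - x| < δ := lt_of_lt_of_le hq (min_le_left _ _)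
    have hq2 : |(q : ℝ) - x| < x :=
      lt_of_lt_of_le hq ((min_le_right _ _).trans (min_le_left _ _))
    have hq3 : |(q : ℝ) - x| < 1 - x :=
      lt_of_lt_of_le hq ((min_le_right _ _).trans (min_le_right _ _))
    rw [abs_lt] at hq2 hq3
    have hq0 : (0 : ℝ) ≤ q := by linarith
    have hq1' : (q : ℝ) ≤ 1 := by linarith
    have h6 := h5 (y := (q : ℝ)) (by rw [Real.dist_eq]; exact hq1)
    rw [hrat q (by exact_mod_cast hq0) (by exact_mod_cast hq1')] at h6
    rw [Real.norm_eq_abs, Real.norm_eq_abs, smul_eq_mul] at h6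
    rw [mul_comm (deriv F x)]
    exact h6
  · intro q hq0 hq1
    have hq0' : (0 : ℝ) < q := by exact_mod_cast hq0
    have hq1' : (q : ℝ) ≤ 1 := by exact_mod_cast hq1
    have hlw : LipschitzOnWith 1 F (uIcc 0 (q : ℝ)) := by
      rw [uIcc_of_le hq0'.le]
      refine LipschitzOnWith.of_dist_le_mul fun x hx y hy => ?_
      rw [NNReal.coe_one, one_mul, Real.dist_eq, Real.dist_eq]
      rcases le_total x y with hxy | hxy
      · rw [abs_sub_comm, abs_sub_comm x y, abs_of_nonneg (a := y - x) (by linarith),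
          abs_of_nonneg (by linarith [hmono hxy])]
        exact hlip x y hx.1 hxy (hy.2.trans hq1')
      · rw [abs_of_nonneg (a := x - y) (by linarith), abs_of_nonneg (by linarith [hmono hxy])]
        exact hlip y x hy.1 hxy (hx.2.trans hq1')
    have hac := hlw.absolutelyContinuousOnInterval
    have hint := hac.integral_deriv_eq_sub
    have hF0 : F 0 = f 0 := by
      have := hrat 0 le_rfl zero_le_one
      simpa using this
    rw [hrat q hq0.le hq1, hF0, intervalIntegral.integral_of_le hq0'.le] at hint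
    -- the bound of the derivative
    have hder1 : ∀ x ∈ Ioo (0 : ℝ) 1, deriv F x ≤ 1 := by
      intro x hx
      by_cases hd : DifferentiableAt ℝ F x
      · refine deriv_le_of_left hd.hasDerivAt (s := 1) (fun y hy0 hyx => ?_) hx.1
        rw [one_mul]
        exact hlip y x hy0 hyx hx.2.le
      · rw [deriv_zero_of_not_differentiableAt hd]
        exact zero_le_one
    have hle : ∀ x ∈ Ioo (0 : ℝ) q, deriv F x ≤ β + A.indicator (fun _ => (1 : ℝ)) x := by
      intro x hx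
      by_cases hxA : x ∈ A
      · rw [indicator_of_mem hxA]
        have := hder1 x ⟨hx.1, hx.2.trans_le hq1'⟩
        linarith
      · rw [indicator_of_notMem hxA, add_zero]
        by_cases hd : DifferentiableAt ℝ F x
        · by_contra hcon
          push Not at hcon
          refine hxA ?_
          rw [hA]
          exact ⟨⟨hd, hcon.le⟩, hx.1, hx.2.trans_le hq1'⟩
        · rw [deriv_zero_of_not_differentiableAt hd]
          exact hβ
    have hi1 : IntegrableOn (deriv F) (Ioc 0 (q : ℝ)) volume :=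
      (intervalIntegrable_iff_integrableOn_Ioc_of_le hq0'.le).1 hac.intervalIntegrable_deriv
    have hfin : volume (A ∩ Ioc 0 (q : ℝ)) ≠ ⊤ :=
      ne_top_of_le_ne_top (by rw [Real.volume_Ioc]; exact ENNReal.ofReal_ne_top)
        (measure_mono inter_subset_right)
    have hi2 : IntegrableOn (fun _ : ℝ => β) (Ioc 0 (q : ℝ)) volume :=
      integrableOn_const (by rw [Real.volume_Ioc]; exact ENNReal.ofReal_ne_top)
    have hi3 : IntegrableOn (A.indicator (fun _ => (1 : ℝ))) (Ioc 0 (q : ℝ)) volume := by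
      refine (integrable_indicator_iff hAm).2 ?_
      refine integrableOn_const ?_
      rw [Measure.restrict_apply hAm]
      exact hfin
    have h1 : ∫ x in Ioc 0 (q : ℝ), deriv F x ≤
        ∫ x in Ioc 0 (q : ℝ), (β + A.indicator (fun _ => (1 : ℝ)) x) := by
      rw [integral_Ioc_eq_integral_Ioo, integral_Ioc_eq_integral_Ioo]
      exact setIntegral_mono_on (hi1.mono_set Ioo_subset_Ioc_self)
        ((hi2.add hi3).mono_set Ioo_subset_Ioc_self) measurableSet_Ioo hle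
    have h2 : ∫ x in Ioc 0 (q : ℝ), (β + A.indicator (fun _ => (1 : ℝ)) x) =
        β * q + volume.real (A ∩ Ioc 0 (q : ℝ)) := by
      rw [integral_add hi2 hi3, setIntegral_const, integral_indicator hAm, Measure.restrict_restrict
        hAm, setIntegral_const]
      simp [hq0'.le, mul_comm]
    rw [h2, hint] at h1
    have h3 : volume (A ∩ Ioc 0 (q : ℝ)) = volume (A ∩ Ioo 0 (q : ℝ)) := by
      refine measure_congr ?_
      exact (ae_eq_refl A).inter Ioo_ae_eq_Ioc.symm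
    rw [← h3, ← ENNReal.ofReal_toReal hfin]
    refine ENNReal.ofReal_le_ofReal ?_
    rw [measureReal_def] at h1
    linarith

end Pool.Sel51

namespace Pool.S6C

open Finset Real
open Pool.Agent.H49.Ent Pool.Agent.H32.Dense Pool.STK Pool.KA Pool.KSAT Pool.K2S Pool.PB Pool.KS6
  Pool.Sel51

/-- **(SelH)** Selection of a pair of rows with small decrease of given numbers in the window. -/
theorem SD.selH {S : PCl 3} {i₀ : Fin 3} {c s₂ : ℝ} {r : ℝ → ℝ} {D : Set ℝ} {σ : ℝ → Row}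
    {act : ℚ → ℝ} {K : Set ℝ} {W : ℝ → ℝ} {v₁ t : ℚ} {e₁ κ : ℝ} {K' : Set ℝ} {Q₀ C : ℝ} {w₁ : ℚ}
    {V0 V Rh : ℝ → ℝ} {Γ : ℝ → ℝ → Prop}
    (h : SD S i₀ c s₂ r D σ act K W v₁ t e₁ κ K' Q₀ C w₁ V0 V Rh Γ) {n : ℕ}
    {φ : Fin n → ℚ → ℚ → ℝ} {M io ε : ℝ} {w₂ q₂ : ℚ} (hM : 0 ≤ M) (hio : 0 < io) (hε : 0 < ε)
    (hq₂ : 0 < q₂) (hw₂ : ∀ g ∈ K', W g < w₂)
    (ha : ∀ i, ∀ w w' q : ℚ, 0 ≤ w → w ≤ w' → w' ≤ w₂ → 0 ≤ q → q ≤ q₂ → φ i w' q ≤ φ i w q)
    (hl : ∀ i, ∀ w q q' : ℚ, 0 ≤ w → w ≤ w₂ → 0 ≤ q → q ≤ q' → q' ≤ q₂ →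
      |φ i w q' - φ i w q| ≤ M * ((q' : ℝ) - q))
    (h0 : ∀ i, ∀ w q : ℚ, 0 ≤ w → w ≤ w₂ → 0 ≤ q → q ≤ q₂ → 0 ≤ φ i w q ∧ φ i w q ≤ M * q) :
    ∃ P ∈ K', ∃ g ∈ K', ∃ a₀ α : ℝ,
      Loc S i₀ c s₂ r D σ act K W v₁ t e₁ Q₀ P g (V0 g) (V g) (Rh g) a₀ α ∧ Γ (V g) (Rh g) ∧
      κ / 2 ≤ α ∧ P - g < ε ∧ P - g < q₂ ∧ ∀ i, DSl (φ i) (W g) (P - g) io := by
  have hκ := h.κ0
  have hC := h.C0
  -- the active places
  obtain ⟨A, hAm, hA1, hA2⟩ := act_dens2 h.amono h.alip (β := κ / 2) (by linarith)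
  obtain ⟨q₀, hq00, hq01, hactl⟩ := h.akap
  have hAd : ∀ y : ℝ, 0 < y → MeasureTheory.volume (A ∩ Set.Ioo 0 y) ≠ 0 := by
    intro y hy h1
    have hq0r : (0 : ℝ) < q₀ := by exact_mod_cast hq00
    obtain ⟨q, h2, h3⟩ := exists_rat_btwn (lt_min hy hq0r)
    have hq0 : (0 : ℚ) < q := by exact_mod_cast h2
    have hqq : q ≤ q₀ := by
      have : (q : ℝ) ≤ q₀ := (h3.trans_le (min_le_right _ _)).le
      exact_mod_cast this
    have h4 := hA2 q hq0 (hqq.trans hq01)
    have h5 : MeasureTheory.volume (A ∩ Set.Ioo 0 (q : ℝ)) = 0 := by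
      refine MeasureTheory.measure_mono_null (Set.inter_subset_inter_right _
        (Set.Ioo_subset_Ioo_right (h3.trans_le (min_le_left _ _)).le)) h1
    rw [h5, nonpos_iff_eq_zero, ENNReal.ofReal_eq_zero] at h4
    have h6 := hactl q hq0.le hqq
    rw [h.act0, sub_zero] at h4
    have : 0 < κ / 2 * q := by positivity
    linarith
  -- the windows are below `w₂`
  have hK'ne : K'.Nonempty := by
    rw [Set.nonempty_iff_ne_empty]
    intro h1
    refine h.pos ?_
    rw [h1]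
    exact MeasureTheory.measure_empty
  have hw₂0 : (0 : ℚ) < w₂ := by
    obtain ⟨g, hg⟩ := hK'ne
    have h1 := (h.pr g (h.sub hg)).ws0
    have h2 := hw₂ g hg
    have : (0 : ℝ) < w₂ := by linarith
    exact_mod_cast this
  -- uniform room
  obtain ⟨Kn, hKn⟩ : ∃ Kn : ℕ → Set ℝ, Kn = fun n : ℕ => {g : ℝ | g ∈ K' ∧
      1 / ((n : ℝ) + 1) < (σ 1).sN v₁ t - (g - W g) ∧
      1 / ((n : ℝ) + 1) < t - v₁ + e₁ - (g - W g)} := ⟨_, rfl⟩
  obtain ⟨N₀, hN₀⟩ : ∃ n, MeasureTheory.volume (Kn n) ≠ 0 := by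
    by_contra hcon
    push Not at hcon
    refine h.pos (MeasureTheory.measure_mono_null (t := ⋃ n, Kn n) ?_
      (MeasureTheory.measure_iUnion_null hcon))
    intro g hg
    have h1 := h.room g (h.sub hg)
    have h2 := h.adm.vel g (h.sub hg)
    obtain ⟨n, hn⟩ := exists_nat_one_div_lt (show 0 < min ((σ 1).sN v₁ t - (g - W g))
      (t - v₁ + e₁ - (g - W g)) from lt_min (by linarith) (by linarith))
    rw [Set.mem_iUnion]
    refine ⟨n, ?_⟩
    rw [hKn]
    exact ⟨hg, hn.trans_le (min_le_left _ _), hn.trans_le (min_le_right _ _)⟩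
  have hKnK' : ∀ g ∈ Kn N₀, g ∈ K' := by
    intro g hg
    rw [hKn] at hg
    exact hg.1
  -- the bad sets
  have hbad := fun i => bad2 (φ := φ i) hM hio hw₂0 hq₂ (ha i) (hl i) (h0 i)
  choose N hNm hNs hNd using hbad
  obtain ⟨δ₀, hδ₀, e1, e2, e3, e4, e5, e6⟩ : ∃ δ₀ : ℝ, 0 < δ₀ ∧ δ₀ ≤ ε ∧ δ₀ ≤ q₂ ∧
      δ₀ ≤ 1 / ((N₀ : ℝ) + 1) ∧ δ₀ ≤ e₁ ∧ δ₀ ≤ (σ Q₀).pi - (σ 1).rot w₁ ∧
      δ₀ ≤ (σ 1).pi - (σ 1).rot w₁ := by
    have hq₂r : (0 : ℝ) < q₂ := by exact_mod_cast hq₂
    have hb := h.beta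
    refine ⟨min (min ε q₂) (min (min (1 / ((N₀ : ℝ) + 1)) e₁)
      (min ((σ Q₀).pi - (σ 1).rot w₁) ((σ 1).pi - (σ 1).rot w₁))), ?_, ?_, ?_, ?_, ?_, ?_, ?_⟩
    · exact lt_min (lt_min hε hq₂r) (lt_min (lt_min (by positivity) h.adm.e0)
        (lt_min (by linarith) (by linarith)))
    · exact (min_le_left _ _).trans (min_le_left _ _)
    · exact (min_le_left _ _).trans (min_le_right _ _)
    · exact (min_le_right _ _).trans ((min_le_left _ _).trans (min_le_left _ _))
    · exact (min_le_right _ _).trans ((min_le_left _ _).trans (min_le_right _ _))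
    · exact (min_le_right _ _).trans ((min_le_right _ _).trans (min_le_left _ _))
    · exact (min_le_right _ _).trans ((min_le_right _ _).trans (min_le_right _ _))
  have hMio : 0 ≤ M / io := div_nonneg hM hio.le
  obtain ⟨P, hP, g, hg, hgP, hPg, hPA, hPN⟩ := pair_sel (K := Kn N₀) hN₀ (W := W) (C := C) hC
    (fun g hg P hP hle => h.mono g (h.sub (hKnK' g hg)) P (h.sub (hKnK' P hP)) hle)
    (fun P hP g hg h1 h2 => h.lemc P (hKnK' P hP) g (h.sub (hKnK' g hg)) h1 h2) hAm hAd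
    (N := ⋃ i, N i) (MeasurableSet.iUnion hNm) (M := n * (M / io)) (by positivity) hδ₀ (by
      have h1 : ∀ᵐ q : ℝ, ∀ i, 0 < q → q < q₂ →
          MeasureTheory.volume {w | (q, w) ∈ N i} ≤ ENNReal.ofReal (M / io * q) :=
        MeasureTheory.ae_all_iff.2 hNs
      filter_upwards [h1] with q hq hq0 hq1
      have h2 : {w : ℝ | (q, w) ∈ ⋃ i, N i} = ⋃ i, {w : ℝ | (q, w) ∈ N i} := by
        ext w
        simp only [Set.mem_iUnion, Set.mem_ofPred_eq]
      rw [h2]
      refine (MeasureTheory.measure_iUnion_fintype_le _ _).trans ?_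
      refine (Finset.sum_le_sum fun i _ => hq i hq0 (hq1.trans_le e2)).trans ?_
      rw [Finset.sum_const, Finset.card_univ, Fintype.card_fin, nsmul_eq_mul,
        ← ENNReal.ofReal_natCast, ← ENNReal.ofReal_mul (Nat.cast_nonneg n)]
      exact ENNReal.ofReal_le_ofReal (le_of_eq (by ring))) hδ₀
  obtain ⟨-, -, a₀, α, hα, hasl⟩ := hA1 _ hPA
  have hP' := hKnK' P hP
  have hg' := hKnK' g hg
  have hroom : 1 / ((N₀ : ℝ) + 1) < (σ 1).sN v₁ t - (P - W P) ∧
      1 / ((N₀ : ℝ) + 1) < t - v₁ + e₁ - (P - W P) := by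
    rw [hKn] at hP
    exact hP.2
  have hW := (h.mono g (h.sub hg') P (h.sub hP') hgP.le).2
  have hWg := (h.pr g (h.sub hg')).ws0
  refine ⟨P, hP', g, hg', a₀, α, h.loc hP' hg' hgP (by linarith) (by linarith) (by linarith)
    (by linarith [hroom.1]) (by linarith [hroom.2]) (by linarith) hasl, h.cond g hg', hα,
    by linarith, by linarith, fun i => ?_⟩
  refine hNd i (W g) (P - g) hWg (hw₂ g hg') (by linarith) (by linarith) ?_
  intro hmem
  exact hPN (Set.mem_iUnion.2 ⟨i, hmem⟩)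

end Pool.S6C
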