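import Pool.Agent.H41.S6H.Pair

/-!
# Slopes in two variables

A function `ψ w q` on pairs of rationals, nondecreasing in both variables, which grows at most with
slope `L` in `q`: outside a measurable set of pairs `(q, w)` whose sections at `q` are small, the
growth in `w` on small squares around the pair is at most with slope `io`, uniformly in `q`.
-/

set_option autoImplicit false

namespace Pool.Sel51

open MeasureTheory Set Filter Topology
open scoped ENNReal NNReal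

/-- The function `φ` on pairs of rationals decreases in the first variable at most with slope `io`
on small squares around `(w₀, q₀)`. -/
def DSl (φ : ℚ → ℚ → ℝ) (w₀ q₀ io : ℝ) : Prop :=
  ∀ e : ℝ, 0 < e → ∃ δ : ℝ, 0 < δ ∧ ∀ l : ℝ, 0 < l → l < δ → ∀ w w' q : ℚ, w ≤ w' →
    |(w : ℝ) - w₀| ≤ l → |(w' : ℝ) - w₀| ≤ l → |(q : ℝ) - q₀| ≤ l →
    φ w q - φ w' q ≤ io * ((w' : ℝ) - w) + e * l

/-- The extension. -/
noncomputable def x2 (ψ : ℚ → ℚ → ℝ) (y x : ℝ) : ℝ :=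
  sSup {z : ℝ | ∃ w q : ℚ, (w : ℝ) ≤ x ∧ (q : ℝ) ≤ y ∧ z = ψ w q}

section

variable {ψ : ℚ → ℚ → ℝ} {B L : ℝ}

theorem x2_bdd (hb : ∀ w q, ψ w q ≤ B) (y x : ℝ) :
    BddAbove {z : ℝ | ∃ w q : ℚ, (w : ℝ) ≤ x ∧ (q : ℝ) ≤ y ∧ z = ψ w q} :=
  ⟨B, by
    rintro z ⟨w, q, -, -, rfl⟩
    exact hb w q⟩

theorem x2_ne (y x : ℝ) :
    {z : ℝ | ∃ w q : ℚ, (w : ℝ) ≤ x ∧ (q : ℝ) ≤ y ∧ z = ψ w q}.Nonempty := by
  obtain ⟨w, hw⟩ := exists_rat_lt x
  obtain ⟨q, hq⟩ := exists_rat_lt y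
  exact ⟨_, w, q, hw.le, hq.le, rfl⟩

theorem x2_mono (hb : ∀ w q, ψ w q ≤ B) {y y' x x' : ℝ} (hy : y ≤ y') (hx : x ≤ x') :
    x2 ψ y x ≤ x2 ψ y' x' := by
  refine csSup_le_csSup (x2_bdd hb y' x') (x2_ne y x) ?_
  rintro z ⟨w, q, h1, h2, rfl⟩
  exact ⟨w, q, h1.trans hx, h2.trans hy, rfl⟩

theorem x2_rat (hb : ∀ w q, ψ w q ≤ B) (hw : ∀ w w' q, w ≤ w' → ψ w q ≤ ψ w' q)
    (hq : ∀ w q q', q ≤ q' → ψ w q ≤ ψ w q') (w q : ℚ) : x2 ψ q w = ψ w q := by
  refine le_antisymm (csSup_le (x2_ne _ _) ?_) ?_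
  · rintro z ⟨w', q', h1, h2, rfl⟩
    exact (hw w' w q' (by exact_mod_cast h1)).trans (hq w q' q (by exact_mod_cast h2))
  · exact le_csSup (x2_bdd hb _ _) ⟨w, q, le_rfl, le_rfl, rfl⟩

theorem x2_lip (hb : ∀ w q, ψ w q ≤ B) (hL : 0 ≤ L)
    (hq : ∀ w q q', q ≤ q' → ψ w q ≤ ψ w q')
    (hl : ∀ w q q' : ℚ, q ≤ q' → ψ w q' - ψ w q ≤ L * ((q' : ℝ) - q)) {y y' : ℝ} (hy : y ≤ y')
    (x : ℝ) : x2 ψ y' x - x2 ψ y x ≤ L * (y' - y) := by
  rw [sub_le_iff_le_add]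
  refine csSup_le (x2_ne _ _) ?_
  rintro z ⟨w, q, h1, h2, rfl⟩
  refine le_of_forall_pos_le_add fun ε hε => ?_
  -- a rational slightly below `y`
  obtain ⟨d, hd0, hd⟩ : ∃ d : ℝ, 0 < d ∧ L * d ≤ ε := by
    refine ⟨ε / (L + 1), by positivity, ?_⟩
    rw [← mul_div_assoc, div_le_iff₀ (by linarith)]
    nlinarith only [hε]
  obtain ⟨p, hp1, hp2⟩ := exists_rat_btwn (show y - d < y by linarith only [hd0])
  have h3 : ψ w p ≤ x2 ψ y x := le_csSup (x2_bdd hb _ _) ⟨w, p, h1, hp2.le, rfl⟩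
  rcases le_total p q with h | h
  · have h4 := hl w p q h
    have h5 : L * ((q : ℝ) - p) ≤ L * (y' - y + d) :=
      mul_le_mul_of_nonneg_left (by linarith only [h2, hp1]) hL
    have h6 : L * (y' - y + d) = L * (y' - y) + L * d := by ring
    linarith only [hd, h3, h4, h5]
  · have h4 := hq w q p h
    have h5 : 0 ≤ L * (y' - y) := mul_nonneg hL (by linarith)
    linarith only [hε, h3, h4, h5]

theorem x2_meas (hb : ∀ w q, ψ w q ≤ B) : Measurable fun z : ℝ × ℝ => x2 ψ z.1 z.2 := by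
  refine measurable_of_Ioi fun c => ?_
  have e : (fun z : ℝ × ℝ => x2 ψ z.1 z.2) ⁻¹' Ioi c =
      ⋃ u : ℚ × ℚ, {z : ℝ × ℝ | c < ψ u.1 u.2 ∧ ((u.1 : ℝ) ≤ z.2 ∧ (u.2 : ℝ) ≤ z.1)} := by
    ext z
    rw [mem_preimage, mem_Ioi, mem_iUnion]
    constructor
    · intro h
      obtain ⟨t, ⟨w, q, h1, h2, rfl⟩, ht⟩ := exists_lt_of_lt_csSup (x2_ne z.1 z.2) h
      exact ⟨(w, q), ht, h1, h2⟩
    · rintro ⟨⟨w, q⟩, h1, h2, h3⟩
      exact lt_of_lt_of_le h1 (le_csSup (x2_bdd hb _ _) ⟨w, q, h2, h3, rfl⟩)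
  rw [e]
  refine MeasurableSet.iUnion fun u => ?_
  by_cases hu : c < ψ u.1 u.2
  · have : {z : ℝ × ℝ | c < ψ u.1 u.2 ∧ ((u.1 : ℝ) ≤ z.2 ∧ (u.2 : ℝ) ≤ z.1)} =
        {z : ℝ × ℝ | (u.1 : ℝ) ≤ z.2} ∩ {z | (u.2 : ℝ) ≤ z.1} := by
      ext z
      exact ⟨fun h => h.2, fun h => ⟨hu, h⟩⟩
    rw [this]
    exact (measurableSet_le measurable_const measurable_snd).inter
      (measurableSet_le measurable_const measurable_fst)
  · have : {z : ℝ × ℝ | c < ψ u.1 u.2 ∧ ((u.1 : ℝ) ≤ z.2 ∧ (u.2 : ℝ) ≤ z.1)} = ∅ := by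
      ext z
      exact ⟨fun h => absurd h.1 hu, fun h => absurd h (notMem_empty z)⟩
    rw [this]
    exact MeasurableSet.empty

/-- The pairs with a small growth, at distances less than `1 / (n + 1)`. -/
def G2 (ψ : ℚ → ℚ → ℝ) (io : ℝ) (n : ℕ) : Set (ℝ × ℝ) :=
  {z | ∀ w' : ℚ, z.2 < w' → (w' : ℝ) < z.2 + 1 / ((n : ℝ) + 1) →
    x2 ψ z.1 w' - x2 ψ z.1 z.2 ≤ io * ((w' : ℝ) - z.2)}

theorem G2_meas (hb : ∀ w q, ψ w q ≤ B) (io : ℝ) (n : ℕ) : MeasurableSet (G2 ψ io n) := by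
  have e : G2 ψ io n = ⋂ w' : ℚ, ({z : ℝ × ℝ | z.2 < w'}ᶜ ∪
      ({z : ℝ × ℝ | (w' : ℝ) < z.2 + 1 / ((n : ℝ) + 1)}ᶜ ∪
      {z | x2 ψ z.1 w' - x2 ψ z.1 z.2 ≤ io * ((w' : ℝ) - z.2)})) := by
    ext z
    rw [mem_iInter]
    constructor
    · intro h w'
      by_cases h1 : z.2 < w'
      · by_cases h2 : (w' : ℝ) < z.2 + 1 / ((n : ℝ) + 1)
        · exact Or.inr (Or.inr (h w' h1 h2))
        · exact Or.inr (Or.inl h2)
      · exact Or.inl h1
    · intro h w' h1 h2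
      rcases h w' with h3 | h3 | h3
      · exact absurd h1 h3
      · exact absurd h2 h3
      · exact h3
  rw [e]
  refine MeasurableSet.iInter fun w' => ?_
  refine (measurableSet_lt measurable_snd measurable_const).compl.union
    ((measurableSet_lt measurable_const (measurable_snd.add_const _)).compl.union ?_)
  refine measurableSet_le ?_ ?_
  · refine Measurable.sub ?_ (x2_meas hb)
    exact (x2_meas hb).comp (measurable_fst.prodMk measurable_const)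
  · exact (measurable_const.sub measurable_snd).const_mul io

theorem G2_section (hb : ∀ w q, ψ w q ≤ B) {io : ℝ} (hio : 0 < io) {a b : ℝ} (hab : a ≤ b)
    (y : ℝ) : volume {x | x ∈ Ioo a b ∧ ∀ n, (y, x) ∉ G2 ψ io n} ≤
      ENNReal.ofReal ((x2 ψ y b - x2 ψ y a) / io) := by
  refine le_trans (measure_mono ?_) (bad_slope (F := fun x => x2 ψ y x)
    (fun x x' h => x2_mono hb le_rfl h) hab hio)
  rintro x ⟨hx, hn⟩
  refine ⟨hx, ?_⟩
  rintro ⟨δ, hδ, h⟩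
  obtain ⟨n, hn1⟩ := exists_nat_one_div_lt hδ
  refine hn n ?_
  intro w' h1 h2
  exact h w' h1 (by
    have : x + 1 / ((n : ℝ) + 1) < x + δ := by linarith only [hn1]
    exact h2.trans this)

end

/-! ### Density points in the plane -/

/-- Density points in the plane. -/
def DP2 (s : Set (ℝ × ℝ)) (z : ℝ × ℝ) : Prop := Tendsto
  (fun r => volume (s ∩ Metric.closedBall z r) / volume (Metric.closedBall z r)) (𝓝[>] 0) (𝓝 1)

theorem dp2_ae (s : Set (ℝ × ℝ)) : volume {z | z ∈ s ∧ ¬ DP2 s z} = 0 := by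
  have h := Besicovitch.ae_tendsto_measure_inter_div (volume : Measure (ℝ × ℝ)) s
  have h1 : volume.restrict s {z | z ∈ s ∧ ¬ DP2 s z} = 0 := by
    refine measure_mono_null ?_ h
    rintro x ⟨-, hx⟩
    exact hx
  have h2 := Measure.le_restrict_apply (μ := (volume : Measure (ℝ × ℝ))) s
    {z | z ∈ s ∧ ¬ DP2 s z}
  rw [h1] at h2
  have h3 : {z | z ∈ s ∧ ¬ DP2 s z} ∩ s = {z | z ∈ s ∧ ¬ DP2 s z} := by
    ext x
    constructor
    · exact fun h => h.1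
    · exact fun h => ⟨h, h.1⟩
  rw [h3] at h2
  exact le_antisymm h2 zero_le

theorem vol_box (a b c d : ℝ) : volume (Icc a b ×ˢ Icc c d : Set (ℝ × ℝ)) =
    ENNReal.ofReal (b - a) * ENNReal.ofReal (d - c) := by
  rw [Measure.volume_eq_prod, Measure.prod_prod, Real.volume_Icc, Real.volume_Icc]

theorem DP2.meet {s : Set (ℝ × ℝ)} {z : ℝ × ℝ} (h : DP2 s z) {η : ℝ} (hη : 0 < η)
    (hη1 : η ≤ 1) : ∃ δ : ℝ, 0 < δ ∧ ∀ l : ℝ, 0 < l → l < δ → ∀ y x : ℝ, |y - z.1| ≤ l →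
      |x - z.2| ≤ l → ∃ z' ∈ s, y ≤ z'.1 ∧ z'.1 ≤ y + η * l ∧ x - η * l ≤ z'.2 ∧ z'.2 ≤ x := by
  have hev : ∀ᶠ r in 𝓝[>] (0 : ℝ), ENNReal.ofReal (1 - η ^ 2 / 32) ≤
      volume (s ∩ Metric.closedBall z r) / volume (Metric.closedBall z r) := by
    refine h.eventually (Ici_mem_nhds ?_)
    rw [← ENNReal.ofReal_one]
    exact (ENNReal.ofReal_lt_ofReal_iff one_pos).2 (by
      have : 0 < η ^ 2 := by positivity
      linarith only [this])
  rw [eventually_nhdsWithin_iff, Metric.eventually_nhds_iff] at hev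
  obtain ⟨δ, hδ, h1⟩ := hev
  refine ⟨δ / 2, by linarith only [hδ], fun l hl0 hl y x hy hx => ?_⟩
  have h2 := h1 (y := 2 * l) (by rw [Real.dist_eq, sub_zero, abs_of_pos (by linarith only [hl0])]; linarith only [hl])
    (show (0 : ℝ) < 2 * l by linarith only [hl0])
  have hball : Metric.closedBall z (2 * l) =
      Icc (z.1 - 2 * l) (z.1 + 2 * l) ×ˢ Icc (z.2 - 2 * l) (z.2 + 2 * l) := by
    obtain ⟨z1, z2⟩ := z
    rw [← closedBall_prod_same, Real.closedBall_eq_Icc, Real.closedBall_eq_Icc]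
  have hvol : volume (Metric.closedBall z (2 * l)) = ENNReal.ofReal (16 * l ^ 2) := by
    rw [hball, vol_box, ← ENNReal.ofReal_mul (by linarith only [hl0])]
    congr 1
    ring
  rw [hvol] at h2
  have hpos : ENNReal.ofReal (16 * l ^ 2) ≠ 0 := by
    rw [Ne, ENNReal.ofReal_eq_zero, not_le]
    positivity
  have h3 := (ENNReal.le_div_iff_mul_le (Or.inl hpos) (Or.inl ENNReal.ofReal_ne_top)).1 h2
  have hη2 : 0 ≤ 1 - η ^ 2 / 32 := by nlinarith only [hη1, hη]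
  rw [← ENNReal.ofReal_mul hη2] at h3
  by_contra hcon
  push Not at hcon
  obtain ⟨Q, hQ⟩ : ∃ Q : Set (ℝ × ℝ), Q = Icc y (y + η * l) ×ˢ Icc (x - η * l) x := ⟨_, rfl⟩
  have hQm : MeasurableSet Q := by
    rw [hQ]
    exact measurableSet_Icc.prod measurableSet_Icc
  have hQv : volume Q = ENNReal.ofReal (η ^ 2 * l ^ 2) := by
    rw [hQ, vol_box, ← ENNReal.ofReal_mul (by
      have : 0 < η * l := by positivity
      linarith only [this])]
    congr 1
    ring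
  have hηl : η * l ≤ l := by nlinarith only [hη1, hl0]
  have hQs : Q ⊆ Metric.closedBall z (2 * l) := by
    rintro ⟨a, b⟩ hab
    rw [hQ] at hab
    obtain ⟨⟨h4, h5⟩, h6, h7⟩ := hab
    rw [hball]
    rw [abs_le] at hy hx
    simp only at h4 h5 h6 h7
    refine ⟨⟨?_, ?_⟩, ?_, ?_⟩ <;> simp only <;> linarith
  have hdis : s ∩ Metric.closedBall z (2 * l) ⊆ Metric.closedBall z (2 * l) \ Q := by
    rintro ⟨a, b⟩ ⟨h4, h5⟩
    refine ⟨h5, fun h6 => ?_⟩
    rw [hQ] at h6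
    obtain ⟨⟨h7, h8⟩, h9, h10⟩ := h6
    have := hcon (a, b) h4 h7 h8 h9
    simp only at this h10
    linarith only [h10, this]
  have hη3 : η ^ 2 * l ^ 2 ≤ l ^ 2 := by
    have h6 : η ^ 2 ≤ 1 := pow_le_one₀ hη.le hη1
    have h7 := mul_le_mul_of_nonneg_right h6 (sq_nonneg l)
    linarith only [h7]
  have hl2 : 0 < l ^ 2 := by positivity
  have h5 := h3.trans (measure_mono hdis)
  rw [measure_sdiff hQs hQm.nullMeasurableSet (by rw [hQv]; exact ENNReal.ofReal_ne_top), hvol,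
    hQv, ← ENNReal.ofReal_sub _ (by positivity), ENNReal.ofReal_le_ofReal_iff (by linarith only [hη3, hl2])] at h5
  have : 0 < η ^ 2 * l ^ 2 := by positivity
  nlinarith only [h5, this]

/-- The slope on small squares at a density point of the pairs with a small growth. -/
theorem slope_of_dp {ψ : ℚ → ℚ → ℝ} {B L io : ℝ} (hb : ∀ w q, ψ w q ≤ B) (hL : 0 ≤ L)
    (hw : ∀ w w' q, w ≤ w' → ψ w q ≤ ψ w' q) (hq : ∀ w q q', q ≤ q' → ψ w q ≤ ψ w q')
    (hl : ∀ w q q' : ℚ, q ≤ q' → ψ w q' - ψ w q ≤ L * ((q' : ℝ) - q)) (hio : 0 < io) {n : ℕ}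
    {z : ℝ × ℝ} (hz : DP2 (G2 ψ io n) z) {e : ℝ} (he : 0 < e) :
    ∃ δ : ℝ, 0 < δ ∧ ∀ l : ℝ, 0 < l → l < δ → ∀ w w' q : ℚ, w ≤ w' → |(w : ℝ) - z.2| ≤ l →
      |(w' : ℝ) - z.2| ≤ l → |(q : ℝ) - z.1| ≤ l →
      ψ w' q - ψ w q ≤ io * ((w' : ℝ) - w) + e * l := by
  obtain ⟨η, hη0, hη1, hη2⟩ : ∃ η : ℝ, 0 < η ∧ η ≤ 1 ∧ (io + L) * η ≤ e := by
    refine ⟨min 1 (e / (io + L)), lt_min one_pos (by positivity), min_le_left _ _, ?_⟩
    calc _ ≤ (io + L) * (e / (io + L)) :=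
          mul_le_mul_of_nonneg_left (min_le_right _ _) (by linarith only [hL, hio])
      _ = e := mul_div_cancel₀ _ (by linarith only [hL, hio])
  obtain ⟨δ, hδ, hmeet⟩ := hz.meet hη0 hη1
  refine ⟨min δ (1 / ((n : ℝ) + 1) / 3), lt_min hδ (by positivity), ?_⟩
  intro l hl0 hl1 w w' q hww h1 h2 h3
  have hlδ : l < δ := lt_of_lt_of_le hl1 (min_le_left _ _)
  have hln : l < 1 / ((n : ℝ) + 1) / 3 := lt_of_lt_of_le hl1 (min_le_right _ _)
  obtain ⟨⟨y, x⟩, hyx, a1, a2, a3, a4⟩ := hmeet l hl0 hlδ q w h3 h1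
  simp only at a1 a2 a3 a4
  have hηl : η * l ≤ l := by nlinarith only [hη1, hl0]
  have hw'w : (w : ℝ) ≤ w' := by exact_mod_cast hww
  have e1 := abs_le.1 h1
  have e2 := abs_le.1 h2
  -- the growth at the near point
  have hgr : x2 ψ y w' - x2 ψ y x ≤ io * ((w' : ℝ) - x) := by
    rcases (a4.trans hw'w).lt_or_eq with h4 | h4
    · exact hyx w' h4 (by simp only; linarith only [hln, a3, hηl, e1, e2])
    · rw [← h4]
      simp
  have b1 : ψ w' q ≤ x2 ψ y w' := by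
    rw [← x2_rat hb hw hq w' q]
    exact x2_mono hb a1 le_rfl
  have b2 : x2 ψ y x ≤ x2 ψ y w := x2_mono hb le_rfl a4
  have b3 := x2_lip hb hL hq hl a1 (w : ℝ)
  rw [x2_rat hb hw hq w q] at b3
  have b4 : L * (y - q) ≤ L * (η * l) := mul_le_mul_of_nonneg_left (by linarith only [a2]) hL
  have b5 : io * ((w' : ℝ) - x) ≤ io * ((w' : ℝ) - w) + io * (η * l) := by
    have : io * ((w' : ℝ) - x) ≤ io * (((w' : ℝ) - w) + η * l) :=
      mul_le_mul_of_nonneg_left (by linarith only [a3]) hio.le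
    linarith only [this]
  have b6 : (io + L) * η * l ≤ e * l := mul_le_mul_of_nonneg_right hη2 hl0.le
  have b7 : (io + L) * η * l = io * (η * l) + L * (η * l) := by ring
  linarith only [hgr, b1, b2, b3, b4, b5, b6]

/-- **The bad set** of a function which is nonincreasing in the window and small at small `q`. -/
theorem bad2 {φ : ℚ → ℚ → ℝ} {M io : ℝ} {w₂ q₂ : ℚ} (hM : 0 ≤ M) (hio : 0 < io) (hw₂ : 0 < w₂)
    (hq₂ : 0 < q₂)
    (ha : ∀ w w' q : ℚ, 0 ≤ w → w ≤ w' → w' ≤ w₂ → 0 ≤ q → q ≤ q₂ → φ w' q ≤ φ w q)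
    (hl : ∀ w q q' : ℚ, 0 ≤ w → w ≤ w₂ → 0 ≤ q → q ≤ q' → q' ≤ q₂ →
      |φ w q' - φ w q| ≤ M * ((q' : ℝ) - q))
    (h0 : ∀ w q : ℚ, 0 ≤ w → w ≤ w₂ → 0 ≤ q → q ≤ q₂ → 0 ≤ φ w q ∧ φ w q ≤ M * q) :
    ∃ N : Set (ℝ × ℝ), MeasurableSet N ∧
      (∀ᵐ q : ℝ, 0 < q → q < q₂ → volume {w | (q, w) ∈ N} ≤ ENNReal.ofReal (M / io * q)) ∧
      ∀ w q : ℝ, 0 < w → w < w₂ → 0 < q → q < q₂ → (q, w) ∉ N → DSl φ w q io := by
  -- the function on all rationals
  obtain ⟨cw, hcw⟩ : ∃ cw : ℚ → ℚ, cw = fun w => max 0 (min w w₂) := ⟨_, rfl⟩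
  obtain ⟨cq, hcq⟩ : ∃ cq : ℚ → ℚ, cq = fun q => max 0 (min q q₂) := ⟨_, rfl⟩
  have hcw0 : ∀ w, 0 ≤ cw w := fun w => by rw [hcw]; exact le_max_left _ _
  have hcw1 : ∀ w, cw w ≤ w₂ := fun w => by
    rw [hcw]
    exact max_le hw₂.le (min_le_right _ _)
  have hcwm : ∀ w w', w ≤ w' → cw w ≤ cw w' := fun w w' h => by
    rw [hcw]
    exact max_le_max le_rfl (min_le_min h le_rfl)
  have hcq0 : ∀ q, 0 ≤ cq q := fun q => by rw [hcq]; exact le_max_left _ _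
  have hcq1 : ∀ q, cq q ≤ q₂ := fun q => by
    rw [hcq]
    exact max_le hq₂.le (min_le_right _ _)
  have hcqm : ∀ q q', q ≤ q' → cq q ≤ cq q' := fun q q' h => by
    rw [hcq]
    exact max_le_max le_rfl (min_le_min h le_rfl)
  have hcql : ∀ q q', q ≤ q' → cq q' - cq q ≤ q' - q := fun q q' h => by
    rw [hcq]
    simp only
    rcases le_total q' q₂ with h1 | h1
    · rw [min_eq_left h1, min_eq_left (h.trans h1)]
      rcases le_total 0 q with h2 | h2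
      · rw [max_eq_right h2, max_eq_right (h2.trans h)]
      · rw [max_eq_left h2]
        rcases le_total 0 q' with h3 | h3
        · rw [max_eq_right h3]
          linarith only [h2]
        · rw [max_eq_left h3]
          linarith only [h]
    · rw [min_eq_right h1, max_eq_right hq₂.le]
      rcases le_total q q₂ with h2 | h2
      · rw [min_eq_left h2]
        have := le_max_right 0 q
        linarith
      · rw [min_eq_right h2, max_eq_right hq₂.le]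
        linarith
  obtain ⟨ψ, hψ⟩ : ∃ ψ : ℚ → ℚ → ℝ, ψ = fun w q => M * cq q - φ (cw w) (cq q) := ⟨_, rfl⟩
  have hq₂r : (0 : ℝ) < q₂ := by exact_mod_cast hq₂
  have hw₂r : (0 : ℝ) < w₂ := by exact_mod_cast hw₂
  have hψ1 : ∀ w q, ψ w q ≤ M * cq q := fun w q => by
    rw [hψ]
    have := (h0 (cw w) (cq q) (hcw0 w) (hcw1 w) (hcq0 q) (hcq1 q)).1
    simp only
    linarith only [this]
  have hψ0 : ∀ w q, 0 ≤ ψ w q := fun w q => by
    rw [hψ]
    have := (h0 (cw w) (cq q) (hcw0 w) (hcw1 w) (hcq0 q) (hcq1 q)).2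
    simp only
    linarith
  have hb : ∀ w q, ψ w q ≤ M * q₂ := fun w q => (hψ1 w q).trans
    (mul_le_mul_of_nonneg_left (by exact_mod_cast hcq1 q) hM)
  have hw : ∀ w w' q, w ≤ w' → ψ w q ≤ ψ w' q := fun w w' q h => by
    rw [hψ]
    have := ha (cw w) (cw w') (cq q) (hcw0 w) (hcwm w w' h) (hcw1 w') (hcq0 q) (hcq1 q)
    simp only
    linarith
  have hq : ∀ w q q', q ≤ q' → ψ w q ≤ ψ w q' := fun w q q' h => by
    rw [hψ]
    have := (abs_le.1 (hl (cw w) (cq q) (cq q') (hcw0 w) (hcw1 w) (hcq0 q) (hcqm q q' h)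
      (hcq1 q'))).2
    simp only
    linarith only [this]
  have hL0 : 0 ≤ 2 * M := by linarith only [hM]
  have hlq : ∀ w q q' : ℚ, q ≤ q' → ψ w q' - ψ w q ≤ (2 * M) * ((q' : ℝ) - q) :=
    fun w q q' h => by
    rw [hψ]
    have h1 := (abs_le.1 (hl (cw w) (cq q) (cq q') (hcw0 w) (hcw1 w) (hcq0 q) (hcqm q q' h)
      (hcq1 q'))).1
    have h2 : ((cq q' : ℚ) : ℝ) - cq q ≤ (q' : ℝ) - q := by exact_mod_cast hcql q q' h
    have h3 := mul_le_mul_of_nonneg_left h2 hM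
    simp only
    linarith only [h1, h3]
  -- the null set
  obtain ⟨Z, hZ⟩ : ∃ Z : Set (ℝ × ℝ), Z = toMeasurable volume
    (⋃ n, {z | z ∈ G2 ψ io n ∧ ¬ DP2 (G2 ψ io n) z}) := ⟨_, rfl⟩
  have hZm : MeasurableSet Z := by rw [hZ]; exact measurableSet_toMeasurable _ _
  have hZ0 : ((volume : Measure ℝ).prod volume) Z = 0 := by
    rw [← Measure.volume_eq_prod, hZ, measure_toMeasurable]
    exact measure_iUnion_null fun n => dp2_ae _
  obtain ⟨N, hN⟩ : ∃ N : Set (ℝ × ℝ), N =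
    {z : ℝ × ℝ | (0 < z.2 ∧ z.2 < (w₂ : ℝ)) ∧ ∀ n, z ∉ G2 ψ io n} ∪ Z := ⟨_, rfl⟩
  refine ⟨N, ?_, ?_, ?_⟩
  · rw [hN]
    refine MeasurableSet.union ?_ hZm
    refine MeasurableSet.inter ?_ ?_
    · exact (measurable_snd measurableSet_Ioi).inter (measurable_snd measurableSet_Iio)
    · have : {z : ℝ × ℝ | ∀ n, z ∉ G2 ψ io n} = ⋂ n, (G2 ψ io n)ᶜ := by
        ext z
        rw [mem_iInter]
        rfl
      show MeasurableSet {z : ℝ × ℝ | ∀ n, z ∉ G2 ψ io n}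
      rw [this]
      exact MeasurableSet.iInter fun n => (G2_meas hb io n).compl
  · rw [Measure.measure_prod_null hZm] at hZ0
    filter_upwards [hZ0] with q hqZ hq0 hq1
    have hs : {w : ℝ | (q, w) ∈ N} ⊆ {x | x ∈ Ioo 0 (w₂ : ℝ) ∧ ∀ n, (q, x) ∉ G2 ψ io n} ∪
        Prod.mk q ⁻¹' Z := by
      intro w hw
      rw [mem_ofPred_eq, hN] at hw
      rcases hw with h | h
      · exact Or.inl h
      · exact Or.inr h
    refine (measure_mono hs).trans ((measure_union_le _ _).trans ?_)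
    have h1 : volume (Prod.mk q ⁻¹' Z) = 0 := hqZ
    rw [h1, add_zero]
    refine (G2_section hb hio hw₂r.le q).trans (ENNReal.ofReal_le_ofReal ?_)
    have h2 : x2 ψ q w₂ ≤ M * q := by
      refine csSup_le (x2_ne _ _) ?_
      rintro z ⟨w, p, -, hp, rfl⟩
      refine (hψ1 w p).trans (mul_le_mul_of_nonneg_left ?_ hM)
      rw [hcq]
      simp only
      push_cast
      exact max_le hq0.le ((min_le_left _ _).trans hp)
    have h3 : 0 ≤ x2 ψ q 0 := by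
      obtain ⟨z, hz⟩ := x2_ne (ψ := ψ) q 0
      obtain ⟨w, p, h4, h5, h6⟩ := hz
      refine (hψ0 w p).trans ?_
      exact le_csSup (x2_bdd hb _ _) ⟨w, p, h4, h5, rfl⟩
    rw [div_mul_eq_mul_div]
    exact div_le_div_of_nonneg_right (by linarith only [h2, h3]) hio.le
  · intro w q hw0 hw1 hq0 hq1 hzN
    rw [hN] at hzN
    have h1 : ∃ n, (q, w) ∈ G2 ψ io n := by
      by_contra hcon
      push Not at hcon
      exact hzN (Or.inl ⟨⟨hw0, hw1⟩, hcon⟩)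
    obtain ⟨n, hn⟩ := h1
    have h2 : DP2 (G2 ψ io n) (q, w) := by
      by_contra hcon
      refine hzN (Or.inr ?_)
      rw [hZ]
      exact subset_toMeasurable _ _ (mem_iUnion.2 ⟨n, hn, hcon⟩)
    intro e he
    obtain ⟨δ, hδ, h3⟩ := slope_of_dp hb hL0 hw hq hlq hio h2 he
    obtain ⟨δ', hδ'0, hδ'1, hδ'2, hδ'3, hδ'4, hδ'5⟩ : ∃ δ' : ℝ, 0 < δ' ∧ δ' ≤ δ ∧ δ' ≤ w ∧
        δ' ≤ w₂ - w ∧ δ' ≤ q ∧ δ' ≤ q₂ - q := by
      refine ⟨min δ (min (min w (w₂ - w)) (min q (q₂ - q))), ?_, min_le_left _ _, ?_, ?_, ?_, ?_⟩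
      · exact lt_min hδ (lt_min (lt_min hw0 (by linarith only [hw1])) (lt_min hq0 (by linarith only [hq1])))
      · exact (min_le_right _ _).trans ((min_le_left _ _).trans (min_le_left _ _))
      · exact (min_le_right _ _).trans ((min_le_left _ _).trans (min_le_right _ _))
      · exact (min_le_right _ _).trans ((min_le_right _ _).trans (min_le_left _ _))
      · exact (min_le_right _ _).trans ((min_le_right _ _).trans (min_le_right _ _))
    refine ⟨δ', hδ'0, fun l hl0 hl1 a a' p haa h4 h5 h6 => ?_⟩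
    have h7 := h3 l hl0 (by linarith only [hδ'1, hl1]) a a' p haa h4 h5 h6
    have e1 := abs_le.1 h4
    have e2 := abs_le.1 h5
    have e3 := abs_le.1 h6
    have ca : cw a = a := by
      rw [hcw]
      simp only
      rw [min_eq_left, max_eq_right]
      · have : (0 : ℝ) ≤ a := by linarith only [hδ'2, hl1, e1]
        exact_mod_cast this
      · have : (a : ℝ) ≤ w₂ := by linarith only [hδ'3, hl1, e1]
        exact_mod_cast this
    have ca' : cw a' = a' := by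
      rw [hcw]
      simp only
      rw [min_eq_left, max_eq_right]
      · have : (0 : ℝ) ≤ a' := by linarith only [hδ'2, hl1, e2]
        exact_mod_cast this
      · have : (a' : ℝ) ≤ w₂ := by linarith only [hδ'3, hl1, e2]
        exact_mod_cast this
    have cp : cq p = p := by
      rw [hcq]
      simp only
      rw [min_eq_left, max_eq_right]
      · have : (0 : ℝ) ≤ p := by linarith only [hδ'4, hl1, e3]
        exact_mod_cast this
      · have : (p : ℝ) ≤ q₂ := by linarith only [hδ'5, hl1, e3]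
        exact_mod_cast this
    rw [hψ] at h7
    simp only at h7
    rw [ca, ca', cp] at h7
    linarith

end Pool.Sel51
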